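import Mathlib

namespace Pool.Agent.FrobDecomp

set_option linter.unusedSectionVars false
set_option linter.style.haveILetI false

open scoped TensorProduct

section

variable {p : ℕ} [hp : Fact p.Prime]

theorem isField_of_pRadical {k K : Type*} [CommRing k] [CommRing K] [CharP K p]
    [PerfectRing K p] (i : k →+* K) [IsPRadical i p] (hk : IsField k) : IsField K := by
  haveI : Nontrivial K := CharP.nontrivial_of_char_ne_one (R := K) (v := p) hp.out.ne_one
  refine ⟨exists_pair_ne K, mul_comm, fun {x} hx => ?_⟩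
  obtain ⟨n, y, hy⟩ := IsPRadical.pow_mem i p x
  have hy0 : y ≠ 0 := by
    rintro rfl
    rw [map_zero] at hy
    apply hx
    apply (bijective_iterateFrobenius K p n).1
    rw [iterateFrobenius_def, ← hy, map_zero]
  obtain ⟨z, hz⟩ := hk.mul_inv_cancel hy0
  refine ⟨x ^ (p ^ n - 1) * i z, ?_⟩
  rw [← mul_assoc, ← pow_succ', Nat.sub_add_cancel (Nat.one_le_pow _ _ hp.out.pos), ← hy,
    ← map_mul, hz, map_one]

variable {A : Type*} [CommRing A] [IsLocalRing A]

theorem isField_of_bij {k : Subring A}
    (hk : Function.Bijective ((IsLocalRing.residue A).comp k.subtype)) : IsField k :=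
  (RingEquiv.ofBijective _ hk).toMulEquiv.isField (Field.toIsField _)

/-- The projection of a local ring to a coefficient field. -/
noncomputable def toCoeff {k : Subring A}
    (hk : Function.Bijective ((IsLocalRing.residue A).comp k.subtype)) : A →+* k :=
  ((RingEquiv.ofBijective _ hk).symm : IsLocalRing.ResidueField A →+* k).comp
    (IsLocalRing.residue A)

theorem residue_toCoeff {k : Subring A}
    (hk : Function.Bijective ((IsLocalRing.residue A).comp k.subtype)) (a : A) :
    IsLocalRing.residue A (toCoeff hk a : A) = IsLocalRing.residue A a :=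
  (RingEquiv.ofBijective _ hk).apply_symm_apply (IsLocalRing.residue A a)

theorem sub_toCoeff_mem {k : Subring A}
    (hk : Function.Bijective ((IsLocalRing.residue A).comp k.subtype)) (a : A) :
    a - toCoeff hk a ∈ IsLocalRing.maximalIdeal A := by
  rw [← IsLocalRing.residue_eq_zero_iff, map_sub, residue_toCoeff, sub_self]

theorem toCoeff_coe {k : Subring A}
    (hk : Function.Bijective ((IsLocalRing.residue A).comp k.subtype)) (c : k) :
    toCoeff hk (c : A) = c :=
  (RingEquiv.ofBijective _ hk).symm_apply_apply c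

theorem toCoeff_eq_zero {k : Subring A}
    (hk : Function.Bijective ((IsLocalRing.residue A).comp k.subtype)) {a : A}
    (ha : a ∈ IsLocalRing.maximalIdeal A) : toCoeff hk a = 0 := by
  unfold toCoeff
  rw [RingHom.comp_apply, (IsLocalRing.residue_eq_zero_iff a).2 ha, map_zero]

variable {k : Subring A}
    (hk : Function.Bijective ((IsLocalRing.residue A).comp k.subtype))
    (K : Type*) [CommRing K] [Algebra k K]

/-- The map `K ⊗ A → K`, `c ⊗ a ↦ c * (a mod 𝔪)`. -/
noncomputable def augMap : K ⊗[k] A →ₐ[K] K :=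
  Algebra.TensorProduct.lift (AlgHom.id K K)
    (AlgHom.mk ((algebraMap k K).comp (toCoeff hk)) (fun c => by
      simp only [RingHom.toMonoidHom_eq_coe, OneHom.toFun_eq_coe, MonoidHom.toOneHom_coe,
        MonoidHom.coe_coe, RingHom.comp_apply]
      congr 1
      exact toCoeff_coe hk c) : A →ₐ[k] K) (fun _ _ => mul_comm _ _)

theorem augMap_tmul (c : K) (a : A) :
    augMap hk K (c ⊗ₜ a) = c * algebraMap k K (toCoeff hk a) := by
  simp [augMap]

/-- The extension of an ideal of `A` to `K ⊗ A`. -/
noncomputable abbrev extIdeal (I : Ideal A) : Ideal (K ⊗[k] A) :=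
  I.map (Algebra.TensorProduct.includeRight : A →ₐ[k] K ⊗[k] A)

theorem sub_augMap_mem (z : K ⊗[k] A) :
    z - augMap hk K z ⊗ₜ 1 ∈ extIdeal K (IsLocalRing.maximalIdeal A) (k := k) := by
  induction z with
  | zero => simp
  | add z w hz hw =>
    rw [map_add, TensorProduct.add_tmul]
    have := add_mem hz hw
    convert this using 1
    ring
  | tmul c a =>
    rw [augMap_tmul]
    have h1 : (c * algebraMap k K (toCoeff hk a)) ⊗ₜ[k] (1 : A) =
        c ⊗ₜ[k] ((toCoeff hk a : k) : A) := by
      rw [mul_comm, ← Algebra.smul_def, TensorProduct.smul_tmul, Algebra.smul_def, mul_one]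
      rfl
    rw [h1, ← TensorProduct.tmul_sub]
    have h2 : c ⊗ₜ[k] (a - (toCoeff hk a : k)) = (c ⊗ₜ[k] (1 : A)) *
        ((Algebra.TensorProduct.includeRight : A →ₐ[k] K ⊗[k] A) (a - (toCoeff hk a : k))) := by
      simp
    rw [h2]
    exact Ideal.mul_mem_left _ _ (Ideal.mem_map_of_mem _ (sub_toCoeff_mem hk a))

theorem ker_augMap : RingHom.ker (augMap hk K) =
    extIdeal K (IsLocalRing.maximalIdeal A) (k := k) := by
  apply le_antisymm
  · intro z hz
    rw [RingHom.mem_ker] at hz
    have := sub_augMap_mem hk K z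
    rwa [hz, TensorProduct.zero_tmul, sub_zero] at this
  · rw [extIdeal, Ideal.map_le_iff_le_comap]
    intro a ha
    rw [Ideal.mem_comap, RingHom.mem_ker, Algebra.TensorProduct.includeRight_apply, augMap_tmul,
      toCoeff_eq_zero hk ha, map_zero, mul_zero]

variable [CharP A p] [CharP K p]

include hk hp

theorem nontrivial_tensor : Nontrivial (K ⊗[k] A) := by
  haveI : Nontrivial K := CharP.nontrivial_of_char_ne_one (R := K) (v := p) hp.out.ne_one
  exact (augMap hk K).toRingHom.domain_nontrivial

theorem charP_tensor : CharP (K ⊗[k] A) p := by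
  haveI := nontrivial_tensor (p := p) hk K
  apply (CharP.charP_iff_prime_eq_zero hp.out).2
  rw [← map_natCast (algebraMap K (K ⊗[k] A)), CharP.cast_eq_zero, map_zero]

theorem exists_pow_mem_range [IsPRadical (algebraMap k K) p] (z : K ⊗[k] A) :
    ∃ n : ℕ, ∃ a : A, z ^ p ^ n = 1 ⊗ₜ[k] a := by
  haveI := charP_tensor (p := p) hk K
  induction z with
  | zero => exact ⟨0, 0, by simp⟩
  | add z w hz hw =>
    obtain ⟨n, a, hz⟩ := hz
    obtain ⟨m, b, hw⟩ := hw
    refine ⟨n + m, a ^ p ^ m + b ^ p ^ n, ?_⟩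
    rw [add_pow_char_pow, pow_add, pow_mul, hz, mul_comm, pow_mul, hw, TensorProduct.tmul_add]
    simp [Algebra.TensorProduct.tmul_pow]
  | tmul c a =>
    obtain ⟨n, y, hy⟩ := IsPRadical.pow_mem (algebraMap k K) p c
    refine ⟨n, y * a ^ p ^ n, ?_⟩
    rw [Algebra.TensorProduct.tmul_pow, ← hy, Algebra.algebraMap_eq_smul_one,
      TensorProduct.smul_tmul, Algebra.smul_def]
    rfl

variable [PerfectRing K p] [IsPRadical (algebraMap k K) p]

theorem isMaximal_extIdeal :
    (extIdeal K (IsLocalRing.maximalIdeal A) (k := k)).IsMaximal := by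
  rw [← ker_augMap hk K]
  letI : Field K := (isField_of_pRadical (p := p) (algebraMap k K) (isField_of_bij hk)).toField
  apply RingHom.ker_isMaximal_of_surjective
  intro c
  exact ⟨c ⊗ₜ 1, by simp [augMap_tmul]⟩

theorem isUnit_of_notMem (z : K ⊗[k] A)
    (hz : z ∉ extIdeal K (IsLocalRing.maximalIdeal A) (k := k)) : IsUnit z := by
  haveI := isMaximal_extIdeal (p := p) hk K
  obtain ⟨n, a, ha⟩ := exists_pow_mem_range (p := p) hk K z
  have h1 : a ∉ IsLocalRing.maximalIdeal A := by
    intro h
    apply hz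
    apply Ideal.IsPrime.mem_of_pow_mem inferInstance (p ^ n)
    rw [ha]
    exact Ideal.mem_map_of_mem
      (Algebra.TensorProduct.includeRight : A →ₐ[k] K ⊗[k] A) h
  rw [IsLocalRing.mem_maximalIdeal, mem_nonunits_iff, not_not] at h1
  have h2 : IsUnit (z ^ p ^ n) := by
    rw [ha]
    exact h1.map (Algebra.TensorProduct.includeRight : A →ₐ[k] K ⊗[k] A)
  exact (isUnit_pow_iff (pow_ne_zero _ hp.out.ne_zero)).1 h2

/-- `K ⊗ A` is local. -/
theorem isLocalRing_tensor : IsLocalRing (K ⊗[k] A) := by
  haveI := nontrivial_tensor (p := p) hk K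
  haveI := isMaximal_extIdeal (p := p) hk K
  apply IsLocalRing.of_unique_max_ideal
  refine ⟨_, this, fun J hJ => ?_⟩
  refine hJ.eq_of_le this.ne_top fun z hz => ?_
  by_contra h
  exact hJ.ne_top (Ideal.eq_top_of_isUnit_mem _ hz (isUnit_of_notMem (p := p) hk K z h))

theorem maximalIdeal_tensor [IsLocalRing (K ⊗[k] A)] :
    IsLocalRing.maximalIdeal (K ⊗[k] A) =
      extIdeal K (IsLocalRing.maximalIdeal A) (k := k) :=
  (IsLocalRing.eq_maximalIdeal (isMaximal_extIdeal (p := p) hk K)).symm

end

end Pool.Agent.FrobDecomp
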