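import Pool.Agent.FrobDecomp.Defs

namespace Pool.Agent.FrobDecomp

set_option linter.unusedSectionVars false

section

variable {A B C : Type*} [CommRing A] [CommRing B] [CommRing C]

theorem evalₐ_mapCompl {I : Ideal A} {J : Ideal B} {f : A →+* B} {h : I ≤ J.comap f} {n : ℕ}
    {x : AdicCompletion I A} {a : A} (ha : AdicCompletion.evalₐ I n x = Ideal.Quotient.mk _ a) :
    AdicCompletion.evalₐ J n (mapCompl I J f h x) = Ideal.Quotient.mk _ (f a) := by
  unfold mapCompl
  rw [AdicCompletion.evalₐ_liftRingHom _ _ (mapCompl_compat I J f h)]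
  simp only [RingHom.comp_apply, RingHom.coe_coe]
  rw [ha]
  rfl

/-- `evalₐ` of an element of the base ring. -/
theorem mapCompl_of {I : Ideal A} {J : Ideal B} {f : A →+* B} {h : I ≤ J.comap f} (a : A) :
    mapCompl I J f h (algebraMap A _ a) = algebraMap B _ (f a) := by
  refine AdicCompletion.ext_evalₐ fun n => ?_
  rw [evalₐ_mapCompl (a := a) (by simp [AdicCompletion.algebraMap_apply])]
  simp [AdicCompletion.algebraMap_apply]

/-- A criterion for the extension to completions to be bijective. -/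
theorem mapCompl_bijective {I : Ideal A} {J : Ideal B} {f : A →+* B} {h : I ≤ J.comap f}
    {e : ℕ} (he : 1 ≤ e) (h1 : ∀ n a, f a ∈ J ^ (e * n) → a ∈ I ^ n)
    (h2 : ∀ n b, ∃ a, b - f a ∈ J ^ n) : Function.Bijective (mapCompl I J f h) := by
  constructor
  · rw [injective_iff_map_eq_zero]
    intro x hx
    refine AdicCompletion.ext_evalₐ fun n => ?_
    rw [map_zero]
    obtain ⟨a, ha⟩ := Ideal.Quotient.mk_surjective (AdicCompletion.evalₐ I (e * n) x)
    have h3 := evalₐ_mapCompl (h := h) ha.symm
    rw [hx, map_zero, eq_comm, Ideal.Quotient.eq_zero_iff_mem] at h3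
    have h4 := h1 n a h3
    have h5 := evalₐ_of_le I (Nat.le_mul_of_pos_left n he) x a ha.symm
    rw [h5]
    exact Ideal.Quotient.eq_zero_iff_mem.2 h4
  · intro z
    have h3 : ∀ n, ∃ a, AdicCompletion.evalₐ J n z = Ideal.Quotient.mk _ (f a) := by
      intro n
      obtain ⟨b, hb⟩ := Ideal.Quotient.mk_surjective (AdicCompletion.evalₐ J n z)
      obtain ⟨a, ha⟩ := h2 n b
      exact ⟨a, by rw [← hb, Ideal.Quotient.eq]; exact ha⟩
    choose a ha using h3
    have h4 : ∀ n, a (e * n) - a (e * (n + 1)) ∈ I ^ n := by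
      intro n
      apply h1
      rw [map_sub, ← Ideal.Quotient.eq, ← ha]
      exact evalₐ_of_le J (by gcongr; omega) z _ (ha (e * (n + 1)))
    let x : AdicCompletion.AdicCauchySequence I A :=
      AdicCompletion.AdicCauchySequence.mk I A (fun n => a (e * n)) (fun n => by
        rw [SModEq.sub_mem]
        simpa using h4 n)
    refine ⟨AdicCompletion.mk I A x, AdicCompletion.ext_evalₐ fun n => ?_⟩
    have h5 : AdicCompletion.evalₐ I n (AdicCompletion.mk I A x) =
        Ideal.Quotient.mk _ (a (e * n)) := AdicCompletion.evalₐ_mk I n x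
    rw [evalₐ_mapCompl h5]
    exact (evalₐ_of_le J (Nat.le_mul_of_pos_left n he) z _ (ha (e * n))).symm

end

end Pool.Agent.FrobDecomp
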