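import Pool.Agent.FrobDecomp.Kernel

namespace Pool.Agent.FrobDecomp

set_option linter.unusedSectionVars false
set_option linter.style.haveILetI false

section

variable {p : ℕ} [hp : Fact p.Prime]

/-- Reduced monomials span, over any subring containing the `p`-th powers. -/
theorem mem_span_mon {K L : Type*} [CommRing K] [Field L] [CharP L p] [Algebra K L]
    (hK : ∀ x : L, ∃ y : K, algebraMap K L y = x ^ p) {S : Set L}
    (hgen : Algebra.adjoin K S = ⊤) (x : L) :
    x ∈ Submodule.span K (Set.range fun α : Mon p S => mon α.1) := by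
  classical
  choose a ha using hK
  have hA : ∀ γ : L →₀ ℕ, algebraMap K L (γ.prod fun s k => a s ^ k) = mon (p • γ) := by
    intro γ
    unfold mon
    rw [prod_smul_pow (fun s => s), Finsupp.prod, Finsupp.prod, map_prod]
    refine Finset.prod_congr rfl fun s _ => ?_
    rw [map_pow, ha]
  have hadd : ∀ α β : L →₀ ℕ, mon (α + β) = mon α * mon β := fun α β =>
    Finsupp.prod_add_index' (fun _ => pow_zero _) (fun _ _ _ => pow_add _ _ _)
  have hspan' : ∀ ε : L →₀ ℕ, (∀ s ∈ ε.support, s ∈ S) →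
      mon ε ∈ Submodule.span K (Set.range fun α : Mon p S => mon α.1) := by
    intro ε hε
    obtain ⟨γ, δ, hγ, hδ, rfl⟩ := exists_red (p := p) ε hε
    rw [hadd, ← hA, ← Algebra.smul_def]
    exact Submodule.smul_mem _ _ (Submodule.subset_span ⟨⟨δ, hδ⟩, rfl⟩)
  have h1 : (⊤ : Submodule K L) = Submodule.span K (Submonoid.closure S) := by
    rw [← Algebra.adjoin_eq_span, hgen]
    rfl
  have hx : x ∈ Submodule.span K (Submonoid.closure S : Set L) := by rw [← h1]; trivial
  refine (Submodule.span_le.2 ?_) hx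
  intro x hx
  have : ∃ ε : L →₀ ℕ, (∀ s ∈ ε.support, s ∈ S) ∧ x = mon ε := by
    refine Submonoid.closure_induction (fun s hs => ?_) ?_ ?_ hx
    · refine ⟨Finsupp.single s 1, fun t ht => ?_, by simp [mon]⟩
      have := Finsupp.support_single_subset ht
      rw [Finset.mem_singleton] at this
      rw [this]; exact hs
    · exact ⟨0, by simp, by simp [mon]⟩
    · rintro x y - - ⟨ε, hε, rfl⟩ ⟨ε', hε', rfl⟩
      refine ⟨ε + ε', fun s hs => ?_, (hadd _ _).symm⟩
      have := Finsupp.support_add hs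
      rw [Finset.mem_union] at this
      rcases this with h | h
      · exact hε s h
      · exact hε' s h
  obtain ⟨ε, hε, rfl⟩ := this
  exact hspan' ε hε

end

section

variable {A : Type*} [CommRing A] (I : Ideal A)

theorem isPrecomplete_pi [IsPrecomplete I A] (n : ℕ) : IsPrecomplete I (Fin n → A) where
  prec' := by
    intro f hf
    have hco : ∀ (m : ℕ) (v : Fin n → A), v ∈ (I ^ m • ⊤ : Submodule A (Fin n → A)) →
        ∀ i, v i ∈ I ^ m := by
      intro m v hv i
      refine Submodule.smul_induction_on (p := fun v => v i ∈ I ^ m) hv ?_ ?_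
      · intro r hr w _
        exact (I ^ m).mul_mem_right _ hr
      · intro v w hv hw
        exact (I ^ m).add_mem hv hw
    have h1 : ∀ i, ∃ L, ∀ k, L - f k i ∈ I ^ k := by
      intro i
      apply exists_limit I (fun k => f k i)
      intro k
      have := hf (Nat.le_succ k)
      rw [SModEq.sub_mem] at this
      have := hco _ _ this i
      have := (I ^ k).neg_mem this
      simpa using this
    choose L hL using h1
    refine ⟨L, fun m => ?_⟩
    rw [SModEq.sub_mem]
    have : f m - L = ∑ i, (f m i - L i) • (Pi.single i (1 : A) : Fin n → A) := by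
      ext j
      simp [Finset.sum_apply, Pi.single_apply]
    rw [this]
    refine Submodule.sum_mem _ fun i _ => Submodule.smul_mem_smul ?_ trivial
    have := (I ^ m).neg_mem (hL i m)
    simpa using this

/-- Nakayama's lemma over a complete ring for separated modules. -/
theorem top_le_of_complete [IsPrecomplete I A] {M : Type*} [AddCommGroup M] [Module A M]
    [IsHausdorff I M] (N : Submodule A M) (hN : N.FG) (h : (⊤ : Submodule A M) ≤ N ⊔ I • ⊤) :
    N = ⊤ := by
  obtain ⟨n, g, hg⟩ := Submodule.fg_iff_exists_fin_generating_family.1 hN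
  haveI := isPrecomplete_pi I n
  let f : (Fin n → A) →ₗ[A] M := Fintype.linearCombination A g
  have hrange : LinearMap.range f = N := by
    rw [Fintype.range_linearCombination, hg]
  have hs : Function.Surjective (Submodule.mkQ (I • (⊤ : Submodule A M)) ∘ₗ f) := by
    intro y
    obtain ⟨y, rfl⟩ := Submodule.mkQ_surjective _ y
    have hy : y ∈ N ⊔ I • (⊤ : Submodule A M) := h trivial
    rw [Submodule.mem_sup] at hy
    obtain ⟨u, hu, v, hv, rfl⟩ := hy
    rw [← hrange] at hu
    obtain ⟨w, rfl⟩ := hu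
    refine ⟨w, ?_⟩
    rw [LinearMap.comp_apply, map_add]
    have : Submodule.mkQ (I • (⊤ : Submodule A M)) v = 0 := by
      simpa using hv
    rw [this, add_zero]
  have := surjective_of_mkQ_comp_surjective hs
  rw [← hrange]
  exact LinearMap.range_eq_top.2 this

end

section

universe u

/-- Frobenius as a ring homomorphism into a subring containing all `p`-th powers. -/
noncomputable def frobTo {A : Type u} [CommRing A] (p : ℕ) [Fact p.Prime] [CharP A p]
    (R : Subring A) (h : ∀ a : A, a ^ p ∈ R) : A →+* R :=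
  (frobenius A p).codRestrict R h

theorem coe_frobTo {A : Type u} [CommRing A] (p : ℕ) [Fact p.Prime] [CharP A p]
    (R : Subring A) (h : ∀ a : A, a ^ p ∈ R) (a : A) : (frobTo p R h a : A) = a ^ p := rfl

/-- The data produced by the reduction: a coefficient field `k`, a subring `R` containing all
`p`-th powers and finite over them, a subfield `k1` of both, and a family `τ` in `k` that is a
basis of `k` over `k1` and stays independent over `R` in a strong topological sense. -/
structure GoodData (p : ℕ) [Fact p.Prime] (A : Type u) [CommRing A] [IsLocalRing A]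
    [CharP A p] where
  k : Subring A
  k1 : Subring A
  R : Subring A
  k1_le_k : k1 ≤ k
  k1_le_R : k1 ≤ R
  pow_k : ∀ c ∈ k, c ^ p ∈ k1
  pow_R : ∀ a : A, a ^ p ∈ R
  bij : Function.Bijective ((IsLocalRing.residue A).comp k.subtype)
  ι : Type u
  τ : ι → A
  τ_mem : ∀ i, τ i ∈ k
  span : ∀ c ∈ k, ∃ f : ι →₀ A, (∀ i, f i ∈ k1) ∧ c = f.sum fun i a => a * τ i
  indep : ∀ (n : ℕ) (f : ι →₀ A), (∀ i, f i ∈ R) →
    (f.sum fun i a => a * τ i) ∈ (IsLocalRing.maximalIdeal A) ^ n →
    ∀ i, f i ∈ (IsLocalRing.maximalIdeal A) ^ n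
  filt : ∀ (n : ℕ) (r : R), (r : A) ∈ (IsLocalRing.maximalIdeal A) ^ n →
    r ∈ ((IsLocalRing.maximalIdeal A).comap R.subtype) ^ n
  dense : ∀ (n : ℕ) (a : A), ∃ b ∈ Subring.closure ((k : Set A) ∪ R),
    a - b ∈ (IsLocalRing.maximalIdeal A) ^ n
  fin : (frobTo p R pow_R).Finite
  pow_le : ∃ e, ((IsLocalRing.maximalIdeal A).comap R.subtype) ^ e ≤
    (IsLocalRing.maximalIdeal A).map (frobTo p R pow_R)

theorem ders_mon {κ : Type u} [Field κ] {A : Type u} [CommRing A] (σ : κ →+* A)
    {X : AddMonoid.End A} (hX : X ∈ ders A) (s : κ) (hs : X (σ s) = σ s)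
    (S : Set κ) (hS : ∀ y ∈ S, y ≠ s → X (σ y) = 0) (α : κ →₀ ℕ) (hα : ∀ y ∈ α.support, y ∈ S) :
    X (σ (mon α)) = (α s : ℤ) • σ (mon α) := by
  classical
  induction α using Finsupp.induction with
  | zero => simp [mon, ders_one hX]
  | single_add y n α hy hn ih =>
    have hadd : ∀ α β : κ →₀ ℕ, mon (α + β) = mon α * mon β := fun α β =>
      Finsupp.prod_add_index' (fun _ => pow_zero _) (fun _ _ _ => pow_add _ _ _)
    have hdisj : Disjoint (Finsupp.single y n).support α.support := by
      rw [Finsupp.support_single _ hn, Finset.disjoint_singleton_left]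
      exact hy
    have hsupp : ∀ z, z ∈ (Finsupp.single y n + α).support ↔ z = y ∨ z ∈ α.support := by
      intro z
      rw [Finsupp.support_add_eq hdisj, Finset.mem_union, Finsupp.support_single _ hn,
        Finset.mem_singleton]
    have hyS : y ∈ S := hα y ((hsupp y).2 (Or.inl rfl))
    have ih' := ih fun z hz => hα z ((hsupp z).2 (Or.inr hz))
    have h1 : mon (Finsupp.single y n) = y ^ n := by simp [mon]
    rw [hadd, h1, map_mul, hX, ih', map_pow, ders_pow hX, Finsupp.add_apply]
    have h2 : (n : A) * σ y ^ (n - 1) * X (σ y) =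
        ((Finsupp.single y n s : ℕ) : A) * σ y ^ n := by
      by_cases h : y = s
      · subst h
        rw [hs, Finsupp.single_eq_same, mul_assoc, ← pow_succ]
        rcases Nat.eq_zero_or_pos n with h0 | h0
        · exact absurd h0 hn
        · rw [Nat.sub_add_cancel h0]
      · rw [hS y hyS h, Finsupp.single_eq_of_ne (Ne.symm h)]
        simp
    rw [h2]
    simp only [zsmul_eq_mul]
    push_cast
    ring

end

section

universe u

/-- The joint kernel of a family of derivations. -/
def kerSub {A : Type u} [CommRing A] {J : Type*} (E : J → AddMonoid.End A)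
    (hE : ∀ s, E s ∈ ders A) : Subring A where
  carrier := {a | ∀ s, E s a = 0}
  mul_mem' := by
    intro a b ha hb s
    rw [hE s, ha s, hb s]; ring
  one_mem' := fun s => ders_one (hE s)
  add_mem' := by
    intro a b ha hb s
    rw [map_add, ha s, hb s, add_zero]
  zero_mem' := fun s => map_zero _
  neg_mem' := by
    intro a ha s
    rw [map_neg, ha s, neg_zero]

theorem not_dvd_aux {p : ℕ} (hp : p.Prime) {a b : ℕ} (ha : a < p) (hb : b < p) (hab : a ≠ b) :
    ¬ ((p : ℤ) ∣ (((p - 1 : ℕ) : ℤ) * b + a)) := by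
  intro h
  have h1 : ((p - 1 : ℕ) : ℤ) = (p : ℤ) - 1 := by
    have := hp.one_le
    push_cast [Nat.cast_sub this]
    ring
  rw [h1] at h
  have h2 : (p : ℤ) ∣ ((a : ℤ) - b) := by
    have : (a : ℤ) - b = ((p : ℤ) - 1) * b + a - p * b := by ring
    rw [this]
    exact dvd_sub h (dvd_mul_right _ _)
  have h3 : (a : ℤ) - b = 0 := by
    apply Int.eq_zero_of_abs_lt_dvd h2
    rw [abs_lt]
    constructor <;> omega
  apply hab
  omega

variable {p : ℕ} [hp : Fact p.Prime] {A : Type u} [CommRing A] [IsLocalRing A]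
  [IsNoetherianRing A] [CharP A p] [IsAdicComplete (IsLocalRing.maximalIdeal A) A]

theorem exists_goodData : Nonempty (GoodData p A) := by
  classical
  have hpA : (p : A) = 0 := CharP.cast_eq_zero A p
  set I := IsLocalRing.maximalIdeal A with hIdef
  let κ := IsLocalRing.ResidueField A
  have hpκ : (p : κ) = 0 := by
    rw [← map_natCast (IsLocalRing.residue A), hpA, map_zero]
  haveI : CharP κ p := (CharP.charP_iff_prime_eq_zero hp.out).2 hpκ
  obtain ⟨S, hS⟩ := exists_isPBasis p κ
  have hres : Function.Surjective (IsLocalRing.residue A) := IsLocalRing.residue_surjective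
  obtain ⟨σ, hσres, -⟩ := exists_coefficientField A hpA hS (Function.surjInv hres)
    (fun s _ => Function.surjInv_eq hres s)
  have hmemI : ∀ a : A, IsLocalRing.residue A a = 0 ↔ a ∈ I := fun a =>
    IsLocalRing.residue_eq_zero_iff a
  have hσI : ∀ a : A, ∃ c : κ, a - σ c ∈ I := by
    intro a
    refine ⟨IsLocalRing.residue A a, ?_⟩
    rw [← hmemI, map_sub, hσres, sub_self]
  obtain ⟨n, x, hx⟩ := Submodule.fg_iff_exists_fin_generating_family.1
    (IsNoetherian.noetherian I)
  have hIne : I ≠ ⊤ := Ideal.IsPrime.ne_top'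
  obtain ⟨T, E, hEd, hE0, hEt, hEc, hEself, hEoff, hET, hEx, hEfin⟩ :=
    exists_torus I hIne hpA hS σ x hx hσI
  obtain ⟨π, hπR, hπlin, hπid, hπpow, hπclose, hπwt⟩ :=
    exists_proj I E hpA hEd hE0 hEt hEc hEfin
  let R : Subring A := kerSub E hEd
  have hR : ∀ a, a ∈ R ↔ ∀ s, E s a = 0 := fun a => Iff.rfl
  have hRp : ∀ a : A, a ^ p ∈ R := fun a s => ders_pow_char hpA (hEd s) a
  have hπmem : ∀ a, π a ∈ R := fun a s => hπR a s
  -- the new coefficient field
  let t1 : κ → A := fun y => if h : y ∈ S then (if (⟨y, h⟩ : S) ∈ T then π (σ y) else σ y) else 0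
  have ht1T : ∀ l : S, l ∈ T → t1 l = π (σ l) := by
    intro l hl
    show (if h : (l : κ) ∈ S then (if (⟨l, h⟩ : S) ∈ T then π (σ l) else σ l) else 0) = _
    rw [dif_pos l.2, if_pos hl]
  have ht1J : ∀ l : S, l ∉ T → t1 l = σ l := by
    intro l hl
    show (if h : (l : κ) ∈ S then (if (⟨l, h⟩ : S) ∈ T then π (σ l) else σ l) else 0) = _
    rw [dif_pos l.2, if_neg hl]
  have hπσ : ∀ l ∈ T, π (σ l) - σ l ∈ I := by
    intro l hl
    have := hπclose 1 (σ l) (fun s => by rw [pow_one]; exact hET s l hl)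
    rwa [pow_one] at this
  obtain ⟨σ', hσ'res, hσ't⟩ := exists_coefficientField A hpA hS t1 (by
    intro s hs
    by_cases h : (⟨s, hs⟩ : S) ∈ T
    · rw [ht1T ⟨s, hs⟩ h]
      have := hπσ _ h
      rw [← hmemI, map_sub, sub_eq_zero] at this
      rw [this, hσres]
    · rw [ht1J ⟨s, hs⟩ h, hσres])
  have hσ'T : ∀ l : S, l ∈ T → σ' l = π (σ l) := fun l hl => by rw [hσ't l l.2, ht1T l hl]
  have hσ'J : ∀ l : S, l ∉ T → σ' l = σ l := fun l hl => by rw [hσ't l l.2, ht1J l hl]
  have hσ'I : ∀ a : A, ∃ c : κ, a - σ' c ∈ I := by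
    intro a
    refine ⟨IsLocalRing.residue A a, ?_⟩
    rw [← hmemI, map_sub, hσ'res, sub_self]
  let SJ : Set κ := {y | ∃ h : y ∈ S, (⟨y, h⟩ : S) ∉ T}
  let K1 : Subring κ := Subring.closure (Set.range (fun y : κ => y ^ p) ∪
    (fun l : S => (l : κ)) '' (T : Set S))
  have hK1p : ∀ y : κ, y ^ p ∈ K1 := fun y => Subring.subset_closure (Or.inl ⟨y, rfl⟩)
  have hK1T : ∀ l ∈ T, (l : κ) ∈ K1 := fun l hl => Subring.subset_closure (Or.inr ⟨l, hl, rfl⟩)
  let k : Subring A := σ'.range
  let k1 : Subring A := K1.map σ'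
  have hk1R : k1 ≤ R := by
    rw [Subring.map_le_iff_le_comap]
    refine Subring.closure_le.2 ?_
    rintro _ (⟨y, rfl⟩ | ⟨l, hl, rfl⟩)
    · show σ' (y ^ p) ∈ R
      rw [map_pow]; exact hRp _
    · show σ' (l : κ) ∈ R
      rw [hσ'T l hl]; exact hπmem _
  -- the weights of monomials
  have hwt : ∀ (s : {s : S // s ∉ T}) (α : κ →₀ ℕ), α ∈ Mon p SJ →
      E s (σ' (mon α)) = (α (s : κ) : ℤ) • σ' (mon α) := by
    intro s α hα
    refine ders_mon σ' (hEd s) (s : κ) ?_ SJ ?_ α hα.1
    · rw [hσ'J s s.2]; exact hEself s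
    · rintro y ⟨hyS, hyT⟩ hne
      rw [hσ'J ⟨y, hyS⟩ hyT]
      exact hEoff s ⟨⟨y, hyS⟩, hyT⟩ (fun h => hne (by rw [← h]))
  have hmonne : ∀ α : κ →₀ ℕ, α ∈ Mon p SJ → IsUnit (σ' (mon α)) := by
    intro α hα
    refine (IsUnit.mk0 (mon α) ?_).map σ'
    unfold mon
    rw [Finsupp.prod, Finset.prod_ne_zero_iff]
    intro y hy
    obtain ⟨hyS, -⟩ := hα.1 y hy
    exact pow_ne_zero _ (hS.ne_zero ⟨y, hyS⟩)
  -- spanning of κ over K1
  have hadj : Algebra.adjoin K1 SJ = ⊤ := by
    rw [eq_top_iff]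
    rintro y -
    refine hS.induction (P := fun y => y ∈ Algebra.adjoin K1 SJ) ?_ ?_ ?_ ?_ y
    · intro y
      exact Subalgebra.algebraMap_mem _ (⟨y ^ p, hK1p y⟩ : K1)
    · intro s hs
      by_cases h : (⟨s, hs⟩ : S) ∈ T
      · exact Subalgebra.algebraMap_mem _ (⟨s, hK1T _ h⟩ : K1)
      · exact Algebra.subset_adjoin ⟨hs, h⟩
    · intro a b ha hb; exact Subalgebra.add_mem _ ha hb
    · intro a b ha hb; exact Subalgebra.mul_mem _ ha hb
  have hspanκ : ∀ y : κ, ∃ f : Mon p SJ →₀ K1, y = f.sum fun α c => (c : κ) * mon α.1 := by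
    intro y
    have := mem_span_mon (p := p) (K := K1) (L := κ) (fun z => ⟨⟨z ^ p, hK1p z⟩, rfl⟩) hadj y
    rw [Finsupp.mem_span_range_iff_exists_finsupp] at this
    obtain ⟨f, hf⟩ := this
    refine ⟨f, ?_⟩
    rw [← hf]
    rfl
  -- the projection separates the monomials
  have hsep : ∀ α ∈ Mon p SJ, ∀ β ∈ Mon p SJ, α ≠ β →
      π (σ' (mon β) ^ (p - 1) * σ' (mon α)) = 0 := by
    intro α hα β hβ hne
    obtain ⟨y, hy⟩ : ∃ y, α y ≠ β y := by
      by_contra hcon
      push Not at hcon
      exact hne (Finsupp.ext hcon)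
    have hySJ : y ∈ SJ := by
      by_cases h : α y = 0
      · exact hβ.1 y (by rw [Finsupp.mem_support_iff]; intro h'; exact hy (by rw [h, h']))
      · exact hα.1 y (by rw [Finsupp.mem_support_iff]; exact h)
    obtain ⟨hyS, hyT⟩ := hySJ
    let s : {s : S // s ∉ T} := ⟨⟨y, hyS⟩, hyT⟩
    refine hπwt s _ ((((p - 1 : ℕ) : ℤ) * (β y : ℤ)) + (α y : ℤ)) ?_ ?_
    · exact not_dvd_aux hp.out (hα.2 y) (hβ.2 y) hy
    · have hw1 : E s (σ' (mon α)) = (α y : ℤ) • σ' (mon α) := hwt s α hα
      have hw2 : E s (σ' (mon β)) = (β y : ℤ) • σ' (mon β) := hwt s β hβ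
      have hpow : (σ' (mon β)) ^ (p - 1) = (σ' (mon β)) ^ (p - 1 - 1) * σ' (mon β) := by
        rw [← pow_succ]
        congr 1
        have := hp.out.two_le
        omega
      rw [hEd s, hw1, ders_pow (hEd s), hw2]
      simp only [zsmul_eq_mul]
      push_cast
      rw [hpow]
      ring
  have hπone : π 1 = 1 := hπid 1 (fun s => ders_one (hEd s))
  have hindep : ∀ (m : ℕ) (f : Mon p SJ →₀ A), (∀ i, f i ∈ R) →
      (f.sum fun i a => a * σ' (mon i.1)) ∈ I ^ m → ∀ i, f i ∈ I ^ m := by
    intro m f hf hsum β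
    have h1 : (σ' (mon β.1)) ^ (p - 1) * (f.sum fun i a => a * σ' (mon i.1)) ∈ I ^ m :=
      (I ^ m).mul_mem_left _ hsum
    have h2 := hπpow m _ h1
    have h3 : π ((σ' (mon β.1)) ^ (p - 1) * (f.sum fun i a => a * σ' (mon i.1))) =
        f β * (σ' (mon β.1)) ^ p := by
      rw [Finsupp.sum, Finset.mul_sum, map_sum]
      have hterm : ∀ i ∈ f.support, π ((σ' (mon β.1)) ^ (p - 1) * (f i * σ' (mon i.1))) =
          if i = β then f β * (σ' (mon β.1)) ^ p else 0 := by
        intro i _
        have e : (σ' (mon β.1)) ^ (p - 1) * (f i * σ' (mon i.1)) =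
            f i * ((σ' (mon β.1)) ^ (p - 1) * σ' (mon i.1)) := by ring
        rw [e, hπlin (f i) (hf i)]
        split_ifs with h
        · subst h
          rw [← pow_succ, Nat.sub_add_cancel hp.out.one_le, hπid _ (hRp _)]
        · rw [hsep i.1 i.2 β.1 β.2 (fun h' => h (Subtype.ext h')), mul_zero]
      rw [Finset.sum_congr rfl hterm, Finset.sum_ite_eq']
      split_ifs with h
      · rfl
      · rw [Finsupp.notMem_support_iff] at h
        rw [h, zero_mul]
    rw [h3] at h2
    exact (Ideal.mul_unit_mem_iff_mem (I ^ m) ((hmonne β.1 β.2).pow p)).1 h2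
  -- generators of the maximal ideal in `R`
  have hxt : ∀ i, π (x i) - x i ∈ I ^ 2 := fun i => hπclose 2 (x i) fun s => hEx s i
  have hspanx : Ideal.span (Set.range fun i => π (x i)) = I := by
    apply le_antisymm
    · rw [Ideal.span_le]
      rintro _ ⟨i, rfl⟩
      have h1 := Ideal.pow_le_self (by norm_num : (2 : ℕ) ≠ 0) (hxt i)
      have h2 : x i ∈ I := by rw [← hx]; exact Ideal.subset_span ⟨i, rfl⟩
      have : π (x i) = (π (x i) - x i) + x i := by ring
      show π (x i) ∈ I
      rw [this]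
      exact I.add_mem h1 h2
    · refine Submodule.le_of_le_smul_of_le_jacobson_bot (I := I) (IsNoetherian.noetherian I)
        (IsAdicComplete.le_jacobson_bot I) ?_
      have : ∀ a ∈ I, a ∈ Ideal.span (Set.range fun i => π (x i)) ⊔ I • I := by
        intro a ha
        rw [← hx] at ha
        refine Submodule.span_induction (p := fun a _ =>
          a ∈ Ideal.span (Set.range fun i => π (x i)) ⊔ I • I) ?_ ?_ ?_ ?_ ha
        · rintro _ ⟨i, rfl⟩
          have : x i = π (x i) + (-(π (x i) - x i)) := by ring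
          rw [this]
          refine Submodule.add_mem_sup (Ideal.subset_span ⟨i, rfl⟩) ?_
          rw [smul_eq_mul, ← pow_two]
          exact (I ^ 2).neg_mem (hxt i)
        · exact Submodule.zero_mem _
        · intro a b _ _ ha hb; exact Submodule.add_mem _ ha hb
        · intro c a _ ha; exact Submodule.smul_mem _ c ha
      exact this
  let Jd : Ideal R := I.comap R.subtype
  have hmapJ : Jd.map R.subtype = I := by
    apply le_antisymm
    · rw [Ideal.map_le_iff_le_comap]
    · rw [← hspanx, Ideal.span_le]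
      rintro _ ⟨i, rfl⟩
      have : (⟨π (x i), hπmem _⟩ : R) ∈ Jd := by
        show π (x i) ∈ I
        rw [← hspanx]; exact Ideal.subset_span ⟨i, rfl⟩
      exact Ideal.mem_map_of_mem R.subtype this
  -- contraction of ideals extended from `R`
  have hcontr : ∀ (L : Ideal R) (r : R), (r : A) ∈ L.map R.subtype → r ∈ L := by
    intro L r hr
    have key : ∀ z ∈ L.map R.subtype, ∀ a, ∃ y ∈ L, (y : A) = π (a * z) := by
      intro z hz
      refine Submodule.span_induction (p := fun z _ => ∀ a, ∃ y ∈ L, (y : A) = π (a * z))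
        ?_ ?_ ?_ ?_ hz
      · rintro _ ⟨y, hy, rfl⟩ a
        refine ⟨⟨π a, hπmem a⟩ * y, L.mul_mem_left _ hy, ?_⟩
        have e := hπlin (y : A) y.2 a
        show π a * (y : A) = π (a * (y : A))
        rw [mul_comm a, e, mul_comm]
      · intro a; exact ⟨0, L.zero_mem, by simp⟩
      · intro u v _ _ hu hv a
        obtain ⟨y, hy, e1⟩ := hu a
        obtain ⟨y', hy', e2⟩ := hv a
        refine ⟨y + y', L.add_mem hy hy', ?_⟩
        rw [mul_add, map_add, ← e1, ← e2]; rfl
      · intro c u _ hu a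
        obtain ⟨y, hy, e1⟩ := hu (a * c)
        exact ⟨y, hy, by rw [e1, smul_eq_mul, mul_assoc]⟩
    obtain ⟨y, hy, e⟩ := key _ hr 1
    rw [one_mul, hπid _ r.2] at e
    have : y = r := Subtype.ext e
    rw [← this]; exact hy
  have hfilt : ∀ (m : ℕ) (r : R), (r : A) ∈ I ^ m → r ∈ Jd ^ m := by
    intro m r hr
    apply hcontr
    rw [Ideal.map_pow, hmapJ]
    exact hr
  -- density and finiteness
  let FA : A →+* R := frobTo p R hRp
  have hFA : ∀ a, (FA a : A) = a ^ p := fun a => rfl
  let xt : Fin n → R := fun i => ⟨π (x i), hπmem _⟩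
  have hxtJ : ∀ i, xt i ∈ Jd := by
    intro i
    show π (x i) ∈ I
    rw [← hspanx]; exact Ideal.subset_span ⟨i, rfl⟩
  have hJspan : Ideal.span (Set.range xt) = Jd := by
    apply le_antisymm
    · rw [Ideal.span_le]
      rintro _ ⟨i, rfl⟩
      exact hxtJ i
    · intro r hr
      apply hcontr
      have h1 : (Ideal.span (Set.range xt)).map R.subtype = I := by
        rw [Ideal.map_span, ← hspanx]
        congr 1
        ext a
        constructor
        · rintro ⟨_, ⟨i, rfl⟩, rfl⟩
          exact ⟨i, rfl⟩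
        · rintro ⟨i, rfl⟩
          exact ⟨_, ⟨i, rfl⟩, rfl⟩
      rw [h1]
      exact hr
  let tt : S → R := fun l => ⟨π (σ l), hπmem _⟩
  let G : Set R := tt '' (T : Set S) ∪ Set.range xt
  have hGfin : G.Finite := (T.finite_toSet.image _).union (Set.finite_range xt)
  let Q : Subring R := Subring.closure (Set.range FA ∪ G)
  have hK1Q : ∀ y ∈ K1, ∃ q ∈ Q, (q : A) = σ' y := by
    intro y hy
    refine Subring.closure_induction (p := fun y _ => ∃ q ∈ Q, (q : A) = σ' y)
      ?_ ?_ ?_ ?_ ?_ ?_ hy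
    · rintro _ (⟨z, rfl⟩ | ⟨l, hl, rfl⟩)
      · refine ⟨FA (σ' z), Subring.subset_closure (Or.inl ⟨_, rfl⟩), ?_⟩
        rw [hFA]
        exact (map_pow σ' z p).symm
      · exact ⟨tt l, Subring.subset_closure (Or.inr (Or.inl ⟨l, hl, rfl⟩)), (hσ'T l hl).symm⟩
    · exact ⟨0, Q.zero_mem, by simp⟩
    · exact ⟨1, Q.one_mem, by simp⟩
    · rintro u v _ _ ⟨q, hq, e⟩ ⟨q', hq', e'⟩
      exact ⟨q + q', Q.add_mem hq hq', by rw [map_add, ← e, ← e']; rfl⟩
    · rintro u _ ⟨q, hq, e⟩
      exact ⟨-q, Q.neg_mem hq, by rw [map_neg, ← e]; rfl⟩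
    · rintro u v _ _ ⟨q, hq, e⟩ ⟨q', hq', e'⟩
      exact ⟨q * q', Q.mul_mem hq hq', by rw [map_mul, ← e, ← e']; rfl⟩
  have h0Mon : (0 : κ →₀ ℕ) ∈ Mon p SJ := ⟨by simp, fun s => by simpa using hp.out.pos⟩
  have hmon0 : mon (0 : κ →₀ ℕ) = 1 := by simp [mon]
  have hmodJ : ∀ r : R, ∃ q ∈ Q, r - q ∈ Jd := by
    intro r
    obtain ⟨c, hc⟩ := hσ'I (r : A)
    obtain ⟨f, hf⟩ := hspanκ c
    have h1 : π (σ' c) = σ' (f ⟨0, h0Mon⟩ : κ) := by
      rw [hf, Finsupp.sum, map_sum, map_sum]
      have hterm : ∀ α ∈ f.support, π (σ' ((f α : κ) * mon α.1)) =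
          if α = ⟨0, h0Mon⟩ then σ' (f ⟨0, h0Mon⟩ : κ) else 0 := by
        intro α _
        rw [map_mul, hπlin (σ' (f α : κ)) (hk1R ⟨_, (f α).2, rfl⟩)]
        split_ifs with h
        · rw [h, hmon0, map_one, hπone, mul_one]
        · have := hsep α.1 α.2 0 h0Mon (fun h' => h (Subtype.ext h'))
          rw [hmon0, map_one, one_pow, one_mul] at this
          rw [this, mul_zero]
      rw [Finset.sum_congr rfl hterm, Finset.sum_ite_eq']
      split_ifs with h
      · rfl
      · rw [Finsupp.notMem_support_iff] at h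
        rw [h]; simp
    obtain ⟨q, hq, e⟩ := hK1Q _ (f ⟨0, h0Mon⟩).2
    refine ⟨q, hq, ?_⟩
    show ((r - q : R) : A) ∈ I
    have h2 := hπpow 1 ((r : A) - σ' c) (by rw [pow_one]; exact hc)
    rw [map_sub, hπid _ r.2, h1, pow_one, ← e] at h2
    exact h2
  have hQdense : ∀ m (r : R), ∃ q ∈ Q, r - q ∈ Jd ^ m :=
    dense_of_mod Jd Q hmodJ xt hJspan
      (fun i => Subring.subset_closure (Or.inr (Or.inr ⟨i, rfl⟩)))
  have hpowle : ∃ e, Jd ^ e ≤ I.map FA := by
    apply Ideal.exists_pow_le_of_le_radical_of_fg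
    · rw [← hJspan, Ideal.span_le]
      rintro _ ⟨i, rfl⟩
      refine ⟨p, ?_⟩
      have : xt i ^ p = FA (xt i : A) := Subtype.ext rfl
      rw [this]
      exact Ideal.mem_map_of_mem FA (hxtJ i)
    · rw [← hJspan]
      exact Submodule.fg_span (Set.finite_range xt)
  have hFAI : ∀ m, ∀ r ∈ (I ^ m).map FA, (r : A) ∈ I ^ m := by
    intro m r hr
    have : (I ^ m).map FA ≤ (I ^ m).comap R.subtype := by
      rw [Ideal.map_le_iff_le_comap]
      intro a ha
      show a ^ p ∈ I ^ m
      exact Ideal.pow_mem_of_mem _ ha p hp.out.pos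
    exact this hr
  have hfinite : FA.Finite := by
    letI : Algebra A R := FA.toAlgebra
    have halgmap : ∀ a, algebraMap A R a = FA a := fun a => rfl
    haveI : IsHausdorff I R := ⟨by
      intro r hr
      apply Subtype.ext
      apply eq_zero_of_forall_mem I
      intro m
      have h1 := hr m
      rw [SModEq.zero] at h1
      apply hFAI m
      rw [Ideal.smul_top_eq_map] at h1
      exact h1⟩
    obtain ⟨e, he⟩ := hpowle
    have hint : ∀ r : R, IsIntegral A r := by
      intro r
      refine ⟨Polynomial.X ^ p - Polynomial.C (r : A),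
        Polynomial.monic_X_pow_sub_C _ hp.out.ne_zero, ?_⟩
      simp only [Polynomial.eval₂_sub, Polynomial.eval₂_X_pow, Polynomial.eval₂_C]
      rw [halgmap, sub_eq_zero]
      exact Subtype.ext rfl
    have hN : (Subalgebra.toSubmodule (Algebra.adjoin A G)).FG :=
      fg_adjoin_of_finite hGfin fun y _ => hint y
    have htop := top_le_of_complete I (Subalgebra.toSubmodule (Algebra.adjoin A G)) hN (by
      rintro r -
      obtain ⟨q, hq, hrq⟩ := hQdense e r
      have hq' : q ∈ Subalgebra.toSubmodule (Algebra.adjoin A G) := by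
        have hle : Q ≤ (Algebra.adjoin A G).toSubring := by
          refine Subring.closure_le.2 ?_
          rintro y (⟨a, rfl⟩ | hy)
          · exact (Algebra.adjoin A G).algebraMap_mem a
          · exact Algebra.subset_adjoin hy
        exact hle hq
      have hr : r = q + (r - q) := by ring
      rw [hr]
      refine Submodule.add_mem_sup hq' ?_
      rw [Ideal.smul_top_eq_map]
      exact he hrq)
    have : Module.Finite A R := ⟨by rw [← htop]; exact hN⟩
    exact this
  refine ⟨{ k := k, k1 := k1, R := R, k1_le_k := ?_, k1_le_R := hk1R, pow_k := ?_, pow_R := hRp,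
            bij := ?_, ι := Mon p SJ, τ := fun α => σ' (mon α.1), τ_mem := ?_, span := ?_,
            indep := hindep, filt := hfilt, dense := ?_, fin := hfinite, pow_le := hpowle }⟩
  · rintro _ ⟨y, -, rfl⟩
    exact ⟨y, rfl⟩
  · rintro _ ⟨y, rfl⟩
    exact ⟨y ^ p, hK1p y, map_pow σ' y p⟩
  · constructor
    · rintro ⟨_, ⟨y, rfl⟩⟩ ⟨_, ⟨z, rfl⟩⟩ h
      have h' : IsLocalRing.residue A (σ' y) = IsLocalRing.residue A (σ' z) := h
      rw [hσ'res, hσ'res] at h'
      subst h'
      rfl
    · intro y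
      exact ⟨⟨σ' y, y, rfl⟩, hσ'res y⟩
  · intro α
    exact ⟨_, rfl⟩
  · rintro _ ⟨y, rfl⟩
    obtain ⟨f, hf⟩ := hspanκ y
    refine ⟨f.mapRange (fun c : K1 => σ' (c : κ)) (by simp), ?_, ?_⟩
    · intro i
      rw [Finsupp.mapRange_apply]
      exact ⟨_, (f i).2, rfl⟩
    · rw [Finsupp.sum_mapRange_index (fun _ => by simp)]
      conv_lhs => rw [hf]
      rw [Finsupp.sum, Finsupp.sum, map_sum]
      exact Finset.sum_congr rfl fun α _ => map_mul σ' _ _
  · exact dense_of_mod I (Subring.closure ((k : Set A) ∪ R))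
      (fun a => by
        obtain ⟨c, hc⟩ := hσ'I a
        exact ⟨σ' c, Subring.subset_closure (Or.inl ⟨c, rfl⟩), hc⟩)
      (fun i => π (x i)) hspanx
      (fun i => Subring.subset_closure (Or.inr (hπmem _)))

end

end Pool.Agent.FrobDecomp
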