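import Mathlib

/-!
Definitions used in the statement about decompleting the Frobenius.
-/

namespace Pool.Agent.FrobDecomp

open scoped TensorProduct

universe u

/-- A coefficient field of a local ring `A`: a subring which the residue map sends isomorphically
onto the residue field of `A`. -/
def IsCoefficientField {A : Type u} [CommRing A] [IsLocalRing A] (k : Subring A) : Prop :=
  Function.Bijective ((IsLocalRing.residue A).comp k.subtype)

/-- The perfect closure `k^{1/p^∞}` as a `k`-algebra through the canonical map. -/
noncomputable instance instAlgebraPerfectClosure (p : ℕ) [Fact p.Prime] {A : Type u} [CommRing A]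
    [CharP A p] (k : Subring A) : Algebra k (PerfectClosure k p) :=
  (PerfectClosure.of k p).toAlgebra

/-- The ring `A' = k^{1/p^∞} ⊗_k A`. -/
abbrev PerfTensor (p : ℕ) [Fact p.Prime] {A : Type u} [CommRing A] [CharP A p] (k : Subring A) :
    Type u :=
  PerfectClosure k p ⊗[k] A

section

variable {A B : Type*} [CommRing A] [CommRing B]

theorem evalₐ_of_le (I : Ideal A) {m n : ℕ} (hmn : m ≤ n) (x : AdicCompletion I A) (a : A)
    (ha : AdicCompletion.evalₐ I n x = Ideal.Quotient.mk _ a) :
    AdicCompletion.evalₐ I m x = Ideal.Quotient.mk _ a := by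
  induction x using AdicCompletion.induction_on with
  | _ x =>
    rw [AdicCompletion.evalₐ_mk] at ha ⊢
    rw [← AdicCompletion.Ideal.mk_eq_mk I hmn, Ideal.Quotient.eq]
    rw [Ideal.Quotient.eq] at ha
    exact Ideal.pow_le_pow_right hmn ha

theorem pow_le_comap_pow {I : Ideal A} {J : Ideal B} {f : A →+* B} (h : I ≤ J.comap f) (n : ℕ) :
    I ^ n ≤ (J ^ n).comap f := by
  rw [← Ideal.map_le_iff_le_comap, Ideal.map_pow]
  exact Ideal.pow_right_mono (Ideal.map_le_iff_le_comap.2 h) n

theorem mapCompl_compat (I : Ideal A) (J : Ideal B) (f : A →+* B) (h : I ≤ J.comap f)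
    {m n : ℕ} (hmn : m ≤ n) :
    (Ideal.Quotient.factorPow J hmn).comp
      ((Ideal.quotientMap (J ^ n) f (pow_le_comap_pow h n)).comp
        (AdicCompletion.evalₐ I n : AdicCompletion I A →+* A ⧸ I ^ n)) =
      (Ideal.quotientMap (J ^ m) f (pow_le_comap_pow h m)).comp
        (AdicCompletion.evalₐ I m : AdicCompletion I A →+* A ⧸ I ^ m) := by
  ext x
  obtain ⟨a, ha⟩ := Ideal.Quotient.mk_surjective (AdicCompletion.evalₐ I n x)
  have h2 := evalₐ_of_le I hmn x a ha.symm
  simp only [RingHom.comp_apply, RingHom.coe_coe]
  rw [← ha, h2]
  rfl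

/-- The continuous extension of a ring homomorphism `f : A → B` with `f(I) ⊆ J` to a ring
homomorphism from the `I`-adic completion of `A` to the `J`-adic completion of `B`. Its `n`-th
component is the map `A / I ^ n → B / J ^ n` induced by `f`. -/
noncomputable def mapCompl (I : Ideal A) (J : Ideal B) (f : A →+* B) (h : I ≤ J.comap f) :
    AdicCompletion I A →+* AdicCompletion J B :=
  AdicCompletion.liftRingHom J
    (fun n => (Ideal.quotientMap (J ^ n) f (pow_le_comap_pow h n)).comp
      (AdicCompletion.evalₐ I n : AdicCompletion I A →+* A ⧸ I ^ n))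
    (mapCompl_compat I J f h)

end

/-- The ring homomorphism from the `I`-adic completion of `A` to the `IB`-adic completion of an
`A`-algebra `B` induced by `A → B`. -/
noncomputable def completionMap {A : Type*} [CommRing A] (I : Ideal A) (B : Type*) [CommRing B]
    [Algebra A B] : AdicCompletion I A →+* AdicCompletion (I.map (algebraMap A B)) B :=
  mapCompl I (I.map (algebraMap A B)) (algebraMap A B) Ideal.le_comap_map

section

variable (p : ℕ) (A' : Type u) [CommRing A'] [IsLocalRing A']

/-- The map from the completion of the local ring `A'` to the completion of the `A'`-algebra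
`A''` (at the maximal ideal of `A'`) is isomorphic to the `p`-th power map of the completion of
`A'`. -/
def CompletesToFrobenius (A'' : Type u) [CommRing A''] [Algebra A' A''] : Prop :=
  ∃ φ : AdicCompletion ((IsLocalRing.maximalIdeal A').map (algebraMap A' A'')) A'' ≃+*
      AdicCompletion (IsLocalRing.maximalIdeal A') A',
    ∀ x, φ (completionMap (IsLocalRing.maximalIdeal A') A'' x) = x ^ p

/-- The base change of the `A'`-algebra `A''` to the completion of the local ring `A'` is
isomorphic to the `p`-th power map of the completion of `A'`. -/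
def BaseChangesToFrobenius (A'' : Type u) [CommRing A''] [Algebra A' A''] : Prop :=
  ∃ φ : A'' ⊗[A'] AdicCompletion (IsLocalRing.maximalIdeal A') A' ≃+*
      AdicCompletion (IsLocalRing.maximalIdeal A') A',
    ∀ x, φ (1 ⊗ₜ x) = x ^ p

/-- There is a finite `A'`-algebra `A''` such that the map from the completion of `A'` to the
completion of `A''` is isomorphic to the `p`-th power map of the completion of `A'`. -/
def FrobeniusDecompletes : Prop :=
  ∃ (A'' : Type u) (_ : CommRing A'') (_ : Algebra A' A''),
    Module.Finite A' A'' ∧ CompletesToFrobenius p A' A'' ∧ BaseChangesToFrobenius p A' A''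

end

end Pool.Agent.FrobDecomp
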