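import Pool.Agent.FrobDecomp.Completion

namespace Pool.Agent.FrobDecomp

set_option linter.unusedSectionVars false
set_option linter.style.haveILetI false

open scoped TensorProduct

section

theorem exists_tensor_lift {k K A C : Type*} [CommRing k] [CommRing K] [CommRing A] [CommRing C]
    [Algebra k K] [Algebra k A] (u : K →+* C) (v : A →+* C)
    (h : u.comp (algebraMap k K) = v.comp (algebraMap k A)) :
    ∃ w : K ⊗[k] A →+* C, ∀ c a, w (c ⊗ₜ a) = u c * v a := by
  letI : Algebra k C := (u.comp (algebraMap k K)).toAlgebra
  let u' : K →ₐ[k] C := AlgHom.mk u (fun _ => rfl)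
  let v' : A →ₐ[k] C := AlgHom.mk v (fun c => (congrArg (fun f : k →+* C => f c) h).symm)
  refine ⟨(Algebra.TensorProduct.productMap u' v').toRingHom, fun c a => ?_⟩
  exact Algebra.TensorProduct.productMap_apply_tmul u' v' c a

end

section

universe u

variable {R B : Type u} [CommRing R] [CommRing B] [Algebra R B] (I : Ideal R)

theorem mem_smul_top_iff (n : ℕ) (c : B) :
    c ∈ (I ^ n • ⊤ : Submodule R B) ↔ c ∈ (I.map (algebraMap R B)) ^ n := by
  rw [Ideal.smul_top_eq_map, Ideal.map_pow]
  rfl

/-- Comparison of the two quotients. -/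
noncomputable def quotComp (n : ℕ) :
    (B ⧸ (I ^ n • ⊤ : Submodule R B)) →ₗ[R] B ⧸ (I.map (algebraMap R B)) ^ n :=
  Submodule.liftQ _ ((Ideal.Quotient.mkₐ R ((I.map (algebraMap R B)) ^ n)).toLinearMap) (by
    intro c hc
    rw [LinearMap.mem_ker]
    exact Ideal.Quotient.eq_zero_iff_mem.2 ((mem_smul_top_iff I n c).1 hc))

theorem quotComp_mk (n : ℕ) (c : B) :
    quotComp I n (Submodule.Quotient.mk c) = Ideal.Quotient.mk _ c := rfl

theorem quotComp_injective (n : ℕ) : Function.Injective (quotComp (B := B) I n) := by
  rw [← LinearMap.ker_eq_bot]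
  apply Submodule.ker_liftQ_eq_bot
  intro c hc
  rw [LinearMap.mem_ker] at hc
  exact (mem_smul_top_iff I n c).2 (Ideal.Quotient.eq_zero_iff_mem.1 hc)

theorem exists_tensor_compl [IsNoetherianRing R] [Module.Finite R B] :
    ∃ Θ : B ⊗[R] AdicCompletion I R ≃+* AdicCompletion (I.map (algebraMap R B)) B,
      ∀ x, Θ (1 ⊗ₜ x) =
        mapCompl I (I.map (algebraMap R B)) (algebraMap R B) Ideal.le_comap_map x := by
  classical
  obtain ⟨Θ, hΘ⟩ := exists_tensor_lift (k := R)
    (algebraMap B (AdicCompletion (I.map (algebraMap R B)) B))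
    (mapCompl I (I.map (algebraMap R B)) (algebraMap R B) Ideal.le_comap_map) (by
      ext r
      rw [RingHom.comp_apply, RingHom.comp_apply, mapCompl_of])
  have key : ∀ n (t : AdicCompletion I R ⊗[R] B),
      quotComp I n (AdicCompletion.eval I B n (AdicCompletion.ofTensorProduct I B t)) =
        AdicCompletion.evalₐ _ n (Θ (TensorProduct.comm R _ _ t)) := by
    intro n t
    induction t with
    | zero => simp
    | add s t hs ht => simp only [map_add, hs, ht]
    | tmul x b =>
      induction x using AdicCompletion.induction_on with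
      | _ a =>
        rw [AdicCompletion.ofTensorProduct_tmul, TensorProduct.comm_tmul, hΘ, map_mul]
        rw [evalₐ_mapCompl (AdicCompletion.evalₐ_mk I n a), AdicCompletion.algebraMap_apply]
        have h1 : AdicCompletion.evalₐ (I.map (algebraMap R B)) n
            (AdicCompletion.of (I.map (algebraMap R B)) B (algebraMap B B b)) =
            Ideal.Quotient.mk _ b := AdicCompletion.evalₐ_of _ n b
        rw [h1, ← map_mul, mul_comm, ← Algebra.smul_def]
        rfl
  have hbij := AdicCompletion.ofTensorProduct_bijective_of_finite_of_isNoetherian I B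
  have hinj : Function.Injective Θ := by
    rw [injective_iff_map_eq_zero]
    intro t ht
    obtain ⟨t, rfl⟩ := (TensorProduct.comm R (AdicCompletion I R) B).surjective t
    have h1 : AdicCompletion.ofTensorProduct I B t = 0 := by
      ext n
      apply quotComp_injective I n
      have := key n t
      rw [ht, map_zero] at this
      rw [AdicCompletion.eval_apply] at this
      rw [this]
      simp
    have h2 : t = 0 := hbij.1 (by rw [h1, map_zero])
    rw [h2, map_zero]
  have hsurj : Function.Surjective Θ := by
    intro y
    induction y using AdicCompletion.induction_on with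
    | _ b =>
      let b' : AdicCompletion.AdicCauchySequence I B :=
        AdicCompletion.AdicCauchySequence.mk I B (fun n => b n) (fun n => by
          rw [SModEq.sub_mem, mem_smul_top_iff]
          have := b.2 (Nat.le_succ n)
          rw [SModEq.sub_mem] at this
          simpa using this)
      obtain ⟨t, ht⟩ := hbij.2 (AdicCompletion.mk I B b')
      refine ⟨TensorProduct.comm R _ _ t, AdicCompletion.ext_evalₐ fun n => ?_⟩
      rw [← key, ht]
      have h1 : AdicCompletion.evalₐ (I.map (algebraMap R B)) n
        (AdicCompletion.mk (I.map (algebraMap R B)) B b) = Ideal.Quotient.mk _ (b n) :=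
          AdicCompletion.evalₐ_mk _ n b
      rw [h1]
      rfl
  refine ⟨RingEquiv.ofBijective Θ ⟨hinj, hsurj⟩, fun x => ?_⟩
  rw [RingEquiv.ofBijective_apply, hΘ, map_one, one_mul]

end

end Pool.Agent.FrobDecomp
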