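import Pool.Agent.FrobDecomp.Data
import Pool.Agent.FrobDecomp.Completion
import Pool.Agent.FrobDecomp.TensorCompl
import Pool.Agent.FrobDecomp.BaseChange

namespace Pool.Agent.FrobDecomp

set_option linter.unusedSectionVars false
set_option linter.style.haveILetI false

open scoped TensorProduct

section

universe u

variable {p : ℕ} [hp : Fact p.Prime] {A : Type u} [CommRing A] [IsLocalRing A] [CharP A p]

/-- `R` as a `k1`-algebra. -/
abbrev GoodData.algR (D : GoodData p A) : Algebra D.k1 D.R :=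
  (Subring.inclusion D.k1_le_R).toAlgebra

/-- `k` as a `k1`-algebra. -/
abbrev GoodData.algk (D : GoodData p A) : Algebra D.k1 D.k :=
  (Subring.inclusion D.k1_le_k).toAlgebra

/-- `K` as a `k1`-algebra. -/
abbrev GoodData.algK (D : GoodData p A) (K : Type*) [CommRing K] [Algebra D.k K] :
    Algebra D.k1 K :=
  ((algebraMap D.k K).comp (Subring.inclusion D.k1_le_k)).toAlgebra

/-- The `p`-th power map `k → k1`. -/
noncomputable def GoodData.powk (D : GoodData p A) : D.k →+* D.k1 :=
  ((frobenius A p).comp D.k.subtype).codRestrict D.k1 (fun c => D.pow_k c c.2)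

attribute [local instance] GoodData.algR GoodData.algk

attribute [local instance 50] GoodData.algK

variable (D : GoodData p A) (K : Type u) [CommRing K] [CharP K p] [Algebra D.k K]

/-- The relative Frobenius `K ⊗[k] A → K ⊗[k1] R`. -/
noncomputable def GoodData.frobMap : K ⊗[D.k] A →+* K ⊗[D.k1] D.R :=
  Algebra.TensorProduct.mapRingHom D.powk (frobenius K p) (frobTo p D.R D.pow_R)
    (by
      ext c
      simp only [RingHom.comp_apply]
      rw [frobenius_def, ← map_pow]
      change algebraMap D.k K (c ^ p) = algebraMap D.k K _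
      congr 1)
    (by
      ext c
      rfl)

theorem GoodData.frobMap_tmul (c : K) (a : A) :
    D.frobMap K (c ⊗ₜ a) = (c ^ p) ⊗ₜ (frobTo p D.R D.pow_R a) := by
  unfold GoodData.frobMap
  rw [Algebra.TensorProduct.mapRingHom_tmul, frobenius_def]

/-- The map `K ⊗[k1] R → K ⊗[k] A` induced by the inclusions. -/
noncomputable def GoodData.inclMap : K ⊗[D.k1] D.R →+* K ⊗[D.k] A :=
  Algebra.TensorProduct.mapRingHom (Subring.inclusion D.k1_le_k) (RingHom.id K) D.R.subtype
    rfl rfl

theorem GoodData.inclMap_tmul (c : K) (a : D.R) :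
    D.inclMap K (c ⊗ₜ a) = c ⊗ₜ (a : A) := by
  unfold GoodData.inclMap
  rw [Algebra.TensorProduct.mapRingHom_tmul]
  rfl

theorem GoodData.inclMap_frobMap (z : K ⊗[D.k] A) : D.inclMap K (D.frobMap K z) = z ^ p := by
  haveI := charP_tensor (p := p) D.bij K
  induction z with
  | zero => simp [zero_pow hp.out.ne_zero]
  | add z w hz hw => rw [map_add, map_add, hz, hw, add_pow_char]
  | tmul c a =>
    rw [D.frobMap_tmul, D.inclMap_tmul, Algebra.TensorProduct.tmul_pow, coe_frobTo]

/-- Every tensor is a combination of the `τ i`. -/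
theorem GoodData.exists_expansion (t : D.k ⊗[D.k1] D.R) :
    ∃ f : D.ι →₀ D.R, t = f.sum fun i r => (⟨D.τ i, D.τ_mem i⟩ : D.k) ⊗ₜ r := by
  classical
  induction t with
  | zero => exact ⟨0, by simp⟩
  | add s t hs ht =>
    obtain ⟨f, rfl⟩ := hs
    obtain ⟨g, rfl⟩ := ht
    refine ⟨f + g, ?_⟩
    rw [Finsupp.sum_add_index']
    · intro i; exact TensorProduct.tmul_zero _ _
    · intro i a b; exact TensorProduct.tmul_add _ _ _
  | tmul c r =>
    obtain ⟨f, hf, hc⟩ := D.span c c.2
    let g : D.ι →₀ D.k1 := Finsupp.onFinset f.support (fun i => ⟨f i, hf i⟩) (by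
      intro i hi
      rw [Finsupp.mem_support_iff]
      intro h
      apply hi
      exact Subtype.ext h)
    have hg : ∀ i, (g i : A) = f i := fun i => rfl
    have hsub : g.support ⊆ f.support := Finsupp.support_onFinset_subset
    have hc' : c = g.sum fun i a => a • (⟨D.τ i, D.τ_mem i⟩ : D.k) := by
      apply Subtype.ext
      rw [hc, Finsupp.sum, Finsupp.sum]
      rw [AddSubmonoidClass.coe_finsetSum]
      rw [← Finset.sum_subset hsub]
      · rfl
      · intro i _ hi
        rw [Finsupp.notMem_support_iff] at hi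
        rw [← hg, hi]
        simp
    refine ⟨g.mapRange (fun a => algebraMap D.k1 D.R a * r) (by simp), ?_⟩
    rw [Finsupp.sum_mapRange_index (fun i => TensorProduct.tmul_zero _ _)]
    conv_lhs => rw [hc']
    rw [Finsupp.sum, TensorProduct.sum_tmul, Finsupp.sum]
    refine Finset.sum_congr rfl fun i _ => ?_
    rw [TensorProduct.smul_tmul, Algebra.smul_def]

/-- The ideal `J = 𝔪 ∩ R` of `R`. -/
abbrev GoodData.J (D : GoodData p A) : Ideal D.R :=
  (IsLocalRing.maximalIdeal A).comap D.R.subtype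

/-- The extension of `J` to `K ⊗ R`. -/
noncomputable abbrev GoodData.extJ : Ideal (K ⊗[D.k1] D.R) :=
  D.J.map (Algebra.TensorProduct.includeRight : D.R →ₐ[D.k1] K ⊗[D.k1] D.R)

theorem GoodData.mem_of_inclMap_mem (n : ℕ) (y : K ⊗[D.k1] D.R)
    (hy : D.inclMap K y ∈ (extIdeal K (IsLocalRing.maximalIdeal A) (k := D.k)) ^ n) :
    y ∈ (D.extJ K) ^ n := by
  classical
  -- multiplication `k ⊗ R → A`
  obtain ⟨μ, hμ⟩ := exists_tensor_lift (k := D.k1) D.k.subtype D.R.subtype rfl
  let Q := (K ⊗[D.k1] D.R) ⧸ (D.extJ K) ^ n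
  let q : D.k ⊗[D.k1] D.R →+* Q := (Ideal.Quotient.mk _).comp
    (Algebra.TensorProduct.mapRingHom (RingHom.id D.k1) (algebraMap D.k K) (RingHom.id D.R)
      rfl rfl)
  have hq : ∀ (c : D.k) (r : D.R),
      q (c ⊗ₜ r) = Ideal.Quotient.mk _ (algebraMap D.k K c ⊗ₜ[D.k1] r) := by
    intro c r
    simp only [q, RingHom.comp_apply, Algebra.TensorProduct.mapRingHom_tmul]
    rfl
  let f : D.k ⊗[D.k1] D.R →+* A ⧸ (IsLocalRing.maximalIdeal A) ^ n :=
    (Ideal.Quotient.mk _).comp μ
  have hrange : Subring.closure ((D.k : Set A) ∪ D.R) ≤ μ.range := by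
    rw [Subring.closure_le]
    rintro a (ha | ha)
    · exact ⟨(⟨a, ha⟩ : D.k) ⊗ₜ 1, by rw [hμ]; simp⟩
    · exact ⟨(1 : D.k) ⊗ₜ (⟨a, ha⟩ : D.R), by rw [hμ]; simp⟩
  have hf : Function.Surjective f := by
    intro x
    obtain ⟨a, rfl⟩ := Ideal.Quotient.mk_surjective x
    obtain ⟨b, hb, hab⟩ := D.dense n a
    obtain ⟨t, rfl⟩ := hrange hb
    refine ⟨t, ?_⟩
    simp only [f, RingHom.comp_apply]
    rw [eq_comm, Ideal.Quotient.eq]
    exact hab
  have hle : RingHom.ker f ≤ RingHom.ker q := by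
    intro t ht
    obtain ⟨g, rfl⟩ := D.exists_expansion t
    rw [RingHom.mem_ker] at ht
    simp only [f, RingHom.comp_apply] at ht
    rw [Ideal.Quotient.eq_zero_iff_mem] at ht
    rw [Finsupp.sum, map_sum] at ht
    have h1 : ∀ i, (g i : A) ∈ (IsLocalRing.maximalIdeal A) ^ n := by
      have := D.indep n (g.mapRange (fun r : D.R => (r : A)) rfl) (fun i => by simp) (by
        rw [Finsupp.sum_mapRange_index (fun i => by simp), Finsupp.sum]
        convert ht using 1
        refine Finset.sum_congr rfl fun i _ => ?_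
        rw [hμ]
        simp [mul_comm])
      simpa using this
    rw [RingHom.mem_ker, Finsupp.sum, map_sum]
    refine Finset.sum_eq_zero fun i _ => ?_
    rw [hq, Ideal.Quotient.eq_zero_iff_mem]
    have h2 : (algebraMap D.k K (⟨D.τ i, D.τ_mem i⟩ : D.k) ⊗ₜ[D.k1] (g i) : K ⊗[D.k1] D.R) =
        (algebraMap D.k K (⟨D.τ i, D.τ_mem i⟩ : D.k) ⊗ₜ[D.k1] (1 : D.R)) *
        (Algebra.TensorProduct.includeRight : D.R →ₐ[D.k1] K ⊗[D.k1] D.R) (g i) := by
      simp
    rw [h2, ← Ideal.map_pow]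
    exact Ideal.mul_mem_left _ _ (Ideal.mem_map_of_mem _ (D.filt n (g i) (h1 i)))
  let g : A ⧸ (IsLocalRing.maximalIdeal A) ^ n →+* Q := RingHom.liftOfSurjective f hf ⟨q, hle⟩
  have hg : ∀ t, g (f t) = q t := fun t => RingHom.liftOfSurjective_comp_apply f hf ⟨q, hle⟩ t
  let v : A →+* Q := g.comp (Ideal.Quotient.mk _)
  have hv : ∀ t, v (μ t) = q t := fun t => hg t
  let u : K →+* Q := (Ideal.Quotient.mk _).comp
    (Algebra.TensorProduct.includeLeftRingHom : K →+* K ⊗[D.k1] D.R)
  obtain ⟨w, hw⟩ := exists_tensor_lift (k := D.k) u v (by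
    ext c
    have h1 : ((c : D.k) : A) = μ (c ⊗ₜ 1) := by rw [hμ]; simp
    simp only [RingHom.comp_apply]
    change u (algebraMap D.k K c) = v (c : A)
    rw [h1, hv, hq]
    rfl)
  have hwψ : ∀ y, w (D.inclMap K y) = Ideal.Quotient.mk _ y := by
    intro y
    induction y with
    | zero => simp
    | add y z hy hz => rw [map_add, map_add, hy, hz, map_add]
    | tmul c r =>
      rw [D.inclMap_tmul, hw]
      have h1 : (r : A) = μ (1 ⊗ₜ r) := by rw [hμ]; simp
      rw [h1, hv, hq]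
      change Ideal.Quotient.mk _ (c ⊗ₜ[D.k1] (1 : D.R)) * _ = _
      rw [← map_mul, map_one, Algebra.TensorProduct.tmul_mul_tmul, mul_one, one_mul]
  rw [← Ideal.Quotient.eq_zero_iff_mem, ← hwψ]
  have hker : (extIdeal K (IsLocalRing.maximalIdeal A) (k := D.k)) ^ n ≤ RingHom.ker w := by
    rw [extIdeal, ← Ideal.map_pow, Ideal.map_le_iff_le_comap]
    intro a ha
    rw [Ideal.mem_comap, RingHom.mem_ker, Algebra.TensorProduct.includeRight_apply, hw]
    have : v a = 0 := by
      simp only [v, RingHom.comp_apply]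
      rw [Ideal.Quotient.eq_zero_iff_mem.2 ha, map_zero]
    rw [this, mul_zero]
  exact hker hy

theorem GoodData.exists_inclMap_sub_mem (n : ℕ) (z : K ⊗[D.k] A) :
    ∃ y, z - D.inclMap K y ∈ (extIdeal K (IsLocalRing.maximalIdeal A) (k := D.k)) ^ n := by
  induction z with
  | zero => exact ⟨0, by simp⟩
  | add z w hz hw =>
    obtain ⟨y, hy⟩ := hz
    obtain ⟨y', hy'⟩ := hw
    refine ⟨y + y', ?_⟩
    rw [map_add]
    convert add_mem hy hy' using 1
    ring
  | tmul c a =>
    obtain ⟨b, hb, hab⟩ := D.dense n a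
    have h1 : Subring.closure ((D.k : Set A) ∪ D.R) ≤
        (D.inclMap K).range.comap ((Algebra.TensorProduct.includeRight : A →ₐ[D.k] K ⊗[D.k] A) :
          A →+* K ⊗[D.k] A) := by
      rw [Subring.closure_le]
      rintro a (ha | ha)
      · refine ⟨algebraMap D.k K ⟨a, ha⟩ ⊗ₜ 1, ?_⟩
        rw [D.inclMap_tmul]
        change _ = (1 : K) ⊗ₜ[D.k] a
        rw [Algebra.algebraMap_eq_smul_one, TensorProduct.smul_tmul, Algebra.smul_def]
        simp
        rfl
      · refine ⟨(1 : K) ⊗ₜ (⟨a, ha⟩ : D.R), ?_⟩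
        rw [D.inclMap_tmul]
        rfl
    obtain ⟨y, hy⟩ := h1 hb
    refine ⟨(c ⊗ₜ 1) * y, ?_⟩
    rw [map_mul, hy, D.inclMap_tmul]
    change c ⊗ₜ a - c ⊗ₜ ((1 : D.R) : A) * (1 ⊗ₜ b) ∈ _
    have h2 : (c ⊗ₜ a - c ⊗ₜ ((1 : D.R) : A) * (1 ⊗ₜ b) : K ⊗[D.k] A) =
        (c ⊗ₜ 1) * (Algebra.TensorProduct.includeRight : A →ₐ[D.k] K ⊗[D.k] A) (a - b) := by
      simp [TensorProduct.tmul_sub, mul_sub]
    rw [h2, extIdeal, ← Ideal.map_pow]
    exact Ideal.mul_mem_left _ _ (Ideal.mem_map_of_mem _ hab)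

/-- The relative Frobenius is finite. -/
theorem GoodData.frobMap_finite [PerfectRing K p] : (D.frobMap K).Finite := by
  classical
  letI : Algebra (K ⊗[D.k] A) (K ⊗[D.k1] D.R) := (D.frobMap K).toAlgebra
  have hfin := D.fin
  letI : Algebra A D.R := (frobTo p D.R D.pow_R).toAlgebra
  haveI : Module.Finite A D.R := hfin
  obtain ⟨s, hs⟩ := Module.finite_def.1 this
  change Module.Finite _ _
  refine Module.finite_def.2 ⟨s.image fun r => (1 : K) ⊗ₜ[D.k1] r, ?_⟩
  rw [Submodule.eq_top_iff']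
  intro y
  induction y with
  | zero => exact Submodule.zero_mem _
  | add y z hy hz => exact Submodule.add_mem _ hy hz
  | tmul c r =>
    obtain ⟨d, hd⟩ := (PerfectRing.bijective_frobenius (R := K) (p := p)).2 c
    replace hd : d ^ p = c := hd
    have hr : r ∈ Submodule.span A (s : Set D.R) := by rw [hs]; trivial
    induction hr using Submodule.span_induction with
    | zero => rw [TensorProduct.tmul_zero]; exact Submodule.zero_mem _
    | add x y _ _ hx hy =>
      rw [TensorProduct.tmul_add]; exact Submodule.add_mem _ hx hy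
    | mem x hx =>
      have : c ⊗ₜ[D.k1] x = (d ⊗ₜ[D.k] (1 : A)) • ((1 : K) ⊗ₜ[D.k1] x) := by
        rw [Algebra.smul_def]
        change _ = D.frobMap K _ * _
        rw [D.frobMap_tmul, ← hd, map_one,
          Algebra.TensorProduct.tmul_mul_tmul, mul_one, one_mul]
      rw [this]
      refine Submodule.smul_mem _ _ (Submodule.subset_span ?_)
      simp only [Finset.coe_image, Set.mem_image, Finset.mem_coe]
      exact ⟨x, hx, rfl⟩
    | smul a x _ hx =>
      have : c ⊗ₜ[D.k1] (a • x) = ((1 : K) ⊗ₜ[D.k] a) • (c ⊗ₜ[D.k1] x) := by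
        rw [Algebra.smul_def, Algebra.smul_def]
        change _ = D.frobMap K _ * _
        rw [D.frobMap_tmul, one_pow, Algebra.TensorProduct.tmul_mul_tmul, one_mul]
        rfl
      rw [this]
      exact Submodule.smul_mem _ _ hx

theorem GoodData.extJ_pow_le : ∃ e, 1 ≤ e ∧ (D.extJ K) ^ e ≤
    (extIdeal K (IsLocalRing.maximalIdeal A) (k := D.k)).map (D.frobMap K) := by
  obtain ⟨e, he⟩ := D.pow_le
  have h1 : (D.extJ K) ^ e ≤
      (extIdeal K (IsLocalRing.maximalIdeal A) (k := D.k)).map (D.frobMap K) := by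
    have h2 := Ideal.map_mono (f := ((Algebra.TensorProduct.includeRight :
      D.R →ₐ[D.k1] K ⊗[D.k1] D.R) : D.R →+* K ⊗[D.k1] D.R)) he
    rw [Ideal.map_pow, Ideal.map_map] at h2
    refine le_trans h2 ?_
    have h3 : (((Algebra.TensorProduct.includeRight :
        D.R →ₐ[D.k1] K ⊗[D.k1] D.R) : D.R →+* K ⊗[D.k1] D.R).comp (frobTo p D.R D.pow_R)) =
        (D.frobMap K).comp ((Algebra.TensorProduct.includeRight :
        A →ₐ[D.k] K ⊗[D.k] A) : A →+* K ⊗[D.k] A) := by
      ext a
      simp only [RingHom.comp_apply]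
      change _ = D.frobMap K (1 ⊗ₜ a)
      rw [D.frobMap_tmul, one_pow]
      rfl
    rw [h3, ← Ideal.map_map]
    exact le_rfl
  exact ⟨e + 1, by omega, le_trans (Ideal.pow_le_pow_right (Nat.le_succ e)) h1⟩

theorem GoodData.map_le_comap :
    (extIdeal K (IsLocalRing.maximalIdeal A) (k := D.k)).map (D.frobMap K) ≤
      (extIdeal K (IsLocalRing.maximalIdeal A) (k := D.k)).comap (D.inclMap K) := by
  rw [Ideal.map_le_iff_le_comap]
  intro z hz
  rw [Ideal.mem_comap, Ideal.mem_comap, D.inclMap_frobMap]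
  exact Ideal.pow_mem_of_mem _ hz _ hp.out.pos

/-- The isomorphism between the completions. -/
theorem GoodData.bijective_mapCompl :
    Function.Bijective (mapCompl _ _ (D.inclMap K) (D.map_le_comap K)) := by
  obtain ⟨e, he, hle⟩ := D.extJ_pow_le K
  refine mapCompl_bijective he (fun n y hy => ?_) (fun n z => D.exists_inclMap_sub_mem K n z)
  have h1 := D.mem_of_inclMap_mem K (e * n) y hy
  rw [pow_mul] at h1
  exact Ideal.pow_right_mono hle n h1

end

end Pool.Agent.FrobDecomp
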