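import Pool.Agent.FrobDecomp.Torus

namespace Pool.Agent.FrobDecomp

set_option linter.unusedSectionVars false
set_option linter.style.haveILetI false

section

variable {p : ℕ} [hp : Fact p.Prime] {A : Type*} [CommRing A] (I : Ideal A) [IsAdicComplete I A]
  {J : Type*} (E : J → AddMonoid.End A)

theorem exists_finite_proj (hpA : (p : A) = 0) (hder : ∀ s, E s ∈ ders A)
    (h0 : ∀ s, E s ∈ opFil I 0)
    (htor : ∀ s, E s ^ p = E s) (hcomm : ∀ s s', Commute (E s) (E s')) (F : Finset J) :
    ∃ Pr : AddMonoid.End A, Pr ∈ opFil I 0 ∧ (∀ s ∈ F, E s * Pr = 0) ∧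
      (∀ Y, (∀ s, Commute Y (E s)) → Commute Y Pr) ∧
      (∀ r, (∀ s, E s r = 0) → ∀ a, Pr (r * a) = r * Pr a) ∧
      (∀ a m, (∀ s ∈ F, E s a ∈ I ^ m) → Pr a - a ∈ I ^ m) := by
  classical
  have hF := completeFil_opFil I
  have hp2 := hp.out.two_le
  induction F using Finset.induction_on with
  | empty =>
    refine ⟨1, hF.one_mem, by simp, fun Y _ => Commute.one_right Y, fun r _ a => rfl, ?_⟩
    intro a m _
    show a - a ∈ I ^ m
    simp
  | insert s F hs ih =>
    obtain ⟨Pr, h1, h2, h3, h4, h5⟩ := ih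
    have hEl : ∀ r, (∀ s, E s r = 0) → ∀ k a, (E s ^ k) (r * a) = r * (E s ^ k) a := by
      intro r hr k
      induction k with
      | zero => intro a; rfl
      | succ k ih =>
        intro a
        rw [pow_succ]
        show (E s ^ k) (E s (r * a)) = r * (E s ^ k) (E s a)
        rw [hder s, hr s, mul_zero, add_zero, ih]
    refine ⟨(1 - E s ^ (p - 1)) * Pr, ?_, ?_, ?_, ?_, ?_⟩
    · exact hF.mul_left ((opFil I 0).sub_mem hF.one_mem (hF.pow_mem_zero (h0 s) _)) h1
    · intro s' hs'
      rcases Finset.mem_insert.1 hs' with h | h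
      · subst h
        rw [← mul_assoc, mul_sub, mul_one, ← pow_succ', Nat.sub_add_cancel (by omega), htor,
          sub_self, zero_mul]
      · have hc : Commute (E s') (1 - E s ^ (p - 1)) :=
          (Commute.one_right _).sub_right ((hcomm s' s).pow_right _)
        rw [← mul_assoc, hc.eq, mul_assoc, h2 s' h, mul_zero]
    · intro Y hY
      exact ((Commute.one_right Y).sub_right ((hY s).pow_right _)).mul_right (h3 Y hY)
    · intro r hr a
      show Pr (r * a) - (E s ^ (p - 1)) (Pr (r * a)) = r * (Pr a - (E s ^ (p - 1)) (Pr a))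
      rw [h4 r hr, hEl r hr]
      ring
    · intro a m ha
      have e1 : Pr a - a ∈ I ^ m := h5 a m fun s' hs' => ha s' (Finset.mem_insert_of_mem hs')
      have e2 : (E s ^ (p - 1)) (Pr a) ∈ I ^ m := by
        have hc : Commute (E s) Pr := h3 _ fun s' => hcomm s s'
        have e3 : (E s ^ (p - 1)) (Pr a) = (E s ^ (p - 2)) (Pr (E s a)) := by
          have : E s ^ (p - 1) * Pr = E s ^ (p - 2) * (Pr * E s) := by
            rw [← hc.eq, ← mul_assoc, ← pow_succ]
            congr 2
            omega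
          exact DFunLike.congr_fun this a
        rw [e3]
        have e4 : Pr (E s a) ∈ I ^ m := by
          simpa using h1 m _ (ha s (Finset.mem_insert_self _ _))
        simpa using hF.pow_mem_zero (h0 s) (p - 2) m _ e4
      show (Pr a - (E s ^ (p - 1)) (Pr a)) - a ∈ I ^ m
      have : (Pr a - (E s ^ (p - 1)) (Pr a)) - a = (Pr a - a) - (E s ^ (p - 1)) (Pr a) := by ring
      rw [this]
      exact (I ^ m).sub_mem e1 e2

/-- The projection onto the joint kernel of a family of commuting toral derivations. -/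
theorem exists_proj (hpA : (p : A) = 0) (hder : ∀ s, E s ∈ ders A)
    (h0 : ∀ s, E s ∈ opFil I 0)
    (htor : ∀ s, E s ^ p = E s) (hcomm : ∀ s s', Commute (E s) (E s'))
    (hfin : ∀ a m, {s | E s a ∉ I ^ m}.Finite) :
    ∃ Pr : A →+ A, (∀ a s, E s (Pr a) = 0) ∧
      (∀ r, (∀ s, E s r = 0) → ∀ a, Pr (r * a) = r * Pr a) ∧
      (∀ r, (∀ s, E s r = 0) → Pr r = r) ∧
      (∀ m a, a ∈ I ^ m → Pr a ∈ I ^ m) ∧
      (∀ m a, (∀ s, E s a ∈ I ^ m) → Pr a - a ∈ I ^ m) ∧
      (∀ s a (c : ℤ), ¬ ((p : ℤ) ∣ c) → E s a = c • a → Pr a = 0) := by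
  classical
  choose Pr h1 h2 h3 h4 h5 using exists_finite_proj I E hpA hder h0 htor hcomm
  have hcommPrE : ∀ F s, Commute (E s) (Pr F) := fun F s => h3 F _ fun s' => hcomm s s'
  have hcommPr : ∀ F F', Commute (Pr F) (Pr F') := fun F F' => h3 F' _ fun s => (hcommPrE F s).symm
  -- one-sided comparison
  have hone : ∀ (F F' : Finset J) a m, (∀ s, E s a ∉ I ^ m → s ∈ F) →
      (Pr F') (Pr F a) - Pr F a ∈ I ^ m := by
    intro F F' a m hF
    apply h5
    intro s _
    by_cases hs : s ∈ F
    · have : E s (Pr F a) = 0 := DFunLike.congr_fun (h2 F s hs) a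
      rw [this]; exact (I ^ m).zero_mem
    · have e : E s (Pr F a) = Pr F (E s a) := DFunLike.congr_fun (hcommPrE F s).eq a
      have hsa : E s a ∈ I ^ m := by by_contra h; exact hs (hF s h)
      rw [e]
      simpa using h1 F m _ hsa
  have htwo : ∀ (F F' : Finset J) a m, (∀ s, E s a ∉ I ^ m → s ∈ F) →
      (∀ s, E s a ∉ I ^ m → s ∈ F') → Pr F a - Pr F' a ∈ I ^ m := by
    intro F F' a m hF hF'
    have e1 := hone F F' a m hF
    have e2 := hone F' F a m hF'
    have e3 : (Pr F') (Pr F a) = (Pr F) (Pr F' a) := DFunLike.congr_fun (hcommPr F' F).eq a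
    have : Pr F a - Pr F' a = ((Pr F) (Pr F' a) - Pr F' a) - ((Pr F') (Pr F a) - Pr F a) := by
      rw [e3]; ring
    rw [this]
    exact (I ^ m).sub_mem e2 e1
  let Fn : ℕ → A → Finset J := fun m a => (hfin a m).toFinset
  have hFn : ∀ m a s, E s a ∉ I ^ m → s ∈ Fn m a := by
    intro m a s hs
    show s ∈ (hfin a m).toFinset
    rw [Set.Finite.mem_toFinset]; exact hs
  have hlim : ∀ a, ∃ L, ∀ m, L - Pr (Fn m a) a ∈ I ^ m := by
    intro a
    apply exists_limit I
    intro m
    apply htwo
    · intro s hs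
      apply hFn
      intro h
      exact hs (Ideal.pow_le_pow_right (by omega) h)
    · exact hFn m a
  choose L hL using hlim
  have hLF : ∀ a m (F : Finset J), (∀ s, E s a ∉ I ^ m → s ∈ F) → L a - Pr F a ∈ I ^ m := by
    intro a m F hF
    have : L a - Pr F a = (L a - Pr (Fn m a) a) + (Pr (Fn m a) a - Pr F a) := by ring
    rw [this]
    exact (I ^ m).add_mem (hL a m) (htwo _ _ a m (hFn m a) hF)
  have hadd : ∀ a b, L (a + b) = L a + L b := by
    intro a b
    rw [← sub_eq_zero]
    apply eq_zero_of_forall_mem I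
    intro m
    let F := Fn m a ∪ Fn m b ∪ Fn m (a + b)
    have e1 := hLF a m F fun s hs =>
      Finset.mem_union_left _ (Finset.mem_union_left _ (hFn m a s hs))
    have e2 := hLF b m F fun s hs =>
      Finset.mem_union_left _ (Finset.mem_union_right _ (hFn m b s hs))
    have e3 := hLF (a + b) m F fun s hs => Finset.mem_union_right _ (hFn m (a + b) s hs)
    have : L (a + b) - (L a + L b) =
        (L (a + b) - Pr F (a + b)) - ((L a - Pr F a) + (L b - Pr F b)) := by
      rw [map_add]; ring
    rw [this]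
    exact (I ^ m).sub_mem e3 ((I ^ m).add_mem e1 e2)
  refine ⟨AddMonoidHom.mk' L hadd, ?_, ?_, ?_, ?_, ?_, ?_⟩
  · intro a s
    show E s (L a) = 0
    apply eq_zero_of_forall_mem I
    intro m
    let F := insert s (Fn m a)
    have e1 := hLF a m F fun s hs => Finset.mem_insert_of_mem (hFn m a s hs)
    have e2 : E s (Pr F a) = 0 := DFunLike.congr_fun (h2 F s (Finset.mem_insert_self _ _)) a
    have e3 : E s (L a) = E s (L a - Pr F a) := by rw [map_sub, e2, sub_zero]
    rw [e3]
    simpa using h0 s m _ e1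
  · intro r hr a
    show L (r * a) = r * L a
    rw [← sub_eq_zero]
    apply eq_zero_of_forall_mem I
    intro m
    let F := Fn m a ∪ Fn m (r * a)
    have e1 := hLF a m F fun s hs => Finset.mem_union_left _ (hFn m a s hs)
    have e2 := hLF (r * a) m F fun s hs => Finset.mem_union_right _ (hFn m (r * a) s hs)
    have : L (r * a) - r * L a = (L (r * a) - Pr F (r * a)) - r * (L a - Pr F a) := by
      rw [h4 F r hr]; ring
    rw [this]
    exact (I ^ m).sub_mem e2 ((I ^ m).mul_mem_left _ e1)
  · intro r hr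
    show L r = r
    rw [← sub_eq_zero]
    apply eq_zero_of_forall_mem I
    intro m
    have e1 := hLF r m ∅ fun s hs => absurd (by rw [hr s]; exact (I ^ m).zero_mem) hs
    have e2 := h5 ∅ r m (by simp)
    have : L r - r = (L r - Pr ∅ r) + (Pr ∅ r - r) := by ring
    rw [this]
    exact (I ^ m).add_mem e1 e2
  · intro m a ha
    show L a ∈ I ^ m
    have e1 := hL a m
    have e2 : Pr (Fn m a) a ∈ I ^ m := by simpa using h1 (Fn m a) m a ha
    have : L a = (L a - Pr (Fn m a) a) + Pr (Fn m a) a := by ring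
    rw [this]
    exact (I ^ m).add_mem e1 e2
  · intro m a ha
    show L a - a ∈ I ^ m
    have e1 := hL a m
    have e2 := h5 (Fn m a) a m (fun s _ => ha s)
    have : L a - a = (L a - Pr (Fn m a) a) + (Pr (Fn m a) a - a) := by ring
    rw [this]
    exact (I ^ m).add_mem e1 e2
  · intro s a c hc hsa
    show L a = 0
    have hzero : ∀ F : Finset J, s ∈ F → Pr F a = 0 := by
      intro F hF
      have e1 : E s (Pr F a) = 0 := DFunLike.congr_fun (h2 F s hF) a
      have e2 : E s (Pr F a) = Pr F (E s a) := DFunLike.congr_fun (hcommPrE F s).eq a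
      rw [e1, hsa, map_zsmul] at e2
      have hcop : IsCoprime (p : ℤ) c := by
        rw [Int.isCoprime_iff_gcd_eq_one]
        have hp' := Nat.Prime.coprime_iff_not_dvd hp.out (n := c.natAbs)
        have : ¬ p ∣ c.natAbs := fun h => hc (Int.natCast_dvd.2 h)
        have := hp'.2 this
        simpa [Int.gcd] using this
      obtain ⟨u, v, huv⟩ := hcop
      have e3 : ((u * p + v * c : ℤ) : A) * Pr F a = Pr F a := by rw [huv]; simp
      rw [← e3]
      push_cast
      rw [hpA, mul_zero, zero_add, mul_assoc]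
      have : (c : A) * Pr F a = 0 := by rw [← zsmul_eq_mul]; exact e2.symm
      rw [this, mul_zero]
    apply eq_zero_of_forall_mem I
    intro m
    have e1 := hLF a m (insert s (Fn m a)) fun s' hs => Finset.mem_insert_of_mem (hFn m a s' hs)
    rw [hzero _ (Finset.mem_insert_self _ _), sub_zero] at e1
    exact e1

end

end Pool.Agent.FrobDecomp
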