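import Pool.Agent.FrobDecomp.PBasis

namespace Pool.Agent.FrobDecomp

set_option linter.unusedSectionVars false
set_option linter.style.haveILetI false

section

variable (p : ℕ) [hp : Fact p.Prime] (κ : Type*) [Field κ] [CharP κ p]

/-- `S` is a `p`-basis of the field `κ`: the monomials in `S` with all exponents `< p` form a
basis of `κ` over the subfield of `p`-th powers. -/
structure IsPBasis (S : Set κ) : Prop where
  indep : LinearIndepOn (frobenius κ p).fieldRange mon (Mon p S)
  gen : Algebra.adjoin (frobenius κ p).fieldRange S = ⊤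

theorem exists_isPBasis : ∃ S : Set κ, IsPBasis p κ S := by
  obtain ⟨S, hS⟩ := exists_maximal_indep (p := p) (K := (frobenius κ p).fieldRange) (L := κ)
  exact ⟨S, hS.1, maximal_adjoin_eq_top (fun x => ⟨⟨x ^ p, x, rfl⟩, rfl⟩) hS⟩

variable {p κ}

theorem IsPBasis.induction {S : Set κ} (hS : IsPBasis p κ S) {P : κ → Prop}
    (hpow : ∀ x, P (x ^ p)) (hmem : ∀ s ∈ S, P s) (hadd : ∀ x y, P x → P y → P (x + y))
    (hmul : ∀ x y, P x → P y → P (x * y)) (x : κ) : P x := by
  have hx : x ∈ Algebra.adjoin (frobenius κ p).fieldRange S := by rw [hS.gen]; trivial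
  refine Algebra.adjoin_induction (fun s hs => hmem s hs) (fun r => ?_)
    (fun x y _ _ => hadd x y) (fun x y _ _ => hmul x y) hx
  obtain ⟨y, hy⟩ := r.2
  have : algebraMap (frobenius κ p).fieldRange κ r = y ^ p := hy.symm
  rw [this]
  exact hpow y

/-- Square-zero lifting property of a field relative to a `p`-basis. -/
theorem IsPBasis.exists_lift {S : Set κ} (hS : IsPBasis p κ S) {B : Type*} [CommRing B]
    (hpB : (p : B) = 0) (J : Ideal B) (hJ : J ^ 2 = ⊥) (f : κ →+* B ⧸ J) (b : κ → B)
    (hb : ∀ s ∈ S, Ideal.Quotient.mk J (b s) = f s) :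
    ∃ g : κ →+* B, (∀ s ∈ S, g s = b s) ∧ ∀ x, Ideal.Quotient.mk J (g x) = f x := by
  classical
  rcases subsingleton_or_nontrivial B with hB | hB
  · refine ⟨⟨⟨⟨fun _ => 0, Subsingleton.elim _ _⟩, fun _ _ => Subsingleton.elim _ _⟩,
      Subsingleton.elim _ _, fun _ _ => Subsingleton.elim _ _⟩, fun _ _ => Subsingleton.elim _ _,
      fun x => ?_⟩
    obtain ⟨y, hy⟩ := Ideal.Quotient.mk_surjective (f x)
    rw [← hy]
    congr 1
    exact Subsingleton.elim _ _
  haveI : CharP B p := (CharP.charP_iff_prime_eq_zero hp.out).2 hpB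
  let φ : B ⧸ J →+* B := Ideal.Quotient.lift J (frobenius B p) (by
    intro x hx
    rw [frobenius_def]
    have h2 : x ^ 2 ∈ J ^ 2 := Ideal.pow_mem_pow hx 2
    rw [hJ, Ideal.mem_bot] at h2
    have : x ^ p = x ^ 2 * x ^ (p - 2) := by
      rw [← pow_add]; congr 1; have := hp.out.two_le; omega
    rw [this, h2, zero_mul])
  have hφ : ∀ x : B, φ (Ideal.Quotient.mk J x) = x ^ p := fun x => by
    simp [φ, frobenius_def]
  let h : κ →+* B := φ.comp f
  let e : κ ≃+* (frobenius κ p).fieldRange :=
    RingEquiv.ofBijective (frobenius κ p).rangeRestrictField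
      ⟨(frobenius κ p).rangeRestrictField.injective, (frobenius κ p).rangeRestrictField_bijective.2⟩
  letI : Algebra (frobenius κ p).fieldRange B := (h.comp e.symm.toRingHom).toAlgebra
  have halg : ∀ x : κ, ∀ a : (frobenius κ p).fieldRange, (a : κ) = x ^ p →
      algebraMap (frobenius κ p).fieldRange B a = h x := by
    intro x a ha
    have : e x = a := by
      apply Subtype.ext
      rw [ha]; rfl
    show h (e.symm a) = h x
    rw [← this, RingEquiv.symm_apply_apply]
  obtain ⟨g, hg⟩ := exists_lift_of_indep (p := p) (K := (frobenius κ p).fieldRange) (L := κ)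
    (fun x => ⟨⟨x ^ p, x, rfl⟩, rfl⟩) hS.indep hS.gen b (by
      intro s hs a ha
      rw [halg s a ha]
      show b s ^ p = φ (f s)
      rw [← hb s hs, hφ])
  refine ⟨g.toRingHom, hg, ?_⟩
  refine hS.induction ?_ ?_ ?_ ?_
  · intro x
    have h1 : g (x ^ p) = h x := by
      have := g.commutes ⟨x ^ p, x, rfl⟩
      rw [← halg x ⟨x ^ p, x, rfl⟩ rfl, ← this]
      rfl
    show Ideal.Quotient.mk J (g (x ^ p)) = f (x ^ p)
    rw [h1]
    obtain ⟨y, hy⟩ := Ideal.Quotient.mk_surjective (f x)
    show Ideal.Quotient.mk J (φ (f x)) = f (x ^ p)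
    rw [← hy, hφ, map_pow, hy, map_pow]
  · intro s hs
    show Ideal.Quotient.mk J (g s) = f s
    rw [hg s hs, hb s hs]
  · intro x y hx hy
    rw [map_add, map_add, hx, hy, map_add]
  · intro x y hx hy
    rw [map_mul, map_mul, hx, hy, map_mul]

end

section

universe u

variable {p : ℕ} [hp : Fact p.Prime]

/-- A field is formally smooth over the polynomial ring on a `p`-basis. -/
theorem IsPBasis.formallySmooth {κ : Type u} [Field κ] [CharP κ p] {S : Set κ}
    (hS : IsPBasis p κ S) [Algebra (MvPolynomial S (ZMod p)) κ]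
    (halg : ∀ s : S, algebraMap (MvPolynomial S (ZMod p)) κ (MvPolynomial.X s) = s) :
    Algebra.FormallySmooth (MvPolynomial S (ZMod p)) κ := by
  classical
  apply Algebra.FormallySmooth.of_comp_surjective
  intro B _ _ I hI f
  have hpB : (p : B) = 0 := by
    have h1 : ((p : MvPolynomial S (ZMod p))) = 0 := by
      have : ((p : ZMod p)) = 0 := ZMod.natCast_self p
      rw [← map_natCast (MvPolynomial.C : ZMod p →+* MvPolynomial S (ZMod p)), this, map_zero]
    rw [← map_natCast (algebraMap (MvPolynomial S (ZMod p)) B), h1, map_zero]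
  let b : κ → B := fun x => if hx : x ∈ S then algebraMap (MvPolynomial S (ZMod p)) B
    (MvPolynomial.X ⟨x, hx⟩) else 0
  have hb : ∀ s : S, b s = algebraMap (MvPolynomial S (ZMod p)) B (MvPolynomial.X s) := by
    intro s
    simp [b, s.2]
  obtain ⟨g, hg, hgf⟩ := hS.exists_lift hpB I hI f.toRingHom b (by
    intro s hs
    have h1 := hb ⟨s, hs⟩
    simp only at h1
    rw [h1]
    have h2 := f.commutes (MvPolynomial.X ⟨s, hs⟩)
    rw [halg] at h2
    exact h2.symm)
  have hcomm : g.comp (algebraMap (MvPolynomial S (ZMod p)) κ) =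
      algebraMap (MvPolynomial S (ZMod p)) B := by
    apply MvPolynomial.ringHom_ext
    · intro r
      obtain ⟨n, rfl⟩ := ZMod.natCast_zmod_surjective r
      simp
    · intro s
      rw [RingHom.comp_apply, halg, hg s s.2, hb]
  refine ⟨{ g with commutes' := fun r => RingHom.congr_fun hcomm r }, ?_⟩
  ext x
  exact hgf x

/-- Cohen's theorem in characteristic `p`: lifts of a `p`-basis of the residue field determine
a coefficient field. -/
theorem exists_coefficientField (A : Type u) [CommRing A] [IsLocalRing A] (hpA : (p : A) = 0)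
    [IsAdicComplete (IsLocalRing.maximalIdeal A) A] [CharP (IsLocalRing.ResidueField A) p]
    {S : Set (IsLocalRing.ResidueField A)} (hS : IsPBasis p (IsLocalRing.ResidueField A) S)
    (t : IsLocalRing.ResidueField A → A) (ht : ∀ s ∈ S, IsLocalRing.residue A (t s) = s) :
    ∃ σ : IsLocalRing.ResidueField A →+* A,
      (∀ x, IsLocalRing.residue A (σ x) = x) ∧ ∀ s ∈ S, σ s = t s := by
  classical
  haveI : CharP A p := (CharP.charP_iff_prime_eq_zero hp.out).2 hpA
  letI : Algebra (ZMod p) A := ZMod.algebra A p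
  letI : Algebra (MvPolynomial S (ZMod p)) A :=
    (MvPolynomial.aeval (fun s : S => t s)).toRingHom.toAlgebra
  letI : Algebra (MvPolynomial S (ZMod p)) (IsLocalRing.ResidueField A) :=
    ((IsLocalRing.residue A).comp (algebraMap (MvPolynomial S (ZMod p)) A)).toAlgebra
  have halgA : ∀ s : S, algebraMap (MvPolynomial S (ZMod p)) A (MvPolynomial.X s) = t s := by
    intro s
    show MvPolynomial.aeval (fun s : S => t s) (MvPolynomial.X s) = t s
    simp
  have halg : ∀ s : S, algebraMap (MvPolynomial S (ZMod p)) (IsLocalRing.ResidueField A)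
      (MvPolynomial.X s) = s := by
    intro s
    show IsLocalRing.residue A (algebraMap (MvPolynomial S (ZMod p)) A (MvPolynomial.X s)) = s
    rw [halgA, ht s s.2]
  haveI := hS.formallySmooth halg
  let f : IsLocalRing.ResidueField A →ₐ[MvPolynomial S (ZMod p)] A ⧸ IsLocalRing.maximalIdeal A :=
    { RingHom.id (IsLocalRing.ResidueField A) with commutes' := fun r => rfl }
  obtain ⟨g, hg⟩ := Algebra.FormallySmooth.exists_mkₐ_comp_eq_of_isAdicComplete f
  refine ⟨g.toRingHom, fun x => ?_, fun s hs => ?_⟩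
  · exact DFunLike.congr_fun hg x
  · have := g.commutes (MvPolynomial.X ⟨s, hs⟩)
    rw [halg, halgA] at this
    exact this

/-- Euler derivations attached to a `p`-basis. -/
theorem IsPBasis.exists_euler {κ : Type u} [Field κ] [CharP κ p] {S : Set κ}
    (hS : IsPBasis p κ S) (s : κ) (hs : s ∈ S) :
    ∃ E : Derivation ℤ κ κ, E s = s ∧ ∀ s' ∈ S, s' ≠ s → E s' = 0 := by
  classical
  let J : Ideal (TrivSqZeroExt κ κ) := RingHom.ker (TrivSqZeroExt.fstHom κ κ κ).toRingHom
  have hJmem : ∀ x : TrivSqZeroExt κ κ, x ∈ J ↔ x.fst = 0 := fun x => Iff.rfl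
  have hJ : J ^ 2 = ⊥ := by
    rw [eq_bot_iff, pow_two, Ideal.mul_le]
    intro x hx y hy
    rw [hJmem] at hx hy
    rw [Ideal.mem_bot]
    ext
    · simp [hx, hy]
    · simp [hx, hy]
  let f : κ →+* TrivSqZeroExt κ κ ⧸ J :=
    (Ideal.Quotient.mk J).comp (TrivSqZeroExt.inlHom κ κ)
  have hp0 : (p : TrivSqZeroExt κ κ) = 0 := by
    rw [← map_natCast (TrivSqZeroExt.inlHom κ κ) p, CharP.cast_eq_zero, map_zero]
  obtain ⟨g, hg, hgf⟩ := hS.exists_lift hp0 J hJ f
    (fun x => TrivSqZeroExt.inl x + if x = s then TrivSqZeroExt.inr x else 0) (by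
      intro x hx
      show Ideal.Quotient.mk J _ = Ideal.Quotient.mk J (TrivSqZeroExt.inl x)
      rw [Ideal.Quotient.eq, hJmem]
      split_ifs <;> simp)
  have hfst : ∀ x, (g x).fst = x := by
    intro x
    have := hgf x
    have h2 : Ideal.Quotient.mk J (g x) = Ideal.Quotient.mk J (TrivSqZeroExt.inl x) := this
    rw [Ideal.Quotient.eq, hJmem] at h2
    simpa [sub_eq_zero] using h2
  refine ⟨Derivation.mk' (AddMonoidHom.toIntLinearMap
    { toFun := fun x => (g x).snd, map_zero' := by simp, map_add' := fun x y => by simp }) ?_,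
    ?_, ?_⟩
  · intro a b
    show (g (a * b)).snd = a • (g b).snd + b • (g a).snd
    rw [map_mul, TrivSqZeroExt.snd_mul, hfst, hfst]
    simp [mul_comm]
  · show (g s).snd = s
    rw [hg s hs]
    simp
  · intro s' hs' hne
    show (g s').snd = 0
    rw [hg s' hs']
    simp [hne]

theorem derivation_pow_eq_zero {R : Type*} [CommRing R] (hpR : (p : R) = 0)
    (D : Derivation ℤ R R) (x : R) : D (x ^ p) = 0 := by
  rw [Derivation.leibniz_pow, ← Nat.cast_smul_eq_nsmul R, hpR, zero_smul]

theorem IsPBasis.finite_ne_zero {κ : Type u} [Field κ] [CharP κ p] {S : Set κ}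
    (hS : IsPBasis p κ S) (E : S → Derivation ℤ κ κ)
    (hE : ∀ s s' : S, s' ≠ s → E s s' = 0) (c : κ) : {s : S | E s c ≠ 0}.Finite := by
  classical
  refine hS.induction (P := fun c => {s : S | E s c ≠ 0}.Finite) ?_ ?_ ?_ ?_ c
  · intro x
    convert! Set.finite_empty
    ext s
    simp [derivation_pow_eq_zero (p := p) (CharP.cast_eq_zero κ p)]
  · intro s hs
    refine (Set.finite_singleton (⟨s, hs⟩ : S)).subset ?_
    intro s' hs'
    by_contra hne
    exact hs' (hE s' ⟨s, hs⟩ (fun h => hne h.symm))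
  · intro x y hx hy
    refine (hx.union hy).subset ?_
    intro s hs
    by_contra hcon
    simp only [Set.mem_union, Set.mem_setOf_eq, not_or, not_not] at hcon
    apply hs
    rw [map_add, hcon.1, hcon.2, add_zero]
  · intro x y hx hy
    refine (hx.union hy).subset ?_
    intro s hs
    by_contra hcon
    simp only [Set.mem_union, Set.mem_setOf_eq, not_or, not_not] at hcon
    apply hs
    rw [Derivation.leibniz, hcon.1, hcon.2, smul_zero, smul_zero, add_zero]

end

end Pool.Agent.FrobDecomp
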