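import Pool.Agent.FrobDecomp.Presentation

namespace Pool.Agent.FrobDecomp

set_option linter.unusedSectionVars false
set_option linter.style.haveILetI false

open scoped TensorProduct

section

universe u

/-- The completion of a ring `B` at a finitely generated ideal `I` with `B = κ + I` for a field
`κ` is Noetherian. -/
theorem isNoetherianRing_adicCompletion {κ B : Type u} [Field κ] [CommRing B] (σ : κ →+* B)
    (I : Ideal B) (hI : I.FG) (hσ : ∀ b : B, ∃ c : κ, b - σ c ∈ I) :
    IsNoetherianRing (AdicCompletion I B) := by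
  classical
  haveI := AdicCompletion.isAdicComplete_self I hI
  obtain ⟨n, x, hx⟩ := Submodule.fg_iff_exists_fin_generating_family.1 hI
  obtain ⟨π, hπ, -⟩ := exists_presentation (I.map (algebraMap B (AdicCompletion I B)))
    ((algebraMap B (AdicCompletion I B)).comp σ) (fun i => algebraMap B (AdicCompletion I B) (x i))
    (by
      rw [← hx]
      change Ideal.span _ = Ideal.map _ (Ideal.span (Set.range x))
      rw [Ideal.map_span, ← Set.range_comp]
      rfl)
    (by
      intro a
      obtain ⟨b, hb⟩ := Ideal.Quotient.mk_surjective (AdicCompletion.evalOneₐ I a)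
      obtain ⟨c, hc⟩ := hσ b
      refine ⟨c, ?_⟩
      rw [← AdicCompletion.ker_evalOneₐ_eq_map I hI, RingHom.mem_ker, map_sub, sub_eq_zero]
      change AdicCompletion.evalOneₐ I a = AdicCompletion.evalOneₐ I (algebraMap _ _ (σ c))
      rw [← hb, AdicCompletion.algebraMap_apply, AdicCompletion.evalOneₐ_of, Ideal.Quotient.eq]
      exact hc)
  exact isNoetherianRing_of_surjective _ _ π hπ

end

section

/-- If a ring `B` has Noetherian completion and every finitely generated ideal is closed,
then `B` is Noetherian. -/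
theorem isNoetherianRing_of_closed {B : Type*} [CommRing B] (I : Ideal B)
    [IsNoetherianRing (AdicCompletion I B)]
    (h : ∀ (S : Finset B) (g : B), (∀ n : ℕ, g ∈ Ideal.span (S : Set B) ⊔ I ^ n) →
      g ∈ Ideal.span (S : Set B)) : IsNoetherianRing B := by
  classical
  rw [isNoetherianRing_iff_ideal_fg]
  intro J
  have h1 : (J.map (algebraMap B (AdicCompletion I B))).FG := IsNoetherian.noetherian _
  have h2 : ∃ S : Finset B, (S : Set B) ⊆ J ∧ J.map (algebraMap B (AdicCompletion I B)) =
      (Ideal.span (S : Set B)).map (algebraMap B (AdicCompletion I B)) := by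
    obtain ⟨s, hs, hs'⟩ := (Submodule.fg_span_iff_fg_span_finset_subset _).1 h1
    rw [Finset.subset_set_image_iff] at hs
    obtain ⟨S, hS, rfl⟩ := hs
    refine ⟨S, hS, ?_⟩
    rw [Ideal.map_span]
    change Ideal.span _ = _
    rw [← Finset.coe_image]
    exact hs'
  obtain ⟨S, hS, hJ⟩ := h2
  refine ⟨S, le_antisymm (Ideal.span_le.2 hS) fun g hg => h S g fun n => ?_⟩
  have h3 : algebraMap B (AdicCompletion I B) g ∈
      (Ideal.span (S : Set B)).map (algebraMap B (AdicCompletion I B)) := by
    rw [← hJ]
    exact Ideal.mem_map_of_mem _ hg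
  have h4 := Ideal.mem_map_of_mem (AdicCompletion.evalₐ I n).toRingHom h3
  rw [Ideal.map_map] at h4
  have h5 : (AdicCompletion.evalₐ I n).toRingHom.comp (algebraMap B (AdicCompletion I B)) =
      Ideal.Quotient.mk (I ^ n) := by
    ext b
    simp only [RingHom.comp_apply]
    change AdicCompletion.evalₐ I n (algebraMap _ _ b) = _
    rw [AdicCompletion.algebraMap_apply]
    exact AdicCompletion.evalₐ_of I n b
  rw [h5] at h4
  have h6 : (AdicCompletion.evalₐ I n).toRingHom (algebraMap B (AdicCompletion I B) g) =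
      Ideal.Quotient.mk (I ^ n) g := by rw [← h5]; rfl
  rw [h6] at h4
  exact Ideal.mem_quotient_iff_mem_sup.1 h4

end

section

variable {k K A : Type*} [Field k] [Field K] [CommRing A] [Algebra k K] [Algebra k A]

theorem exists_mem_range_map [Algebra.IsAlgebraic k K] (S : Finset (A ⊗[k] K)) :
    ∃ L : IntermediateField k K, FiniteDimensional k L ∧
      ∀ z ∈ S, z ∈ (Algebra.TensorProduct.map (AlgHom.id k A) L.val).range := by
  classical
  have hmono : ∀ L L' : IntermediateField k K, L ≤ L' →
      (Algebra.TensorProduct.map (AlgHom.id k A) L.val).range ≤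
        (Algebra.TensorProduct.map (AlgHom.id k A) L'.val).range := by
    intro L L' h
    rintro _ ⟨z, rfl⟩
    refine ⟨Algebra.TensorProduct.map (AlgHom.id k A) (IntermediateField.inclusion h) z, ?_⟩
    change (Algebra.TensorProduct.map (AlgHom.id k A) L'.val)
      (Algebra.TensorProduct.map (AlgHom.id k A) (IntermediateField.inclusion h) z) =
      Algebra.TensorProduct.map (AlgHom.id k A) L.val z
    rw [← AlgHom.comp_apply, ← Algebra.TensorProduct.map_comp]
    rfl
  have h1 : ∀ z : A ⊗[k] K, ∃ L : IntermediateField k K, FiniteDimensional k L ∧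
      z ∈ (Algebra.TensorProduct.map (AlgHom.id k A) L.val).range := by
    intro z
    induction z with
    | zero => exact ⟨⊥, inferInstance, zero_mem _⟩
    | add z w hz hw =>
      obtain ⟨L, hL, hz⟩ := hz
      obtain ⟨L', hL', hw⟩ := hw
      exact ⟨L ⊔ L', IntermediateField.finiteDimensional_sup L L',
        add_mem (hmono _ _ le_sup_left hz) (hmono _ _ le_sup_right hw)⟩
    | tmul a c =>
      refine ⟨IntermediateField.adjoin k {c}, IntermediateField.adjoin.finiteDimensional
        (Algebra.IsIntegral.isIntegral c), ?_⟩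
      exact ⟨a ⊗ₜ ⟨c, IntermediateField.mem_adjoin_simple_self k c⟩, rfl⟩
  induction S using Finset.induction_on with
  | empty => exact ⟨⊥, inferInstance, by simp⟩
  | insert z S _ ih =>
    obtain ⟨L, hL, hS⟩ := ih
    obtain ⟨L', hL', hz⟩ := h1 z
    refine ⟨L ⊔ L', IntermediateField.finiteDimensional_sup L L', fun w hw => ?_⟩
    rw [Finset.mem_insert] at hw
    rcases hw with rfl | hw
    · exact hmono _ _ le_sup_right hz
    · exact hmono _ _ le_sup_left (hS w hw)

/-- Contraction of an extended ideal along `A ⊗ L → A ⊗ K`. -/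
theorem mem_of_map_mem {L : Type*} [Field L] [Algebra k L] (i : L →ₐ[k] K)
    (J : Ideal (A ⊗[k] L)) (x : A ⊗[k] L)
    (hx : Algebra.TensorProduct.map (AlgHom.id k A) i x ∈
      J.map (Algebra.TensorProduct.map (AlgHom.id k A) i)) : x ∈ J := by
  classical
  letI : Algebra L K := i.toRingHom.toAlgebra
  haveI : IsScalarTower k L K := IsScalarTower.of_algebraMap_eq fun c => (i.commutes c).symm
  obtain ⟨r, hr⟩ := LinearMap.exists_leftInverse_of_injective (Algebra.linearMap L K)
    (LinearMap.ker_eq_bot.2 (algebraMap L K).injective)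
  have hr1 : ∀ l : L, r (algebraMap L K l) = l := fun l => LinearMap.congr_fun hr l
  let ρ : A ⊗[k] K →ₗ[k] A ⊗[k] L := TensorProduct.map LinearMap.id (r.restrictScalars k)
  have hρ : ∀ a c, ρ (a ⊗ₜ c) = a ⊗ₜ (r c) := fun a c => rfl
  have hmul : ∀ (y : A ⊗[k] L) (z : A ⊗[k] K),
      ρ (Algebra.TensorProduct.map (AlgHom.id k A) i y * z) = y * ρ z := by
    intro y z
    induction y with
    | zero => simp
    | add y y' h h' => rw [map_add, add_mul, map_add, h, h', add_mul]
    | tmul a l =>
      induction z with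
      | zero => simp
      | add z z' h h' => rw [mul_add, map_add, h, h', map_add, mul_add]
      | tmul b c =>
        rw [Algebra.TensorProduct.map_tmul, Algebra.TensorProduct.tmul_mul_tmul, hρ, hρ,
          Algebra.TensorProduct.tmul_mul_tmul]
        congr 1
        change r (algebraMap L K l * c) = l * r c
        rw [← Algebra.smul_def, map_smul, smul_eq_mul]
  have hone : ρ 1 = 1 := by
    rw [Algebra.TensorProduct.one_def, hρ, Algebra.TensorProduct.one_def]
    congr 1
    rw [← map_one (algebraMap L K)]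
    exact hr1 1
  have hid : ∀ y, ρ (Algebra.TensorProduct.map (AlgHom.id k A) i y) = y := by
    intro y
    have := hmul y 1
    rwa [mul_one, hone, mul_one] at this
  have hmem : ∀ z ∈ J.map (Algebra.TensorProduct.map (AlgHom.id k A) i), ρ z ∈ J := by
    intro z hz
    have h0 : ∀ w, ρ (w * z) ∈ J := by
      refine Submodule.span_induction (p := fun z _ => ∀ w, ρ (w * z) ∈ J) ?_ ?_ ?_ ?_ hz
      · rintro _ ⟨y, hy, rfl⟩ w
        rw [mul_comm, hmul, mul_comm]
        exact J.mul_mem_left _ hy
      · intro w; simp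
      · intro z z' _ _ h h' w
        rw [mul_add, map_add]
        exact J.add_mem (h w) (h' w)
      · intro b z _ h w
        rw [smul_eq_mul, ← mul_assoc]
        exact h _
    have := h0 1
    rwa [one_mul] at this
  have := hmem _ hx
  rwa [hid] at this

end

section

universe u

variable {k K A : Type u} [Field k] [Field K] [CommRing A] [Algebra k K] [Algebra k A]
  [IsLocalRing A] [IsNoetherianRing A]

/-- Ideals of a module-finite algebra over a Noetherian local ring are closed. -/
theorem mem_of_forall_mem_sup {C : Type*} [CommRing C] [Algebra A C] [Module.Finite A C]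
    (J : Ideal C) (g : C)
    (h : ∀ n : ℕ, g ∈ J ⊔ ((IsLocalRing.maximalIdeal A).map (algebraMap A C)) ^ n) : g ∈ J := by
  haveI : IsHausdorff (IsLocalRing.maximalIdeal A) (C ⧸ J) := inferInstance
  rw [← Ideal.Quotient.eq_zero_iff_mem]
  refine IsHausdorff.haus this _ fun n => ?_
  rw [SModEq.zero]
  obtain ⟨a, ha, b, hb, hab⟩ := Submodule.mem_sup.1 (h n)
  rw [← hab, map_add, Ideal.Quotient.eq_zero_iff_mem.2 ha, zero_add]
  rw [← Ideal.map_pow] at hb
  refine Submodule.span_induction (p := fun b _ => Ideal.Quotient.mk J b ∈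
    ((IsLocalRing.maximalIdeal A) ^ n • ⊤ : Submodule A (C ⧸ J))) ?_ ?_ ?_ ?_ hb
  · rintro _ ⟨y, hy, rfl⟩
    have h1 : Ideal.Quotient.mk J (algebraMap A C y) = y • (1 : C ⧸ J) := by
      rw [Algebra.smul_def, mul_one]
      rfl
    rw [h1]
    exact Submodule.smul_mem_smul hy trivial
  · rw [map_zero]; exact Submodule.zero_mem _
  · intro x y _ _ hx hy
    rw [map_add]; exact Submodule.add_mem _ hx hy
  · intro c x _ hx
    rw [smul_eq_mul, map_mul]
    generalize Ideal.Quotient.mk J x = x' at hx
    refine Submodule.smul_induction_on (p := fun x' => Ideal.Quotient.mk J c * x' ∈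
      ((IsLocalRing.maximalIdeal A) ^ n • ⊤ : Submodule A (C ⧸ J))) hx ?_ ?_
    · intro a ha y _
      rw [mul_smul_comm]
      exact Submodule.smul_mem_smul ha trivial
    · intro x y hx hy
      rw [mul_add]; exact Submodule.add_mem _ hx hy

theorem closed_aux {L : Type*} [Field L] [Algebra k L] (i : L →ₐ[k] K)
    [FiniteDimensional k L]
    (S : Finset (A ⊗[k] K)) (g : A ⊗[k] K) (g' : A ⊗[k] L)
    (hg' : Algebra.TensorProduct.map (AlgHom.id k A) i g' = g)
    (hS : ∀ s ∈ S, ∃ s', Algebra.TensorProduct.map (AlgHom.id k A) i s' = s)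
    (hg : ∀ n : ℕ, g ∈ Ideal.span (S : Set (A ⊗[k] K)) ⊔
      ((IsLocalRing.maximalIdeal A).map (algebraMap A (A ⊗[k] K))) ^ n) :
    g ∈ Ideal.span (S : Set (A ⊗[k] K)) := by
  set j := Algebra.TensorProduct.map (AlgHom.id k A) i with hj
  let J : Ideal (A ⊗[k] L) := (Ideal.span (S : Set (A ⊗[k] K))).comap j
  have hJ : J.map j = Ideal.span (S : Set (A ⊗[k] K)) := by
    apply le_antisymm Ideal.map_comap_le
    rw [Ideal.span_le]
    intro s hs
    obtain ⟨s', hs'⟩ := hS s hs
    rw [← hs']
    apply Ideal.mem_map_of_mem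
    rw [Ideal.mem_comap, hs']
    exact Ideal.subset_span hs
  have hmI : ((IsLocalRing.maximalIdeal A).map (algebraMap A (A ⊗[k] L))).map j =
      (IsLocalRing.maximalIdeal A).map (algebraMap A (A ⊗[k] K)) := by
    apply le_antisymm
    · rw [Ideal.map_le_iff_le_comap, Ideal.map_le_iff_le_comap]
      intro a ha
      rw [Ideal.mem_comap, Ideal.mem_comap]
      have : j (algebraMap A (A ⊗[k] L) a) = algebraMap A (A ⊗[k] K) a := by
        rw [Algebra.TensorProduct.algebraMap_apply, Algebra.TensorProduct.algebraMap_apply,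
          hj, Algebra.TensorProduct.map_tmul, map_one]
        rfl
      rw [this]
      exact Ideal.mem_map_of_mem _ ha
    · rw [Ideal.map_le_iff_le_comap]
      intro a ha
      rw [Ideal.mem_comap]
      have : j (algebraMap A (A ⊗[k] L) a) = algebraMap A (A ⊗[k] K) a := by
        rw [Algebra.TensorProduct.algebraMap_apply, Algebra.TensorProduct.algebraMap_apply,
          hj, Algebra.TensorProduct.map_tmul, map_one]
        rfl
      rw [← this]
      exact Ideal.mem_map_of_mem _ (Ideal.mem_map_of_mem _ ha)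
  have h1 : ∀ n : ℕ, g' ∈ J ⊔ ((IsLocalRing.maximalIdeal A).map (algebraMap A (A ⊗[k] L))) ^ n := by
    intro n
    apply mem_of_map_mem i
    rw [← hj, Ideal.map_sup, hJ, Ideal.map_pow, hmI, hg']
    exact hg n
  have h2 := mem_of_forall_mem_sup J g' h1
  rw [← hg']
  exact h2

/-- If `A` is a Noetherian local ring with coefficient field `k` and `K/k` is algebraic, then
`A ⊗ K` is Noetherian. -/
theorem isNoetherianRing_tensor [Algebra.IsAlgebraic k K]
    (h : ∀ a : A, ∃ c : k, a - algebraMap k A c ∈ IsLocalRing.maximalIdeal A) :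
    IsNoetherianRing (A ⊗[k] K) := by
  classical
  set I : Ideal (A ⊗[k] K) :=
    (IsLocalRing.maximalIdeal A).map (algebraMap A (A ⊗[k] K)) with hI
  have hfg : I.FG := Ideal.FG.map (IsNoetherian.noetherian (IsLocalRing.maximalIdeal A)) _
  haveI : IsNoetherianRing (AdicCompletion I (A ⊗[k] K)) := by
    refine isNoetherianRing_adicCompletion
      ((Algebra.TensorProduct.includeRight : K →ₐ[k] A ⊗[k] K) : K →+* A ⊗[k] K) I hfg ?_
    intro b
    induction b with
    | zero => exact ⟨0, by simp⟩
    | add b b' hb hb' =>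
      obtain ⟨c, hc⟩ := hb
      obtain ⟨c', hc'⟩ := hb'
      refine ⟨c + c', ?_⟩
      rw [map_add]
      convert I.add_mem hc hc' using 1
      ring
    | tmul a c =>
      obtain ⟨s, hs⟩ := h a
      refine ⟨s • c, ?_⟩
      have h1 : ((Algebra.TensorProduct.includeRight : K →ₐ[k] A ⊗[k] K) : K →+* A ⊗[k] K)
          (s • c) = (algebraMap k A s) ⊗ₜ c := by
        change (1 : A) ⊗ₜ[k] (s • c) = _
        rw [← TensorProduct.smul_tmul, Algebra.smul_def, mul_one]
      rw [h1, ← TensorProduct.sub_tmul]
      have h2 : (a - algebraMap k A s) ⊗ₜ[k] c =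
          algebraMap A (A ⊗[k] K) (a - algebraMap k A s) * (1 ⊗ₜ c) := by
        rw [Algebra.TensorProduct.algebraMap_apply, Algebra.TensorProduct.tmul_mul_tmul]
        simp
      rw [h2]
      exact I.mul_mem_right _ (Ideal.mem_map_of_mem _ hs)
  apply isNoetherianRing_of_closed I
  intro S g hg
  obtain ⟨L, hL, hS⟩ := exists_mem_range_map (insert g S)
  obtain ⟨g', hg'⟩ := hS g (Finset.mem_insert_self _ _)
  exact closed_aux L.val S g g' hg' (fun s hs => hS s (Finset.mem_insert_of_mem hs)) hg

end

end Pool.Agent.FrobDecomp
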