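import Pool.Agent.FrobDecomp.Descent
import Pool.Agent.FrobDecomp.Noeth

namespace Pool.Agent.FrobDecomp

set_option linter.unusedSectionVars false
set_option linter.style.haveILetI false

open scoped TensorProduct

section

universe u

variable {p : ℕ} [hp : Fact p.Prime] {A : Type u} [CommRing A] [IsLocalRing A] [CharP A p]

instance isPRadical_algebraMap (k : Subring A) :
    IsPRadical (algebraMap k (PerfectClosure k p)) p :=
  PerfectClosure.isPRadical k p

theorem isNoetherianRing_perfTensor [IsNoetherianRing A] {k : Subring A}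
    (hk : IsCoefficientField k) : IsNoetherianRing (PerfTensor p k) := by
  letI : Field k := (isField_of_bij hk).toField
  letI : Field (PerfectClosure k p) := (isField_of_pRadical (p := p)
    (algebraMap k (PerfectClosure k p)) (isField_of_bij hk)).toField
  haveI : Algebra.IsAlgebraic k (PerfectClosure k p) := by
    constructor
    intro x
    apply IsIntegral.isAlgebraic
    obtain ⟨n, y, hy⟩ := IsPRadical.pow_mem (algebraMap k (PerfectClosure k p)) p x
    apply IsIntegral.of_pow (pow_pos hp.out.pos n)
    rw [← hy]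
    exact isIntegral_algebraMap
  haveI := isNoetherianRing_tensor (k := k) (K := PerfectClosure k p) (A := A) (fun a =>
    ⟨toCoeff hk a, sub_toCoeff_mem hk a⟩)
  exact isNoetherianRing_of_ringEquiv _
    (Algebra.TensorProduct.comm k A (PerfectClosure k p)).toRingEquiv

/-- The main theorem for the coefficient field of a `GoodData`. -/
theorem GoodData.main [IsNoetherianRing A] (D : GoodData p A) :
    ∃ _ : IsLocalRing (PerfTensor p D.k), ∃ (B : Type u) (_ : CommRing B)
      (_ : Algebra (PerfTensor p D.k) B), Module.Finite (PerfTensor p D.k) B ∧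
        ∃ φ : AdicCompletion ((IsLocalRing.maximalIdeal (PerfTensor p D.k)).map
            (algebraMap (PerfTensor p D.k) B)) B ≃+*
          AdicCompletion (IsLocalRing.maximalIdeal (PerfTensor p D.k)) (PerfTensor p D.k),
          ∀ x, φ (completionMap (IsLocalRing.maximalIdeal (PerfTensor p D.k)) B x) = x ^ p := by
  letI iR : Algebra D.k1 D.R := D.algR
  letI iK : Algebra D.k1 (PerfectClosure D.k p) := D.algK _
  haveI hloc : IsLocalRing (PerfTensor p D.k) :=
    isLocalRing_tensor (p := p) D.bij (PerfectClosure D.k p)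
  have hmax : IsLocalRing.maximalIdeal (PerfTensor p D.k) =
      extIdeal (PerfectClosure D.k p) (IsLocalRing.maximalIdeal A) (k := D.k) :=
    maximalIdeal_tensor (p := p) D.bij (PerfectClosure D.k p)
  refine ⟨hloc, PerfectClosure D.k p ⊗[D.k1] D.R, inferInstance,
    (D.frobMap (PerfectClosure D.k p)).toAlgebra, D.frobMap_finite (PerfectClosure D.k p), ?_⟩
  rw [hmax]
  refine ⟨RingEquiv.ofBijective _ (D.bijective_mapCompl (PerfectClosure D.k p)), fun x => ?_⟩
  refine AdicCompletion.ext_evalₐ fun n => ?_
  obtain ⟨a, ha⟩ := Ideal.Quotient.mk_surjective (AdicCompletion.evalₐ _ n x)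
  have h1 := evalₐ_mapCompl (h := D.map_le_comap (PerfectClosure D.k p))
    (evalₐ_mapCompl (f := D.frobMap (PerfectClosure D.k p)) (h := Ideal.le_comap_map) ha.symm)
  refine h1.trans ?_
  rw [map_pow, ← ha, ← map_pow]
  congr 1
  exact D.inclMap_frobMap (PerfectClosure D.k p) a

/-- The full statement. -/
theorem frobenius_decompletes [IsNoetherianRing A]
    [IsAdicComplete (IsLocalRing.maximalIdeal A) A] :
    ∃ k : Subring A, IsCoefficientField k ∧ IsNoetherianRing (PerfTensor p k) ∧
      ∃ _ : IsLocalRing (PerfTensor p k), FrobeniusDecompletes p (PerfTensor p k) := by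
  obtain ⟨D⟩ := exists_goodData (p := p) (A := A)
  haveI hN : IsNoetherianRing (PerfTensor p D.k) := isNoetherianRing_perfTensor D.bij
  obtain ⟨hloc, B, hB, hAB, hfin, φ, hφ⟩ := D.main
  obtain ⟨Θ, hΘ⟩ := exists_tensor_compl (R := PerfTensor p D.k) (B := B)
    (IsLocalRing.maximalIdeal (PerfTensor p D.k))
  refine ⟨D.k, D.bij, hN, hloc, B, hB, hAB, hfin, ⟨φ, hφ⟩, Θ.trans φ, fun x => ?_⟩
  rw [RingEquiv.trans_apply, hΘ]
  exact hφ x

end

end Pool.Agent.FrobDecomp
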