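import Pool.Agent.FrobDecomp.Toral

namespace Pool.Agent.FrobDecomp

set_option linter.unusedSectionVars false
set_option linter.style.haveILetI false

section

variable {A : Type*} [CommRing A] (I : Ideal A)

/-- Additive operators raising the `I`-adic filtration by `n`. -/
def opFil (n : ℕ) : AddSubgroup (AddMonoid.End A) where
  carrier := {X | ∀ k, ∀ a ∈ I ^ k, X a ∈ I ^ (k + n)}
  add_mem' := by
    intro X Y hX hY k a ha
    exact (I ^ (k + n)).add_mem (hX k a ha) (hY k a ha)
  zero_mem' := by
    intro k a _
    exact (I ^ (k + n)).zero_mem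
  neg_mem' := by
    intro X hX k a ha
    exact (I ^ (k + n)).neg_mem (hX k a ha)

theorem mem_opFil {n : ℕ} {X : AddMonoid.End A} :
    X ∈ opFil I n ↔ ∀ k, ∀ a ∈ I ^ k, X a ∈ I ^ (k + n) := Iff.rfl

theorem eq_zero_of_forall_mem [IsHausdorff I A] {a : A} (h : ∀ n, a ∈ I ^ n) : a = 0 := by
  apply IsHausdorff.haus (I := I) inferInstance a
  intro n
  rw [SModEq.zero]
  simpa using h n

theorem exists_limit [IsPrecomplete I A] (f : ℕ → A) (h : ∀ k, f (k + 1) - f k ∈ I ^ k) :
    ∃ L, ∀ k, L - f k ∈ I ^ k := by
  have htel : ∀ {m n}, m ≤ n → f n - f m ∈ I ^ m := by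
    intro m n hmn
    induction n, hmn using Nat.le_induction with
    | base => simp
    | succ n hmn ih =>
      have : f (n + 1) - f m = (f (n + 1) - f n) + (f n - f m) := by ring
      rw [this]
      exact (I ^ m).add_mem (Ideal.pow_le_pow_right hmn (h n)) ih
  obtain ⟨L, hL⟩ := IsPrecomplete.prec (I := I) (M := A) inferInstance (f := f) (by
    intro m n hmn
    rw [SModEq.sub_mem]
    have := (I ^ m).neg_mem (htel hmn)
    simpa using this)
  refine ⟨L, fun k => ?_⟩
  have := hL k
  rw [SModEq.sub_mem] at this
  have := (I ^ k).neg_mem (by simpa using this : f k - L ∈ I ^ k)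
  simpa using this

theorem completeFil_opFil [IsAdicComplete I A] : CompleteFil (opFil I) where
  one_mem := by
    intro k a ha
    simpa using ha
  mul_mem := by
    intro m n X Y hX hY k a ha
    have := hX _ _ (hY k a ha)
    have e : k + (m + n) = k + n + m := by ring
    rw [e]
    exact this
  anti := by
    intro m n hmn X hX k a ha
    exact Ideal.pow_le_pow_right (by omega) (hX k a ha)
  sep := by
    intro X hX
    ext a
    apply eq_zero_of_forall_mem I
    intro n
    have := hX n 0 a (by simp)
    simpa using this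
  complete := by
    intro X hX0 hX
    have h1 : ∀ a, ∃ L, ∀ k, L - X k a ∈ I ^ k := by
      intro a
      apply exists_limit I (fun k => X k a)
      intro k
      have := hX k 0 a (by simp)
      rw [zero_add] at this
      exact this
    choose L hL using h1
    have hadd : ∀ a b, L (a + b) = L a + L b := by
      intro a b
      rw [← sub_eq_zero]
      apply eq_zero_of_forall_mem I
      intro n
      have e : L (a + b) - (L a + L b) =
          (L (a + b) - X n (a + b)) - ((L a - X n a) + (L b - X n b)) := by
        rw [map_add]; ring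
      rw [e]
      exact (I ^ n).sub_mem (hL _ n) ((I ^ n).add_mem (hL a n) (hL b n))
    let L' : AddMonoid.End A := AddMonoidHom.mk' L hadd
    refine ⟨L', fun k => ?_⟩
    intro j a ha
    have htel : ∀ n, k ≤ n → (X n - X k) a ∈ I ^ (j + k) := by
      intro n hkn
      induction n, hkn using Nat.le_induction with
      | base => simp
      | succ n hmn ih =>
        have e : (X (n + 1) - X k) a = (X (n + 1) - X n) a + (X n - X k) a := by
          show X (n + 1) a - X k a = (X (n + 1) a - X n a) + (X n a - X k a)
          ring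
        rw [e]
        refine (I ^ (j + k)).add_mem ?_ ih
        exact Ideal.pow_le_pow_right (by omega) (hX n j a ha)
    have e : (L' - X k) a = (L a - X (j + k) a) + (X (j + k) - X k) a := by
      show L a - X k a = (L a - X (j + k) a) + (X (j + k) a - X k a)
      ring
    rw [e]
    exact (I ^ (j + k)).add_mem (hL a (j + k)) (htel _ (by omega))

variable (A) in
/-- Derivations of `A` as additive operators. -/
def ders : AddSubgroup (AddMonoid.End A) where
  carrier := {X | ∀ a b, X (a * b) = a * X b + b * X a}
  add_mem' := by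
    intro X Y hX hY a b
    show X (a * b) + Y (a * b) = a * (X b + Y b) + b * (X a + Y a)
    rw [hX, hY]; ring
  zero_mem' := by
    intro a b
    show (0 : A) = a * 0 + b * 0
    ring
  neg_mem' := by
    intro X hX a b
    show -X (a * b) = a * (-X b) + b * (-X a)
    rw [hX]; ring

theorem mem_ders {X : AddMonoid.End A} : X ∈ ders A ↔ ∀ a b, X (a * b) = a * X b + b * X a :=
  Iff.rfl

theorem ders_iterate {X : AddMonoid.End A} (hX : X ∈ ders A) (n : ℕ) (a b : A) :
    (X ^ n) (a * b) = ∑ ij ∈ Finset.HasAntidiagonal.antidiagonal n,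
      (n.choose ij.1) • ((X ^ ij.1) a * (X ^ ij.2) b) := by
  induction n with
  | zero => simp
  | succ n ih =>
    rw [Finset.sum_antidiagonal_choose_succ_nsmul (fun i j => (X ^ i) a * (X ^ j) b) n,
      ← Finset.sum_add_distrib]
    have h1 : (X ^ (n + 1)) (a * b) = X ((X ^ n) (a * b)) := by
      rw [pow_succ']; rfl
    rw [h1, ih, map_sum]
    refine Finset.sum_congr rfl fun ij hij => ?_
    rw [Finset.HasAntidiagonal.mem_antidiagonal] at hij
    have h4 : n.choose ij.2 = n.choose ij.1 := by
      rw [← hij]; exact Nat.choose_symm_add.symm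
    rw [map_nsmul, hX, h4, ← smul_add]
    congr 1
    have h2 : X ((X ^ ij.2) b) = (X ^ (ij.2 + 1)) b := by rw [pow_succ']; rfl
    have h3 : X ((X ^ ij.1) a) = (X ^ (ij.1 + 1)) a := by rw [pow_succ']; rfl
    rw [h2, h3]
    ring

theorem natCast_end_eq_zero {p : ℕ} (hpA : (p : A) = 0) : ((p : ℕ) : AddMonoid.End A) = 0 := by
  ext x
  have : ((p : AddMonoid.End A)) x = p • x := AddMonoid.End.natCast_apply p x
  rw [this, nsmul_eq_mul, hpA, zero_mul]
  rfl

theorem derLike_ders [IsHausdorff I A] {p : ℕ} (hp : p.Prime) (hpA : (p : A) = 0) :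
    DerLike p (opFil I) (ders A) where
  br_mem := by
    intro X Y hX hY a b
    show X (Y (a * b)) - Y (X (a * b)) = a * (X (Y b) - Y (X b)) + b * (X (Y a) - Y (X a))
    rw [hX, hY, map_add, map_add, hX, hX, hY, hY]; ring
  pow_mem := by
    intro X hX a b
    rw [ders_iterate hX]
    have h1 : ∀ ij ∈ Finset.HasAntidiagonal.antidiagonal p, ij ∉ ({(p, 0), (0, p)} : Finset (ℕ × ℕ)) →
        (p.choose ij.1) • ((X ^ ij.1) a * (X ^ ij.2) b) = 0 := by
      intro ij hij hne
      rw [Finset.HasAntidiagonal.mem_antidiagonal] at hij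
      have h2 : ij.1 ≠ 0 := by
        intro h
        apply hne
        have : ij = (0, p) := by
          apply Prod.ext
          · exact h
          · show ij.2 = p
            omega
        rw [this]; simp
      have h3 : ij.1 ≠ p := by
        intro h
        apply hne
        have : ij = (p, 0) := by
          apply Prod.ext
          · exact h
          · show ij.2 = 0
            omega
        rw [this]; simp
      obtain ⟨c, hc⟩ := hp.dvd_choose_self h2 (by omega : ij.1 < p)
      rw [hc, nsmul_eq_mul, Nat.cast_mul, hpA]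
      ring
    have hsub : ({(p, 0), (0, p)} : Finset (ℕ × ℕ)) ⊆ Finset.HasAntidiagonal.antidiagonal p := by
      intro ij hij
      rw [Finset.HasAntidiagonal.mem_antidiagonal]
      rw [Finset.mem_insert, Finset.mem_singleton] at hij
      rcases hij with h | h <;> rw [h] <;> simp
    rw [← Finset.sum_subset hsub h1, Finset.sum_pair]
    · simp only [Nat.choose_self, Nat.choose_zero_right, one_smul, pow_zero]
      show (X ^ p) a * b + a * (X ^ p) b = _
      ring
    · intro h
      have := congrArg Prod.fst h
      exact hp.ne_zero this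
  closed := by
    intro X hX a b
    rw [← sub_eq_zero]
    apply eq_zero_of_forall_mem I
    intro n
    obtain ⟨Y, hY, hXY⟩ := hX n
    have h1 : ∀ c, (X - Y) c ∈ I ^ n := fun c => by
      have := hXY 0 c (by simp)
      rwa [zero_add] at this
    have h2 : ∀ c, X c = (X - Y) c + Y c := fun c => by
      show X c = (X c - Y c) + Y c
      ring
    have e : X (a * b) - (a * X b + b * X a) =
        (X - Y) (a * b) - (a * (X - Y) b + b * (X - Y) a) := by
      rw [h2 (a * b), h2 a, h2 b, hY a b]; ring
    rw [e]
    exact (I ^ n).sub_mem (h1 _) ((I ^ n).add_mem ((I ^ n).mul_mem_left _ (h1 _))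
      ((I ^ n).mul_mem_left _ (h1 _)))

/-- A derivation preserving `I` preserves all powers of `I`. -/
theorem ders_mem_opFil_zero {X : AddMonoid.End A} (hX : X ∈ ders A) (h : ∀ a ∈ I, X a ∈ I) :
    X ∈ opFil I 0 := by
  intro k
  induction k with
  | zero => intro a _; simp
  | succ k ih =>
    intro a ha
    rw [pow_succ] at ha
    rw [add_zero]
    refine Submodule.mul_induction_on ha ?_ ?_
    · intro x hx y hy
      rw [hX]
      have h1 : X x ∈ I ^ k := by simpa using ih x hx
      refine (I ^ (k + 1)).add_mem ?_ ?_
      · rw [pow_succ]; exact Ideal.mul_mem_mul hx (h y hy)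
      · rw [pow_succ']; exact Ideal.mul_mem_mul hy h1
    · intro x y hx hy
      rw [map_add]
      exact (I ^ (k + 1)).add_mem hx hy

/-- A derivation preserving `I` with image in `I ^ (n + 1)` raises the filtration by `n`. -/
theorem ders_mem_opFil {X : AddMonoid.End A} (hX : X ∈ ders A) {n : ℕ}
    (h : ∀ a, X a ∈ I ^ (n + 1)) : X ∈ opFil I n := by
  intro k
  induction k with
  | zero => intro a _; exact Ideal.pow_le_pow_right (by omega) (h a)
  | succ k ih =>
    intro a ha
    rw [pow_succ] at ha
    refine Submodule.mul_induction_on ha ?_ ?_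
    · intro x hx y hy
      rw [hX]
      refine (I ^ (k + 1 + n)).add_mem ?_ ?_
      · have : I ^ (k + 1 + n) = I ^ k * I ^ (n + 1) := by rw [← pow_add]; congr 1; ring
        rw [this]; exact Ideal.mul_mem_mul hx (h y)
      · have : I ^ (k + 1 + n) = I * I ^ (k + n) := by rw [← pow_succ']; congr 1; ring
        rw [this]; exact Ideal.mul_mem_mul hy (ih x hx)
    · intro x y hx hy
      rw [map_add]
      exact (I ^ (k + 1 + n)).add_mem hx hy

end

end Pool.Agent.FrobDecomp
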