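import Mathlib

namespace Pool.Agent.FrobDecomp

open Polynomial

section

variable (p : ℕ) {L : Type*}

/-- Exponent vectors supported in `S` with all entries `< p`. -/
def Mon (S : Set L) : Set (L →₀ ℕ) := {α | (∀ s ∈ α.support, s ∈ S) ∧ ∀ s, α s < p}

/-- The monomial with exponent vector `α`. -/
noncomputable def mon [CommMonoid L] (α : L →₀ ℕ) : L := α.prod (fun s n => s ^ n)

end

section

variable {p : ℕ} [hp : Fact p.Prime] {K L : Type*} [Field K] [Field L] [Algebra K L] [CharP L p]

set_option linter.unusedSectionVars false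

theorem mon_add (α β : L →₀ ℕ) : mon (α + β) = mon α * mon β := by
  classical
  exact Finsupp.prod_add_index' (fun _ => pow_zero _) (fun _ _ _ => pow_add _ _ _)

theorem mon_single (s : L) (n : ℕ) : mon (Finsupp.single s n) = s ^ n := by
  simp [mon]

/-- Existence of a maximal set with linearly independent reduced monomials. -/
theorem exists_maximal_indep : ∃ S : Set L, Maximal (fun S => LinearIndepOn K mon (Mon p S)) S := by
  refine zorn_subset {S : Set L | LinearIndepOn K mon (Mon p S)} ?_
  intro c hc hchain
  refine ⟨⋃₀ c, ?_, fun s hs => Set.subset_sUnion_of_mem hs⟩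
  rcases c.eq_empty_or_nonempty with rfl | hne
  · have : Mon p (⋃₀ (∅ : Set (Set L))) = {0} := by
      ext α
      constructor
      · rintro ⟨h1, -⟩
        simp only [Set.sUnion_empty, Set.mem_empty_iff_false, imp_false] at h1
        have : α.support = ∅ := by
          ext s; simpa using h1 s
        simpa using this
      · rintro rfl
        refine ⟨by simp, fun s => by simpa using hp.out.pos⟩
    show LinearIndepOn K mon (Mon p (⋃₀ (∅ : Set (Set L))))
    rw [this]
    refine LinearIndepOn.singleton ?_ 
    simp [mon]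
  · have key : Mon p (⋃₀ c) = ⋃₀ ((fun S => Mon p S) '' c) := by
      ext α
      constructor
      · rintro ⟨h1, h2⟩
        have : ∃ S ∈ c, (α.support : Set L) ⊆ S := by
          apply DirectedOn.exists_mem_subset_of_finset_subset_biUnion hne hchain.directedOn
          intro s hs
          have := h1 s hs
          simpa [Set.mem_sUnion] using this
        obtain ⟨S, hS, hsub⟩ := this
        exact ⟨_, ⟨S, hS, rfl⟩, ⟨fun s hs => hsub hs, h2⟩⟩
      · rintro ⟨_, ⟨S, hS, rfl⟩, h1, h2⟩
        exact ⟨fun s hs => ⟨S, hS, h1 s hs⟩, h2⟩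
    show LinearIndepOn K mon (Mon p (⋃₀ c))
    rw [key]
    apply linearIndepOn_sUnion_of_directed
    · rintro _ ⟨S, hS, rfl⟩ _ ⟨T, hT, rfl⟩
      rcases hchain.total hS hT with h | h
      · exact ⟨_, ⟨T, hT, rfl⟩, fun α hα => ⟨fun s hs => h (hα.1 s hs), hα.2⟩, subset_rfl⟩
      · exact ⟨_, ⟨S, hS, rfl⟩, subset_rfl, fun α hα => ⟨fun s hs => h (hα.1 s hs), hα.2⟩⟩
    · rintro _ ⟨S, hS, rfl⟩
      exact hc hS

theorem maximal_adjoin_eq_top (hK : ∀ x : L, ∃ y : K, algebraMap K L y = x ^ p) {S : Set L}
    (hS : Maximal (fun S => LinearIndepOn K mon (Mon p S)) S) :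
    Algebra.adjoin K S = ⊤ := by
  classical
  by_contra hne
  obtain ⟨c, hc⟩ : ∃ c : L, c ∉ Algebra.adjoin K S := by
    by_contra hcon
    push Not at hcon
    exact hne (eq_top_iff.2 fun x _ => hcon x)
  have hInt : ∀ x : L, IsIntegral K x := by
    intro x
    obtain ⟨y, hy⟩ := hK x
    refine ⟨X ^ p - C y, monic_X_pow_sub_C y hp.out.ne_zero, ?_⟩
    simp [hy]
  set M : IntermediateField K L := IntermediateField.adjoin K S with hM
  have hMadj : M.toSubalgebra = Algebra.adjoin K S :=
    IntermediateField.adjoin_toSubalgebra_of_isAlgebraic fun x _ => (hInt x).isAlgebraic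
  have hcM : c ∉ M := by
    intro h
    apply hc
    rw [← hMadj]
    exact h
  obtain ⟨a, ha⟩ := hK c
  set a' : M := algebraMap K M a with ha'
  have hirr : Irreducible (X ^ p - C a' : M[X]) := by
    apply X_pow_sub_C_irreducible_of_prime hp.out
    intro b hb
    apply hcM
    have h1 : (b : L) ^ p = c ^ p := by
      rw [← ha]
      have := congrArg (fun z : M => (z : L)) hb
      simpa [ha'] using this
    have h2 : (b : L) = c := by
      have := frobenius_inj L p
      exact this (by simpa [frobenius_def] using h1)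
    rw [← h2]
    exact b.2
  have hmin : minpoly M c = X ^ p - C a' := by
    refine (minpoly.eq_of_irreducible_of_monic hirr ?_ (monic_X_pow_sub_C _ hp.out.ne_zero)).symm
    simp [ha', ← ha]
  have hdeg : (minpoly M c).natDegree = p := by
    rw [hmin]; exact natDegree_X_pow_sub_C
  have hpow : LinearIndependent M (fun i : Fin p => c ^ (i : ℕ)) := by
    have := linearIndependent_pow (K := M) c
    rw [hdeg] at this
    exact this
  -- insert c S is again independent
  have hins : LinearIndepOn K mon (Mon p (insert c S)) := by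
    have hmem : ∀ α ∈ Mon p S, mon α ∈ M := by
      intro α hα
      unfold mon
      rw [Finsupp.prod]
      refine prod_mem fun s hs => pow_mem (IntermediateField.subset_adjoin K S (hα.1 s hs)) _
    let b : Mon p S → M := fun α => ⟨mon α.1, hmem α.1 α.2⟩
    have hb : LinearIndependent K b := by
      have h0 : LinearIndependent K (fun α : Mon p S => mon α.1) := hS.1
      exact LinearIndependent.of_comp M.val.toLinearMap h0
    have hprod := linearIndependent_smul hb hpow
    have hlt : ∀ α : Mon p (insert c S), α.1 c < p := fun α => α.2.2 c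
    let f : Mon p (insert c S) → Mon p S × Fin p := fun α =>
      (⟨α.1.erase c, by
        refine ⟨fun s hs => ?_, fun s => ?_⟩
        · rw [Finsupp.support_erase, Finset.mem_erase] at hs
          have := α.2.1 s hs.2
          rcases this with h | h
          · exact absurd h hs.1
          · exact h
        · by_cases h : s = c
          · subst h; simpa using hp.out.pos
          · rw [Finsupp.erase_ne h]; exact α.2.2 s⟩, ⟨α.1 c, hlt α⟩)
    have hf : Function.Injective f := by
      intro α β h
      have h1 : α.1.erase c = β.1.erase c := by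
        have := congrArg (fun z => (z.1 : L →₀ ℕ)) h
        exact this
      have h2 : α.1 c = β.1 c := by
        have := congrArg (fun z => (z.2 : ℕ)) h
        exact this
      apply Subtype.ext
      ext s
      by_cases hs : s = c
      · rw [hs]; exact h2
      · have := DFunLike.congr_fun h1 s
        rwa [Finsupp.erase_ne hs, Finsupp.erase_ne hs] at this
    have := hprod.comp f hf
    have heq : (fun α : Mon p (insert c S) => mon α.1) =
        (fun q : Mon p S × Fin p => b q.1 • c ^ (q.2 : ℕ)) ∘ f := by
      funext α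
      have h1 : α.1 = α.1.erase c + Finsupp.single c (α.1 c) := by
        rw [Finsupp.erase_add_single]
      show mon α.1 = (mon (α.1.erase c)) * c ^ (α.1 c)
      conv_lhs => rw [h1]
      rw [mon_add, mon_single]
    show LinearIndependent K (fun α : Mon p (insert c S) => mon α.1)
    rw [heq]
    exact this
  have hle := hS.2 hins (Set.subset_insert c S)
  exact hc (Algebra.subset_adjoin (hle (Set.mem_insert c S)))

/-- Every monomial over `S` is a scalar multiple of a reduced one. -/
theorem exists_red {S : Set L} (ε : L →₀ ℕ) (hε : ∀ s ∈ ε.support, s ∈ S) :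
    ∃ γ δ : L →₀ ℕ, (∀ s ∈ γ.support, s ∈ S) ∧ δ ∈ Mon p S ∧ ε = p • γ + δ := by
  refine ⟨ε.mapRange (· / p) (Nat.zero_div p), ε.mapRange (· % p) (Nat.zero_mod p), ?_,
    ⟨?_, ?_⟩, ?_⟩
  · intro s hs
    apply hε s
    rw [Finsupp.mem_support_iff] at hs ⊢
    intro h
    apply hs
    rw [Finsupp.mapRange_apply, h, Nat.zero_div]
  · intro s hs
    apply hε s
    rw [Finsupp.mem_support_iff] at hs ⊢
    intro h
    apply hs
    rw [Finsupp.mapRange_apply, h, Nat.zero_mod]
  · intro s
    rw [Finsupp.mapRange_apply]
    exact Nat.mod_lt _ hp.out.pos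
  · ext s
    simp only [Finsupp.coe_add, Finsupp.coe_smul, Pi.add_apply, Pi.smul_apply,
      Finsupp.mapRange_apply, smul_eq_mul]
    exact (Nat.div_add_mod _ _).symm

theorem prod_smul_pow {B : Type*} [CommMonoid B] (b : L → B) (γ : L →₀ ℕ) (n : ℕ) :
    (n • γ).prod (fun s k => b s ^ k) = γ.prod (fun s k => (b s ^ n) ^ k) := by
  classical
  rw [Finsupp.prod_of_support_subset (n • γ) (s := γ.support) Finsupp.support_smul _
    (fun _ _ => pow_zero _)]
  rw [Finsupp.prod]
  refine Finset.prod_congr rfl fun s _ => ?_
  simp [pow_mul]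

/-- The universal property of a field with a `p`-basis `S` over a subfield containing all
`p`-th powers. -/
theorem exists_lift_of_indep (hK : ∀ x : L, ∃ y : K, algebraMap K L y = x ^ p) {S : Set L}
    (hind : LinearIndepOn K mon (Mon p S)) (hgen : Algebra.adjoin K S = ⊤)
    {B : Type*} [CommRing B] [Algebra K B] (b : L → B)
    (hb : ∀ s ∈ S, ∀ a : K, algebraMap K L a = s ^ p → b s ^ p = algebraMap K B a) :
    ∃ g : L →ₐ[K] B, ∀ s ∈ S, g s = b s := by
  classical
  choose a ha using hK
  -- scalars
  have hA : ∀ γ : L →₀ ℕ, algebraMap K L (γ.prod fun s k => a s ^ k) = mon (p • γ) := by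
    intro γ
    unfold mon
    rw [prod_smul_pow (fun s => s), Finsupp.prod, Finsupp.prod, map_prod]
    refine Finset.prod_congr rfl fun s _ => ?_
    rw [map_pow, ha]
  have hAB : ∀ γ : L →₀ ℕ, (∀ s ∈ γ.support, s ∈ S) →
      algebraMap K B (γ.prod fun s k => a s ^ k) = (p • γ).prod (fun s k => b s ^ k) := by
    intro γ hγ
    rw [prod_smul_pow b, Finsupp.prod, Finsupp.prod, map_prod]
    refine Finset.prod_congr rfl fun s hs => ?_
    rw [map_pow, hb s (hγ s hs) (a s) (ha s)]
  have hspan' : ∀ ε : L →₀ ℕ, (∀ s ∈ ε.support, s ∈ S) →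
      mon ε ∈ Submodule.span K (Set.range fun α : Mon p S => mon α.1) := by
    intro ε hε
    obtain ⟨γ, δ, hγ, hδ, rfl⟩ := exists_red (p := p) ε hε
    rw [mon_add, ← hA, ← Algebra.smul_def]
    exact Submodule.smul_mem _ _ (Submodule.subset_span ⟨⟨δ, hδ⟩, rfl⟩)
  have hspan : ⊤ ≤ Submodule.span K (Set.range fun α : Mon p S => mon α.1) := by
    have h1 : (⊤ : Submodule K L) = Submodule.span K (Submonoid.closure S) := by
      rw [← Algebra.adjoin_eq_span, hgen]
      rfl
    rw [h1, Submodule.span_le]
    intro x hx
    have : ∃ ε : L →₀ ℕ, (∀ s ∈ ε.support, s ∈ S) ∧ x = mon ε := by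
      refine Submonoid.closure_induction (fun s hs => ?_) ?_ ?_ hx
      · refine ⟨Finsupp.single s 1, fun t ht => ?_, by rw [mon_single, pow_one]⟩
        have := Finsupp.support_single_subset ht
        rw [Finset.mem_singleton] at this
        rw [this]; exact hs
      · exact ⟨0, by simp, by simp [mon]⟩
      · rintro x y - - ⟨ε, hε, rfl⟩ ⟨ε', hε', rfl⟩
        refine ⟨ε + ε', fun s hs => ?_, (mon_add _ _).symm⟩
        have := Finsupp.support_add hs
        rw [Finset.mem_union] at this
        rcases this with h | h
        · exact hε s h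
        · exact hε' s h
    obtain ⟨ε, hε, rfl⟩ := this
    exact hspan' ε hε
  let e : Module.Basis (Mon p S) K L := Module.Basis.mk hind hspan
  have he : ∀ α : Mon p S, e α = mon α.1 := fun α => Module.Basis.mk_apply hind hspan α
  let g : L →ₗ[K] B := e.constr K (fun α : Mon p S => (α.1).prod fun s k => b s ^ k)
  have hgm : ∀ ε : L →₀ ℕ, (∀ s ∈ ε.support, s ∈ S) →
      g (mon ε) = ε.prod (fun s k => b s ^ k) := by
    intro ε hε
    obtain ⟨γ, δ, hγ, hδ, rfl⟩ := exists_red (p := p) ε hε
    rw [mon_add, ← hA, ← Algebra.smul_def, map_smul, Algebra.smul_def, hAB γ hγ]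
    rw [Finsupp.prod_add_index' (fun _ => pow_zero _) (fun _ _ _ => pow_add _ _ _)]
    congr 1
    have := e.constr_basis K (fun α : Mon p S => (α.1).prod fun s k => b s ^ k) ⟨δ, hδ⟩
    rw [he] at this
    exact this
  have hmul : ∀ x y, g (x * y) = g x * g y := by
    have h : (LinearMap.mul K L).compr₂ g = (LinearMap.mul K B).compl₁₂ g g := by
      refine e.ext fun α => e.ext fun β => ?_
      simp only [LinearMap.compr₂_apply, LinearMap.mul_apply', LinearMap.compl₁₂_apply, he]
      rw [← mon_add, hgm _ α.2.1, hgm _ β.2.1, hgm]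
      · exact Finsupp.prod_add_index' (fun _ => pow_zero _) (fun _ _ _ => pow_add _ _ _)
      · intro s hs
        have := Finsupp.support_add hs
        rw [Finset.mem_union] at this
        rcases this with h | h
        · exact α.2.1 s h
        · exact β.2.1 s h
    intro x y
    exact LinearMap.congr_fun₂ h x y
  have hone : g 1 = 1 := by
    have := hgm 0 (by simp)
    simpa [mon] using this
  refine ⟨AlgHom.ofLinearMap g hone hmul, fun s hs => ?_⟩
  have := hgm (Finsupp.single s 1) (fun t ht => by
    have := Finsupp.support_single_subset ht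
    rw [Finset.mem_singleton] at this
    rw [this]; exact hs)
  rw [mon_single, pow_one] at this
  simpa using this

end

end Pool.Agent.FrobDecomp
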