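import Pool.Agent.FrobDecomp.Lifting
import Pool.Agent.FrobDecomp.Ops

namespace Pool.Agent.FrobDecomp

set_option linter.unusedSectionVars false
set_option linter.style.haveILetI false

open MvPowerSeries

section

universe u

variable {κ : Type u} [Field κ] {A : Type u} [CommRing A] (I : Ideal A) [IsAdicComplete I A]
  {n : ℕ}

/-- evaluation of polynomials -/
noncomputable def evalPoly (σ : κ →+* A) (x : Fin n → A) : MvPolynomial (Fin n) κ →+* A :=
  MvPolynomial.eval₂Hom σ x

theorem map_idealOfVars_le (σ : κ →+* A) (x : Fin n → A) (hx : ∀ i, x i ∈ I) :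
    (MvPolynomial.idealOfVars (Fin n) κ).map (evalPoly σ x) ≤ I := by
  unfold MvPolynomial.idealOfVars
  rw [Ideal.map_span, Ideal.span_le]
  rintro _ ⟨_, ⟨i, rfl⟩, rfl⟩
  show evalPoly σ x (MvPolynomial.X i) ∈ I
  simpa [evalPoly] using hx i

theorem idealOfVars_pow_le (σ : κ →+* A) (x : Fin n → A) (hx : ∀ i, x i ∈ I) (m : ℕ) :
    (MvPolynomial.idealOfVars (Fin n) κ) ^ m ≤ (I ^ m).comap (evalPoly σ x) := by
  rw [← Ideal.map_le_iff_le_comap, Ideal.map_pow]
  exact Ideal.pow_right_mono (map_idealOfVars_le I σ x hx) m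

/-- The presentation of a complete local ring by a power series ring. -/
theorem exists_presentation (σ : κ →+* A) (x : Fin n → A) (hx : Ideal.span (Set.range x) = I)
    (hσ : ∀ a : A, ∃ c : κ, a - σ c ∈ I) :
    ∃ π : MvPowerSeries (Fin n) κ →+* A, Function.Surjective π ∧
      (∀ c, π (C c) = σ c) ∧ (∀ i, π (X i) = x i) ∧
      (∀ m (f : MvPowerSeries (Fin n) κ), (∀ d : Fin n →₀ ℕ, d.degree < m → coeff d f = 0) →
        π f ∈ I ^ m) := by
  have hxI : ∀ i, x i ∈ I := fun i => by rw [← hx]; exact Ideal.subset_span ⟨i, rfl⟩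
  let f : (m : ℕ) → MvPowerSeries (Fin n) κ →+* A ⧸ I ^ m := fun m =>
    (Ideal.quotientMap (I ^ m) (evalPoly σ x) (idealOfVars_pow_le I σ x hxI m)).comp
      (truncTotalAlgHom (Fin n) κ m).toRingHom
  have hfapp : ∀ m g, f m g = Ideal.Quotient.mk (I ^ m) (evalPoly σ x (truncTotal m g)) := by
    intro m g
    show Ideal.quotientMap (I ^ m) (evalPoly σ x) (idealOfVars_pow_le I σ x hxI m)
      (truncTotalAlgHom (Fin n) κ m g) = _
    rw [truncTotalAlgHom_apply, Ideal.quotientMap_mk]
  have hcomp : ∀ {l m : ℕ} (hle : l ≤ m), (Ideal.Quotient.factorPow I hle).comp (f m) = f l := by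
    intro l m hle
    ext g
    rw [RingHom.comp_apply, hfapp, hfapp]
    show Ideal.Quotient.factor _ (Ideal.Quotient.mk (I ^ m) _) = _
    rw [Ideal.Quotient.factor_mk, Ideal.Quotient.mk_eq_mk_iff_sub_mem, ← map_sub]
    exact idealOfVars_pow_le I σ x hxI l
      (truncTotal_sub_truncTotal_mem_pow_idealOfVars hle le_rfl g)
  let π : MvPowerSeries (Fin n) κ →+* A := IsAdicComplete.liftRingHom I f hcomp
  have hπ : ∀ m g, π g - evalPoly σ x (truncTotal m g) ∈ I ^ m := by
    intro m g
    rw [← Ideal.Quotient.mk_eq_mk_iff_sub_mem, ← hfapp]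
    exact IsAdicComplete.mk_liftRingHom I f hcomp m g
  have hcoe : ∀ q : MvPolynomial (Fin n) κ, π (q : MvPowerSeries (Fin n) κ) = evalPoly σ x q := by
    intro q
    rw [← sub_eq_zero]
    apply eq_zero_of_forall_mem I
    intro m
    have h1 := hπ m q
    have h2 : truncTotal m (q : MvPowerSeries (Fin n) κ) - q ∈
        MvPolynomial.idealOfVars (Fin n) κ ^ m := by
      rw [MvPolynomial.mem_pow_idealOfVars_iff']
      intro d hd
      rw [MvPolynomial.coeff_sub, sub_eq_zero, coeff_truncTotal _ hd, MvPolynomial.coeff_coe]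
    have h3 := idealOfVars_pow_le I σ x hxI m h2
    rw [Ideal.mem_comap, map_sub] at h3
    have := (I ^ m).add_mem h1 h3
    simpa using this
  have hC : ∀ c, π (C c) = σ c := by
    intro c
    have := hcoe (MvPolynomial.C c)
    rw [MvPolynomial.coe_C] at this
    rw [this]
    simp [evalPoly]
  have hX : ∀ i, π (X i) = x i := by
    intro i
    have := hcoe (MvPolynomial.X i)
    rw [MvPolynomial.coe_X] at this
    rw [this]
    simp [evalPoly]
  have hmap : (Ideal.span (Set.range (X : Fin n → MvPowerSeries (Fin n) κ))).map π = I := by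
    rw [Ideal.map_span, ← hx]
    congr 1
    ext a
    constructor
    · rintro ⟨_, ⟨i, rfl⟩, rfl⟩
      exact ⟨i, (hX i).symm⟩
    · rintro ⟨i, rfl⟩
      exact ⟨_, ⟨i, rfl⟩, hX i⟩
  refine ⟨π, ?_, hC, hX, ?_⟩
  · haveI : IsHausdorff ((Ideal.span (Set.range (X : Fin n → MvPowerSeries (Fin n) κ))).map π)
        A := by rw [hmap]; infer_instance
    apply surjective_of_mk_map_comp_surjective
      (I := Ideal.span (Set.range (X : Fin n → MvPowerSeries (Fin n) κ)))
    intro a
    obtain ⟨a, rfl⟩ := Ideal.Quotient.mk_surjective a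
    obtain ⟨c, hc⟩ := hσ a
    refine ⟨C c, ?_⟩
    rw [RingHom.comp_apply, Ideal.Quotient.mk_eq_mk_iff_sub_mem, hmap, hC]
    have := I.neg_mem hc
    simpa using this
  · intro m g hg
    have h1 : truncTotal m g = 0 := by
      ext d
      rw [coeff_truncTotal_eq_ite]
      split_ifs with h
      · rw [hg d h]; simp
      · simp
    have := hπ m g
    rw [h1, map_zero, sub_zero] at this
    exact this

end

section

variable {κ : Type*} [Field κ] {n : ℕ}

/-- Coefficientwise action of a derivation on power series. -/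
noncomputable def coeffDer (E : Derivation ℤ κ κ) :
    MvPowerSeries (Fin n) κ →+ MvPowerSeries (Fin n) κ where
  toFun f := fun d => E (coeff d f)
  map_zero' := by
    ext d
    show E (coeff d 0) = coeff d 0
    simp
  map_add' f g := by
    ext d
    show E (coeff d (f + g)) = E (coeff d f) + E (coeff d g)
    simp

theorem coeff_coeffDer (E : Derivation ℤ κ κ) (f : MvPowerSeries (Fin n) κ) (d : Fin n →₀ ℕ) :
    coeff d (coeffDer E f) = E (coeff d f) := rfl

theorem coeffDer_mul (E : Derivation ℤ κ κ) (f g : MvPowerSeries (Fin n) κ) :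
    coeffDer E (f * g) = f * coeffDer E g + g * coeffDer E f := by
  classical
  rw [mul_comm g]
  ext d
  rw [coeff_coeffDer, coeff_mul, map_sum, map_add, coeff_mul, coeff_mul, ← Finset.sum_add_distrib]
  refine Finset.sum_congr rfl fun q _ => ?_
  rw [Derivation.leibniz, coeff_coeffDer, coeff_coeffDer, smul_eq_mul, smul_eq_mul]
  ring

theorem coeffDer_C (E : Derivation ℤ κ κ) (c : κ) :
    coeffDer E (C c : MvPowerSeries (Fin n) κ) = C (E c) := by
  classical
  ext d
  rw [coeff_coeffDer, coeff_C, coeff_C]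
  split_ifs <;> simp

theorem coeffDer_X (E : Derivation ℤ κ κ) (i : Fin n) :
    coeffDer E (X i : MvPowerSeries (Fin n) κ) = 0 := by
  classical
  ext d
  rw [coeff_coeffDer, coeff_X]
  split_ifs <;> simp

end

section

variable {P A : Type*} [CommRing P] [CommRing A]

/-- Descend a derivation along a surjection. -/
theorem exists_descend (π : P →+* A) (hπ : Function.Surjective π) (δ : P →+ A)
    (hδ : ∀ f g, δ (f * g) = π f * δ g + π g * δ f) (G : Set P)
    (hG : Ideal.span G = RingHom.ker π) (h0 : ∀ g ∈ G, δ g = 0) :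
    ∃ D ∈ ders A, ∀ f, D (π f) = δ f := by
  have hker : ∀ f, π f = 0 → δ f = 0 := by
    intro f hf
    have hf' : f ∈ Ideal.span G := by rw [hG]; exact hf
    refine Submodule.span_induction (p := fun f _ => δ f = 0) (fun g hg => h0 g hg) ?_ ?_ ?_ hf'
    · exact map_zero δ
    · intro a b _ _ ha hb; rw [map_add, ha, hb, add_zero]
    · intro a b hb hb'
      have : π b = 0 := by
        have : b ∈ RingHom.ker π := by rw [← hG]; exact hb
        exact this
      rw [smul_eq_mul, hδ, hb', this]; ring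
  have hwd : ∀ f g, π f = π g → δ f = δ g := by
    intro f g h
    rw [← sub_eq_zero, ← map_sub]
    apply hker
    rw [map_sub, h, sub_self]
  let s := Function.surjInv hπ
  have hs : ∀ a, π (s a) = a := Function.surjInv_eq hπ
  let D : AddMonoid.End A := AddMonoidHom.mk' (fun a => δ (s a)) (by
    intro a b
    rw [← map_add]
    apply hwd
    rw [hs, map_add, hs, hs])
  have hD : ∀ f, D (π f) = δ f := fun f => hwd _ _ (hs _)
  refine ⟨D, ?_, hD⟩
  intro a b
  obtain ⟨f, rfl⟩ := hπ a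
  obtain ⟨g, rfl⟩ := hπ b
  rw [← map_mul, hD, hδ, hD, hD]

end

section

variable {A : Type*} [CommRing A] [IsNoetherianRing A] (I : Ideal A) [IsHausdorff I A]

theorem mem_smul_top_of_forall {r : ℕ} {m : ℕ} {u : Fin r → A} (h : ∀ i, u i ∈ I ^ m) :
    u ∈ (I ^ m • ⊤ : Submodule A (Fin r → A)) := by
  classical
  have : u = ∑ i, u i • (Pi.single i (1 : A) : Fin r → A) := by
    ext j
    simp [Finset.sum_apply, Pi.single_apply]
  rw [this]
  exact Submodule.sum_mem _ fun i _ => Submodule.smul_mem_smul (h i) trivial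

/-- Uniformly small coefficients expressing a family tending to zero by finitely many
of its members (Noetherianity and Artin–Rees). -/
theorem exists_small_coeffs {S : Type*} {n r : ℕ} (u : S → (Fin r → A))
    (v : Fin n → (Fin r → A)) :
    ∃ (T₀ : Finset S) (a : S → S → A) (b : S → Fin n → A) (c : ℕ),
      (∀ s, u s = ∑ l ∈ T₀, a s l • u l + ∑ i, b s i • v i) ∧
      ∀ s m, (∀ i, u s i ∈ I ^ (m + c)) → (∀ l, a s l ∈ I ^ m) ∧ ∀ i, b s i ∈ I ^ m := by
  classical
  set N : Submodule A (Fin r → A) := Submodule.span A (Set.range u ∪ Set.range v) with hN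
  obtain ⟨s', hs', hspan⟩ := (Submodule.fg_span_iff_fg_span_finset_subset
    (Set.range u ∪ Set.range v)).1 (IsNoetherian.noetherian N)
  -- a finite set of indices
  have hT : ∃ T₀ : Finset S, ∀ y ∈ s', y ∈ Set.range u → ∃ l ∈ T₀, u l = y := by
    have : ∀ y : Fin r → A, ∃ l : Option S, y ∈ Set.range u → ∃ l' : S, l = some l' ∧ u l' = y := by
      intro y
      by_cases hy : y ∈ Set.range u
      · obtain ⟨l, hl⟩ := hy
        exact ⟨some l, fun _ => ⟨l, rfl, hl⟩⟩
      · exact ⟨none, fun h => absurd h hy⟩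
    choose L hL using this
    refine ⟨(s'.image L).eraseNone, fun y hy hyu => ?_⟩
    obtain ⟨l', h1, h2⟩ := hL y hyu
    refine ⟨l', ?_, h2⟩
    rw [Finset.mem_eraseNone, ← h1]
    exact Finset.mem_image_of_mem _ hy
  obtain ⟨T₀, hT₀⟩ := hT
  let w : T₀ ⊕ Fin n → (Fin r → A) := Sum.elim (fun l => u l) v
  have hNw : N = Submodule.span A (Set.range w) := by
    apply le_antisymm
    · rw [hN, hspan, Submodule.span_le]
      intro y hy
      rcases hs' hy with h | h
      · obtain ⟨l, hl, hly⟩ := hT₀ y hy h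
        exact Submodule.subset_span ⟨Sum.inl ⟨l, hl⟩, hly⟩
      · obtain ⟨i, hi⟩ := h
        exact Submodule.subset_span ⟨Sum.inr i, hi⟩
    · rw [Submodule.span_le]
      rintro _ ⟨(l | i), rfl⟩
      · exact Submodule.subset_span (Or.inl ⟨l, rfl⟩)
      · exact Submodule.subset_span (Or.inr ⟨i, rfl⟩)
  obtain ⟨c, hc⟩ := Ideal.exists_pow_inf_eq_pow_smul I N
  have key : ∀ y ∈ N, ∀ m, (∀ i, y i ∈ I ^ (m + c)) →
      ∃ a : T₀ ⊕ Fin n → A, (∀ x, a x ∈ I ^ m) ∧ ∑ x, a x • w x = y := by
    intro y hyN m hy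
    have h1 : y ∈ (I ^ (m + c) • ⊤ ⊓ N : Submodule A (Fin r → A)) :=
      ⟨mem_smul_top_of_forall I hy, hyN⟩
    rw [hc (m + c) (by omega), Nat.add_sub_cancel] at h1
    have h2 : y ∈ I ^ m • Submodule.span A (Set.range w) := by
      rw [← hNw]
      exact (Submodule.smul_mono le_rfl inf_le_right) h1
    rw [Submodule.mem_ideal_smul_span_iff_exists_sum] at h2
    obtain ⟨a, ha, hsum⟩ := h2
    refine ⟨a, ha, ?_⟩
    rw [← hsum, Finsupp.sum_fintype]
    intro i
    exact zero_smul _ _
  have key0 : ∀ y ∈ N, ∃ a : T₀ ⊕ Fin n → A, ∑ x, a x • w x = y := by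
    intro y hy
    rw [hNw, Submodule.mem_span_range_iff_exists_fun] at hy
    exact hy
  have huN : ∀ s, u s ∈ N := fun s => Submodule.subset_span (Or.inl ⟨s, rfl⟩)
  have main : ∀ s, ∃ a : T₀ ⊕ Fin n → A, ∑ x, a x • w x = u s ∧
      ∀ m, (∀ i, u s i ∈ I ^ (m + c)) → ∀ x, a x ∈ I ^ m := by
    intro s
    by_cases h0 : ∀ m i, u s i ∈ I ^ m
    · refine ⟨0, ?_, fun m _ x => (I ^ m).zero_mem⟩
      have : u s = 0 := by
        ext i
        exact eq_zero_of_forall_mem I fun m => h0 m i
      rw [this]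
      simp
    · push Not at h0
      have hex : ∃ m, ∃ i, u s i ∉ I ^ m := h0
      set m₀ := Nat.find hex with hm₀
      obtain ⟨i₀, hi₀⟩ := Nat.find_spec hex
      have hpos : 0 < m₀ := by
        rcases Nat.eq_zero_or_pos m₀ with h | h
        · rw [← hm₀, h] at hi₀
          simp at hi₀
        · exact h
      have hlt : ∀ m, m < m₀ → ∀ i, u s i ∈ I ^ m := by
        intro m hm i
        by_contra hcon
        exact Nat.find_min hex hm ⟨i, hcon⟩
      have hge : ∀ m, (∀ i, u s i ∈ I ^ m) → m < m₀ := by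
        intro m hm
        by_contra hcon
        exact hi₀ (Ideal.pow_le_pow_right (not_lt.1 hcon) (hm i₀))
      by_cases hcm : c ≤ m₀ - 1
      · obtain ⟨a, ha, hsum⟩ := key (u s) (huN s) (m₀ - 1 - c) (by
          intro i
          have : m₀ - 1 - c + c = m₀ - 1 := by omega
          rw [this]
          exact hlt _ (by omega) i)
        refine ⟨a, hsum, fun m hm x => ?_⟩
        have := hge _ hm
        exact Ideal.pow_le_pow_right (by omega) (ha x)
      · obtain ⟨a, hsum⟩ := key0 (u s) (huN s)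
        refine ⟨a, hsum, fun m hm x => ?_⟩
        have := hge _ hm
        omega
  choose a ha ham using main
  refine ⟨T₀, fun s l => if h : l ∈ T₀ then a s (Sum.inl ⟨l, h⟩) else 0,
    fun s i => a s (Sum.inr i), c, ?_, ?_⟩
  · intro s
    conv_lhs => rw [← ha s]
    rw [Fintype.sum_sum_type]
    congr 1
    rw [← Finset.sum_coe_sort T₀]
    refine Finset.sum_congr rfl fun l _ => ?_
    show a s (Sum.inl l) • u l =
      (if h : (l : S) ∈ T₀ then a s (Sum.inl ⟨l, h⟩) else 0) • u l
    rw [dif_pos l.2]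
  · intro s m hm
    refine ⟨fun l => ?_, fun i => ham s m hm _⟩
    by_cases h : l ∈ T₀
    · simp only [h, dif_pos]
      exact ham s m hm _
    · simp only [h]
      exact (I ^ m).zero_mem

end

section

universe u

variable {p : ℕ} [hp : Fact p.Prime] {κ : Type u} [Field κ] [CharP κ p] {A : Type u}
  [CommRing A] [IsNoetherianRing A] (I : Ideal A) [IsAdicComplete I A] {n : ℕ}

theorem exists_corrected {S : Set κ} (hS : IsPBasis p κ S) (σ : κ →+* A) (x : Fin n → A)
    (hx : Ideal.span (Set.range x) = I) (hσ : ∀ a : A, ∃ c : κ, a - σ c ∈ I) :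
    ∃ (T : Finset S) (D : S → AddMonoid.End A),
      (∀ s, D s ∈ ders A) ∧
      (∀ s, s ∉ T → D s (σ s) = σ s) ∧
      (∀ s, s ∉ T → ∀ s', s' ∉ T → s' ≠ s → D s (σ s') = 0) ∧
      (∀ s, s ∉ T → ∀ l ∈ T, D s (σ l) ∈ I ^ 2) ∧
      (∀ s, s ∉ T → ∀ i, D s (x i) ∈ I ^ 2) ∧
      (∀ m, {s | s ∉ T ∧ ¬ ((∀ l ∈ T, D s (σ l) ∈ I ^ m) ∧ ∀ i, D s (x i) ∈ I ^ m)}.Finite) := by
  classical
  have hE0 : ∀ s : S, ∃ E : Derivation ℤ κ κ, E s = s ∧ ∀ s' ∈ S, s' ≠ s → E s' = 0 :=
    fun s => hS.exists_euler s s.2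
  choose E hEs hE using hE0
  have hEne : ∀ s s' : S, s' ≠ s → E s s' = 0 := fun s s' h =>
    hE s s' s'.2 (fun h' => h (Subtype.ext h'))
  have hEfin := hS.finite_ne_zero E hEne
  obtain ⟨π, hπs, hπC, hπX, hπm⟩ := exists_presentation I σ x hx hσ
  obtain ⟨r, f, hf⟩ := Submodule.fg_iff_exists_fin_generating_family.1
    (IsNoetherian.noetherian (RingHom.ker π))
  let u : S → (Fin r → A) := fun s i => π (coeffDer (E s) (f i))
  let v : Fin n → (Fin r → A) := fun j i => π (pderiv κ j (f i))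
  have hufin : ∀ m, {s | ∃ i, u s i ∉ I ^ m}.Finite := by
    intro m
    have hfin : (⋃ i : Fin r, ⋃ d ∈ {d : Fin n →₀ ℕ | d.degree < m},
        {s : S | E s (coeff d (f i)) ≠ 0}).Finite := by
      refine Set.finite_iUnion fun i => ?_
      exact (Finsupp.finite_of_degree_lt m).biUnion fun d _ => hEfin _
    refine hfin.subset ?_
    rintro s ⟨i, hi⟩
    by_contra hcon
    apply hi
    apply hπm
    intro d hd
    rw [coeff_coeffDer]
    by_contra hne
    apply hcon
    rw [Set.mem_iUnion]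
    refine ⟨i, ?_⟩
    rw [Set.mem_iUnion₂]
    exact ⟨d, hd, hne⟩
  obtain ⟨T₀, a, b, c, hu, hsmall⟩ := exists_small_coeffs I u v
  have hTfin : {s | ∃ i, u s i ∉ I ^ (2 + c)}.Finite := hufin (2 + c)
  let T : Finset S := T₀ ∪ hTfin.toFinset
  have hT₀ : ∀ s, s ∉ T → s ∉ T₀ := fun s hs h => hs (Finset.mem_union_left _ h)
  have hT₁ : ∀ s, s ∉ T → ∀ i, u s i ∈ I ^ (2 + c) := by
    intro s hs i
    by_contra h
    apply hs
    apply Finset.mem_union_right
    rw [Set.Finite.mem_toFinset]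
    exact ⟨i, h⟩
  let δ : S → (MvPowerSeries (Fin n) κ →+ A) := fun s => AddMonoidHom.mk'
    (fun g => π (coeffDer (E s) g) - ∑ l ∈ T₀, a s l * π (coeffDer (E l) g)
      - ∑ j, b s j * π (pderiv κ j g)) (by
      intro g g'
      simp only [map_add, mul_add, Finset.sum_add_distrib]
      ring)
  have hδapp : ∀ s g, δ s g = π (coeffDer (E s) g) - ∑ l ∈ T₀, a s l * π (coeffDer (E l) g)
      - ∑ j, b s j * π (pderiv κ j g) := fun s g => rfl
  have hδmul : ∀ s g g', δ s (g * g') = π g * δ s g' + π g' * δ s g := by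
    intro s g g'
    rw [hδapp, hδapp, hδapp, coeffDer_mul]
    have h1 : ∑ l ∈ T₀, a s l * π (coeffDer (E l) (g * g')) =
        π g * ∑ l ∈ T₀, a s l * π (coeffDer (E l) g') +
        π g' * ∑ l ∈ T₀, a s l * π (coeffDer (E l) g) := by
      rw [Finset.mul_sum, Finset.mul_sum, ← Finset.sum_add_distrib]
      refine Finset.sum_congr rfl fun l _ => ?_
      rw [coeffDer_mul, map_add, map_mul, map_mul]
      ring
    have h2 : ∑ j, b s j * π (pderiv κ j (g * g')) =
        π g * ∑ j, b s j * π (pderiv κ j g') + π g' * ∑ j, b s j * π (pderiv κ j g) := by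
      rw [Finset.mul_sum, Finset.mul_sum, ← Finset.sum_add_distrib]
      refine Finset.sum_congr rfl fun l _ => ?_
      rw [Derivation.leibniz, map_add, smul_eq_mul, smul_eq_mul, map_mul, map_mul]
      ring
    rw [h1, h2, map_add, map_mul, map_mul]
    ring
  have hδf : ∀ s i, δ s (f i) = 0 := by
    intro s i
    rw [hδapp]
    have := congrFun (hu s) i
    simp only [Pi.add_apply, Finset.sum_apply, Pi.smul_apply, smul_eq_mul] at this
    show u s i - ∑ l ∈ T₀, a s l * u l i - ∑ j, b s j * v j i = 0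
    rw [this]
    ring
  have hD : ∀ s, ∃ D ∈ ders A, ∀ g, D (π g) = δ s g := fun s =>
    exists_descend π hπs (δ s) (hδmul s) (Set.range f) hf (by rintro _ ⟨i, rfl⟩; exact hδf s i)
  choose D hDd hDπ using hD
  have hDσ : ∀ s (c : κ), D s (σ c) = σ (E s c) - ∑ l ∈ T₀, a s l * σ (E l c) := by
    intro s c
    rw [← hπC, hDπ, hδapp]
    simp only [coeffDer_C, hπC, pderiv_C, map_zero, mul_zero, Finset.sum_const_zero, sub_zero]
  have hDx : ∀ s i, D s (x i) = - b s i := by
    intro s i
    rw [← hπX, hDπ, hδapp]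
    simp only [coeffDer_X, map_zero, mul_zero, Finset.sum_const_zero, sub_zero, zero_sub]
    rw [Finset.sum_eq_single i]
    · rw [pderiv_X_self, map_one, mul_one]
    · intro j _ hj
      rw [pderiv_X_of_ne (Ne.symm hj), map_zero, mul_zero]
    · intro h; exact absurd (Finset.mem_univ i) h
  have hDl : ∀ s, s ∉ T → ∀ l ∈ T, ∀ m, (∀ l', a s l' ∈ I ^ m) → D s (σ l) ∈ I ^ m := by
    intro s hs l hl m hm
    have hne : l ≠ s := fun h => hs (h ▸ hl)
    rw [hDσ, hEne s l hne, map_zero, zero_sub]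
    refine (I ^ m).neg_mem (Ideal.sum_mem _ fun l' _ => (I ^ m).mul_mem_right _ (hm l'))
  have h1 : ∀ s s' : S, s' ∉ T → ∑ l ∈ T₀, a s l * σ (E l s') = 0 := by
    intro s s' hs'
    refine Finset.sum_eq_zero fun l hl => ?_
    have : s' ≠ l := fun h => hT₀ s' hs' (h ▸ hl)
    rw [hEne l s' this, map_zero, mul_zero]
  refine ⟨T, D, hDd, ?_, ?_, ?_, ?_, ?_⟩
  · intro s hs
    rw [hDσ, h1 s s hs, sub_zero, hEs]
  · intro s hs s' hs' hne
    rw [hDσ, h1 s s' hs', sub_zero, hEne s s' hne, map_zero]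
  · intro s hs l hl
    exact hDl s hs l hl 2 (hsmall s 2 (hT₁ s hs)).1
  · intro s hs i
    rw [hDx]
    exact (I ^ 2).neg_mem ((hsmall s 2 (hT₁ s hs)).2 i)
  · intro m
    refine (hufin (m + c)).subset ?_
    rintro s ⟨hs, hneg⟩
    by_contra hcon
    apply hneg
    have hall : ∀ i, u s i ∈ I ^ (m + c) := by
      intro i
      by_contra h
      exact hcon ⟨i, h⟩
    have := hsmall s m hall
    refine ⟨fun l hl => hDl s hs l hl m this.1, fun i => ?_⟩
    rw [hDx]
    exact (I ^ m).neg_mem (this.2 i)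

end

end Pool.Agent.FrobDecomp
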