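import Mathlib

namespace Pool.Agent.FrobDecomp

set_option linter.unusedSectionVars false
set_option linter.style.haveILetI false

/-- A complete separated (descending, multiplicative) filtration on a ring. -/
structure CompleteFil {𝓡 : Type*} [Ring 𝓡] (F : ℕ → AddSubgroup 𝓡) : Prop where
  one_mem : (1 : 𝓡) ∈ F 0
  mul_mem : ∀ {m n : ℕ} {x y : 𝓡}, x ∈ F m → y ∈ F n → x * y ∈ F (m + n)
  anti : ∀ {m n : ℕ}, m ≤ n → F n ≤ F m
  sep : ∀ x : 𝓡, (∀ n, x ∈ F n) → x = 0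
  complete : ∀ X : ℕ → 𝓡, (∀ k, X k ∈ F 0) → (∀ k, X (k + 1) - X k ∈ F k) →
    ∃ L, ∀ k, L - X k ∈ F k

namespace CompleteFil

variable {𝓡 : Type*} [Ring 𝓡] {F : ℕ → AddSubgroup 𝓡} (hF : CompleteFil F)
include hF

theorem mul_left {n : ℕ} {x y : 𝓡} (hx : x ∈ F 0) (hy : y ∈ F n) : x * y ∈ F n := by
  simpa using hF.mul_mem hx hy

theorem mul_right {n : ℕ} {x y : 𝓡} (hx : x ∈ F n) (hy : y ∈ F 0) : x * y ∈ F n := by
  simpa using hF.mul_mem hx hy

theorem mem_zero {n : ℕ} {x : 𝓡} (hx : x ∈ F n) : x ∈ F 0 := hF.anti (Nat.zero_le n) hx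

theorem pow_mem {n : ℕ} {x : 𝓡} (hx : x ∈ F n) (k : ℕ) : x ^ k ∈ F (k * n) := by
  induction k with
  | zero => simpa using hF.one_mem
  | succ k ih =>
    rw [pow_succ, Nat.succ_mul]
    exact hF.mul_mem ih hx

theorem pow_mem_zero {x : 𝓡} (hx : x ∈ F 0) (k : ℕ) : x ^ k ∈ F 0 := by
  simpa using hF.pow_mem hx k

/-- congruence of powers -/
theorem pow_sub_pow_mem {n : ℕ} {x y : 𝓡} (hx : x ∈ F 0) (hy : y ∈ F 0) (h : x - y ∈ F n)
    (k : ℕ) : x ^ k - y ^ k ∈ F n := by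
  induction k with
  | zero => simp
  | succ k ih =>
    have : x ^ (k + 1) - y ^ (k + 1) = (x ^ k - y ^ k) * x + y ^ k * (x - y) := by
      rw [pow_succ, pow_succ]; noncomm_ring
    rw [this]
    exact (F n).add_mem (hF.mul_right ih hx) (hF.mul_left (hF.pow_mem_zero hy k) h)

end CompleteFil

/-- commutator -/
def br {𝓡 : Type*} [Ring 𝓡] (E X : 𝓡) : 𝓡 := E * X - X * E

section

variable {𝓡 : Type*} [Ring 𝓡]

theorem br_iterate_prime {p : ℕ} (hp : p.Prime) (h0 : (p : 𝓡) = 0) (E X : 𝓡) :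
    (br E)^[p] X = E ^ p * X - X * E ^ p := by
  haveI : Fact p.Prime := ⟨hp⟩
  rcases subsingleton_or_nontrivial 𝓡 with hs | hn
  · exact Subsingleton.elim _ _
  let S := AddMonoid.End 𝓡
  have hS : (p : S) = 0 := by
    ext x
    have : ((p : S)) x = p • x := AddMonoid.End.natCast_apply p x
    rw [this, nsmul_eq_mul, h0, zero_mul]
    rfl
  haveI : Nontrivial S := ⟨⟨0, 1, fun h => by
    have h1 : (0 : 𝓡) = 1 := DFunLike.congr_fun h (1 : 𝓡)
    exact zero_ne_one h1⟩⟩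
  haveI : CharP S p := (CharP.charP_iff_prime_eq_zero hp).2 hS
  let Lm : S := AddMonoidHom.mulLeft E
  let Rm : S := AddMonoidHom.mulRight E
  have hc : Commute Lm Rm := by
    ext x
    show E * (x * E) = (E * x) * E
    rw [mul_assoc]
  have h1 := sub_pow_char_of_commute p hc
  have h2 : ∀ n : ℕ, ∀ x : 𝓡, ((Lm - Rm) ^ n) x = (br E)^[n] x := by
    intro n
    induction n with
    | zero => intro x; rfl
    | succ n ih =>
      intro x
      rw [pow_succ, Function.iterate_succ_apply, ← ih]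
      rfl
  have h3 : ∀ n : ℕ, ∀ x : 𝓡, (Lm ^ n) x = E ^ n * x := by
    intro n
    induction n with
    | zero => intro x; rw [pow_zero, pow_zero, one_mul]; rfl
    | succ n ih =>
      intro x
      rw [pow_succ, pow_succ, mul_assoc, ← ih]
      rfl
  have h4 : ∀ n : ℕ, ∀ x : 𝓡, (Rm ^ n) x = x * E ^ n := by
    intro n
    induction n with
    | zero => intro x; rw [pow_zero, pow_zero, mul_one]; rfl
    | succ n ih =>
      intro x
      rw [pow_succ, pow_succ', ← mul_assoc, ← ih]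
      rfl
  rw [← h2, h1]
  show (Lm ^ p) X - (Rm ^ p) X = _
  rw [h3, h4]

end

section

variable {𝓡 : Type*} [Ring 𝓡]

theorem br_sub (E X Y : 𝓡) : br E (X - Y) = br E X - br E Y := by
  unfold br; noncomm_ring

theorem br_eq_zero_iff {E X : 𝓡} : br E X = 0 ↔ Commute E X := by
  unfold br
  rw [sub_eq_zero]
  rfl

theorem commute_br {E X Y : 𝓡} (h1 : Commute Y E) (h2 : Commute Y X) : Commute Y (br E X) := by
  unfold br
  exact (h1.mul_right h2).sub_right (h2.mul_right h1)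

theorem commute_br_iterate {E X Y : 𝓡} (h1 : Commute Y E) (h2 : Commute Y X) (n : ℕ) :
    Commute Y ((br E)^[n] X) := by
  induction n with
  | zero => simpa using h2
  | succ n ih =>
    rw [Function.iterate_succ_apply']
    exact commute_br h1 ih

/-- Averaging operator. -/
def av (p : ℕ) (E X : 𝓡) : 𝓡 := X - (br E)^[p - 1] X

theorem br_av {p : ℕ} (hp : p.Prime) (h0 : (p : 𝓡) = 0) {E : 𝓡} (hE : E ^ p = E) (X : 𝓡) :
    Commute E (av p E X) := by
  rw [← br_eq_zero_iff]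
  unfold av
  rw [br_sub, ← Function.iterate_succ_apply' (br E), Nat.succ_eq_add_one,
    Nat.sub_add_cancel hp.one_le, br_iterate_prime hp h0, hE]
  exact sub_self _

/-- Iterated averaging over `E 0, …, E (k-1)`. -/
def avs (p : ℕ) (E : ℕ → 𝓡) : ℕ → 𝓡 → 𝓡
  | 0, X => X
  | k + 1, X => av p (E k) (avs p E k X)

theorem commute_avs {p : ℕ} (hp : p.Prime) (h0 : (p : 𝓡) = 0) (E : ℕ → 𝓡) (X : 𝓡) (k : ℕ)
    (hE : ∀ i < k, E i ^ p = E i) (hc : ∀ i < k, ∀ j < k, Commute (E i) (E j)) :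
    ∀ i < k, Commute (E i) (avs p E k X) := by
  induction k with
  | zero => intro i hi; omega
  | succ k ih =>
    intro i hi
    show Commute (E i) (av p (E k) (avs p E k X))
    rcases Nat.lt_succ_iff_lt_or_eq.1 hi with h | h
    · have h1 := ih (fun i hi => hE i (by omega)) (fun i hi j hj => hc i (by omega) j (by omega)) i h
      exact h1.sub_right (commute_br_iterate (hc i (by omega) k (by omega)) h1 _)
    · subst h
      exact br_av hp h0 (hE i (by omega)) _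

end

/-- A subring closed for the filtration topology. -/
def ClosedSub {𝓡 : Type*} [Ring 𝓡] (F : ℕ → AddSubgroup 𝓡) (𝒮 : Subring 𝓡) : Prop :=
  ∀ x, (∀ k, ∃ y ∈ 𝒮, x - y ∈ F k) → x ∈ 𝒮

/-- An additive subgroup closed under commutators, `p`-th powers and limits. -/
structure DerLike {𝓡 : Type*} [Ring 𝓡] (p : ℕ) (F : ℕ → AddSubgroup 𝓡) (𝒟 : AddSubgroup 𝓡) :
    Prop where
  br_mem : ∀ {x y : 𝓡}, x ∈ 𝒟 → y ∈ 𝒟 → br x y ∈ 𝒟
  pow_mem : ∀ {x : 𝓡}, x ∈ 𝒟 → x ^ p ∈ 𝒟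
  closed : ∀ x, (∀ k, ∃ y ∈ 𝒟, x - y ∈ F k) → x ∈ 𝒟

section

variable {𝓡 : Type*} [Ring 𝓡] {F : ℕ → AddSubgroup 𝓡} {p : ℕ}

theorem DerLike.avs_mem {𝒟 : AddSubgroup 𝓡} (hD : DerLike p F 𝒟) (E : ℕ → 𝓡) {X : 𝓡}
    (hX : X ∈ 𝒟) (k : ℕ) (hE : ∀ i < k, E i ∈ 𝒟) : avs p E k X ∈ 𝒟 := by
  induction k with
  | zero => exact hX
  | succ k ih =>
    have h1 := ih fun i hi => hE i (by omega)
    refine 𝒟.sub_mem h1 ?_
    generalize p - 1 = n
    induction n with
    | zero => simpa using h1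
    | succ n ihn =>
      rw [Function.iterate_succ_apply']
      exact hD.br_mem (hE k (by omega)) ihn

theorem subring_avs_mem {𝒮 : Subring 𝓡} (E : ℕ → 𝓡) {X : 𝓡}
    (hX : X ∈ 𝒮) (k : ℕ) (hE : ∀ i < k, E i ∈ 𝒮) : avs p E k X ∈ 𝒮 := by
  induction k with
  | zero => exact hX
  | succ k ih =>
    have h1 := ih fun i hi => hE i (by omega)
    refine 𝒮.sub_mem h1 ?_
    generalize p - 1 = n
    induction n with
    | zero => simpa using h1
    | succ n ihn =>
      rw [Function.iterate_succ_apply']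
      exact 𝒮.sub_mem (𝒮.mul_mem (hE k (by omega)) ihn) (𝒮.mul_mem ihn (hE k (by omega)))

namespace CompleteFil

theorem br_mem (hF : CompleteFil F) {n : ℕ} {E X : 𝓡} (hE : E ∈ F 0) (hX : X ∈ F n) :
    br E X ∈ F n :=
  (F n).sub_mem (hF.mul_left hE hX) (hF.mul_right hX hE)

theorem avs_mem_zero (hF : CompleteFil F) (E : ℕ → 𝓡) {X : 𝓡}
    (hX : X ∈ F 0) (k : ℕ) (hE : ∀ i < k, E i ∈ F 0) : avs p E k X ∈ F 0 := by
  induction k with
  | zero => exact hX
  | succ k ih =>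
    have h1 := ih fun i hi => hE i (by omega)
    refine (F 0).sub_mem h1 ?_
    generalize p - 1 = n
    induction n with
    | zero => simpa using h1
    | succ n ihn =>
      rw [Function.iterate_succ_apply']
      exact hF.br_mem (hE k (by omega)) ihn

theorem avs_sub_mem (hF : CompleteFil F) (hp : p.Prime) (E : ℕ → 𝓡) {X : 𝓡}
    (k n : ℕ) (hE : ∀ i < k, E i ∈ F 0) (hb : ∀ i < k, br (E i) X ∈ F n) :
    avs p E k X - X ∈ F n := by
  induction k with
  | zero => simp [avs]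
  | succ k ih =>
    have h1 := ih (fun i hi => hE i (by omega)) fun i hi => hb i (by omega)
    set Y := avs p E k X with hY
    have h2 : br (E k) Y ∈ F n := by
      have : br (E k) Y = br (E k) X + br (E k) (Y - X) := by
        rw [br_sub]; abel
      rw [this]
      exact (F n).add_mem (hb k (by omega)) (hF.br_mem (hE k (by omega)) h1)
    have h3 : ∀ m, (br (E k))^[m + 1] Y ∈ F n := by
      intro m
      induction m with
      | zero => simpa using h2
      | succ m ihm =>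
        rw [Function.iterate_succ_apply']
        exact hF.br_mem (hE k (by omega)) ihm
    have h4 : (br (E k))^[p - 1] Y ∈ F n := by
      have := h3 (p - 2)
      have h5 : p - 2 + 1 = p - 1 := by have := hp.two_le; omega
      rwa [h5] at this
    have h6 : avs p E (k + 1) X - X = (Y - X) - (br (E k))^[p - 1] Y := by
      show (Y - (br (E k))^[p - 1] Y) - X = _
      abel
    rw [h6]
    exact (F n).sub_mem h1 h4

/-- limits of `p`-power iterates -/
theorem exists_toral (hF : CompleteFil F) (hp : p.Prime) (h0 : (p : 𝓡) = 0) {X : 𝓡}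
    (hX : X ∈ F 0) (hX1 : X ^ p - X ∈ F 1) :
    ∃ L : 𝓡, L ∈ F 0 ∧ L ^ p = L ∧ (∀ k, L - X ^ p ^ k ∈ F k) ∧
      (∀ n, X ^ p - X ∈ F n → L - X ∈ F n) ∧ (∀ Y, Y ∈ F 0 → Commute Y X → Commute Y L) := by
  haveI : Fact p.Prime := ⟨hp⟩
  have hpk : ∀ k, k ≤ p ^ k := fun k => (Nat.lt_pow_self hp.one_lt).le
  have hdiff : ∀ n k, X ^ p - X ∈ F n → X ^ p ^ (k + 1) - X ^ p ^ k ∈ F (p ^ k * n) := by
    intro n k h
    have h1 : X ^ p ^ (k + 1) - X ^ p ^ k = (X ^ p - X) ^ p ^ k := by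
      rcases subsingleton_or_nontrivial 𝓡 with hs | hn
      · exact Subsingleton.elim _ _
      haveI : CharP 𝓡 p := (CharP.charP_iff_prime_eq_zero hp).2 h0
      rw [sub_pow_char_pow_of_commute p k (Commute.pow_left (Commute.refl X) p), ← pow_mul,
        pow_succ, mul_comm]
    rw [h1]
    exact hF.pow_mem h _
  obtain ⟨L, hL⟩ := hF.complete (fun k => X ^ p ^ k) (fun k => hF.pow_mem_zero hX _) (fun k => by
    have := hdiff 1 k hX1
    rw [mul_one] at this
    exact hF.anti (hpk k) this)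
  have hL0 : L ∈ F 0 := by
    have := (F 0).add_mem (hL 0) (hF.pow_mem_zero hX (p ^ 0))
    simpa using this
  have htel : ∀ n, X ^ p - X ∈ F n → ∀ k, X ^ p ^ k - X ∈ F n := by
    intro n h k
    induction k with
    | zero => simp
    | succ k ih =>
      have h1 := hF.anti (Nat.le_mul_of_pos_left n (pow_pos hp.pos k)) (hdiff n k h)
      have : X ^ p ^ (k + 1) - X = (X ^ p ^ (k + 1) - X ^ p ^ k) + (X ^ p ^ k - X) := by abel
      rw [this]
      exact (F n).add_mem h1 ih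
  refine ⟨L, hL0, ?_, hL, ?_, ?_⟩
  · rw [← sub_eq_zero]
    apply hF.sep
    intro k
    have h1 : L ^ p - (X ^ p ^ k) ^ p ∈ F k :=
      hF.pow_sub_pow_mem hL0 (hF.pow_mem_zero hX _) (hL k) p
    have h2 : X ^ p ^ (k + 1) - X ^ p ^ k ∈ F k := by
      have := hdiff 1 k hX1
      rw [mul_one] at this
      exact hF.anti (hpk k) this
    have h3 : L ^ p - L = (L ^ p - (X ^ p ^ k) ^ p) + (X ^ p ^ (k + 1) - X ^ p ^ k)
        - (L - X ^ p ^ k) := by
      rw [← pow_mul, ← pow_succ]; abel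
    rw [h3]
    exact (F k).sub_mem ((F k).add_mem h1 h2) (hL k)
  · intro n h
    have : L - X = (L - X ^ p ^ n) + (X ^ p ^ n - X) := by abel
    rw [this]
    exact (F n).add_mem (hL n) (htel n h n)
  · intro Y hY hc
    rw [← br_eq_zero_iff]
    apply hF.sep
    intro k
    have h1 : br Y (X ^ p ^ k) = 0 := br_eq_zero_iff.2 (hc.pow_right _)
    have h2 : br Y L = br Y (L - X ^ p ^ k) := by
      rw [br_sub, h1, sub_zero]
    rw [h2]
    exact hF.br_mem hY (hL k)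

end CompleteFil

end

section

variable {𝓡 : Type*} [Ring 𝓡] {F : ℕ → AddSubgroup 𝓡} {p : ℕ}

/-- Elements of `F 0` commuting with `Y` modulo `F n`. -/
def centSub (hF : CompleteFil F) (n : ℕ) (Y : 𝓡) (hY : Y ∈ F 0) : Subring 𝓡 where
  carrier := {Z | Z ∈ F 0 ∧ br Z Y ∈ F n}
  mul_mem' := by
    rintro Z W ⟨h1, h2⟩ ⟨h3, h4⟩
    refine ⟨hF.mul_left h1 h3, ?_⟩
    have : br (Z * W) Y = Z * br W Y + br Z Y * W := by
      unfold br; noncomm_ring
    rw [this]
    exact (F n).add_mem (hF.mul_left h1 h4) (hF.mul_right h2 h3)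
  one_mem' := by
    refine ⟨hF.one_mem, ?_⟩
    simp [br]
  add_mem' := by
    rintro Z W ⟨h1, h2⟩ ⟨h3, h4⟩
    refine ⟨(F 0).add_mem h1 h3, ?_⟩
    have : br (Z + W) Y = br Z Y + br W Y := by
      unfold br; noncomm_ring
    rw [this]
    exact (F n).add_mem h2 h4
  zero_mem' := by
    refine ⟨(F 0).zero_mem, ?_⟩
    simp [br]
  neg_mem' := by
    rintro Z ⟨h1, h2⟩
    refine ⟨(F 0).neg_mem h1, ?_⟩
    have : br (-Z) Y = - br Z Y := by
      unfold br; noncomm_ring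
    rw [this]
    exact (F n).neg_mem h2

theorem mem_centSub (hF : CompleteFil F) {n : ℕ} {Y : 𝓡} {hY : Y ∈ F 0} {Z : 𝓡} :
    Z ∈ centSub hF n Y hY ↔ Z ∈ F 0 ∧ br Z Y ∈ F n := Iff.rfl

theorem closedSub_centSub (hF : CompleteFil F) (n : ℕ) (Y : 𝓡) (hY : Y ∈ F 0) :
    ClosedSub F (centSub hF n Y hY) := by
  intro Z hZ
  obtain ⟨W, hW, hZW⟩ := hZ n
  rw [mem_centSub] at hW
  have hZ0 : Z ∈ F 0 := by
    have := (F 0).add_mem (hF.mem_zero hZW) hW.1
    simpa using this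
  refine ⟨hZ0, ?_⟩
  have : br Z Y = ((Z - W) * Y - Y * (Z - W)) + br W Y := by
    unfold br; noncomm_ring
  rw [this]
  exact (F n).add_mem ((F n).sub_mem (hF.mul_right hZW hY) (hF.mul_left hY hZW)) hW.2

/-- Bookkeeping for the recursive construction of commuting toral elements. -/
structure Good (p : ℕ) (F : ℕ → AddSubgroup 𝓡) (𝒟 : AddSubgroup 𝓡) (X : ℕ → 𝓡) (k : ℕ)
    (E : ℕ → 𝓡) : Prop where
  mem : ∀ i < k, E i ∈ F 0
  memD : ∀ i < k, E i ∈ 𝒟
  tor : ∀ i < k, E i ^ p = E i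
  comm : ∀ i < k, ∀ j < k, Commute (E i) (E j)
  sub : ∀ 𝒮 : Subring 𝓡, ClosedSub F 𝒮 → ∀ i < k, (∀ j ≤ i, X j ∈ 𝒮) → E i ∈ 𝒮
  close : ∀ i < k, ∀ n, X i ^ p - X i ∈ F n → (∀ j < i, br (X j) (X i) ∈ F n) → E i - X i ∈ F n

theorem Good.step (hF : CompleteFil F) (hp : p.Prime) (h0 : (p : 𝓡) = 0) {𝒟 : AddSubgroup 𝓡}
    (hD : DerLike p F 𝒟) (X : ℕ → 𝓡) (hX : ∀ k, X k ∈ F 0) (hXD : ∀ k, X k ∈ 𝒟)
    (hXt : ∀ k, X k ^ p - X k ∈ F 1) (hXc : ∀ i k, br (X i) (X k) ∈ F 1) {k : ℕ} {E : ℕ → 𝓡}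
    (hE : Good p F 𝒟 X k E) : ∃ E' : ℕ → 𝓡, Good p F 𝒟 X (k + 1) E' ∧ ∀ i < k, E' i = E i := by
  have hbr : ∀ n, (∀ j < k, br (X j) (X k) ∈ F n) → ∀ j < k, br (E j) (X k) ∈ F n := by
    intro n h j hj
    have := hE.sub (centSub hF n (X k) (hX k)) (closedSub_centSub hF n (X k) (hX k)) j hj
      (fun i hi => ⟨hX i, h i (by omega)⟩)
    exact this.2
  set Y := avs p E k (X k) with hYdef
  have hYX : ∀ n, (∀ j < k, br (X j) (X k) ∈ F n) → Y - X k ∈ F n := fun n h =>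
    hF.avs_sub_mem hp E k n hE.mem (hbr n h)
  have hY0 : Y ∈ F 0 := hF.avs_mem_zero E (hX k) k hE.mem
  have hYt : ∀ n, X k ^ p - X k ∈ F n → (∀ j < k, br (X j) (X k) ∈ F n) → Y ^ p - Y ∈ F n := by
    intro n h1 h2
    have h3 := hYX n h2
    have h4 := hF.pow_sub_pow_mem hY0 (hX k) h3 p
    have : Y ^ p - Y = (Y ^ p - X k ^ p) + (X k ^ p - X k) - (Y - X k) := by abel
    rw [this]
    exact (F n).sub_mem ((F n).add_mem h4 h1) h3
  obtain ⟨L, hL0, hLt, hLk, hLn, hLc⟩ := hF.exists_toral hp h0 hY0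
    (hYt 1 (hXt k) (fun j _ => hXc j k))
  have hcomm : ∀ i < k, Commute (E i) L := fun i hi =>
    hLc _ (hE.mem i hi) (commute_avs hp h0 E (X k) k hE.tor hE.comm i hi)
  have hne : ∀ i < k, Function.update E k L i = E i := fun i hi =>
    Function.update_of_ne (by omega) _ _
  have heq : Function.update E k L k = L := Function.update_self _ _ _
  refine ⟨Function.update E k L, ⟨?_, ?_, ?_, ?_, ?_, ?_⟩, hne⟩
  · intro i hi
    rcases Nat.lt_succ_iff_lt_or_eq.1 hi with h | h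
    · rw [hne i h]; exact hE.mem i h
    · rw [h, heq]; exact hL0
  · intro i hi
    rcases Nat.lt_succ_iff_lt_or_eq.1 hi with h | h
    · rw [hne i h]; exact hE.memD i h
    · rw [h, heq]
      apply hD.closed
      intro n
      refine ⟨Y ^ p ^ n, ?_, hLk n⟩
      have hYD : Y ∈ 𝒟 := hD.avs_mem E (hXD k) k hE.memD
      clear_value Y
      induction n with
      | zero => simpa using hYD
      | succ n ih => rw [pow_succ, pow_mul]; exact hD.pow_mem ih
  · intro i hi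
    rcases Nat.lt_succ_iff_lt_or_eq.1 hi with h | h
    · rw [hne i h]; exact hE.tor i h
    · rw [h, heq]; exact hLt
  · intro i hi j hj
    rcases Nat.lt_succ_iff_lt_or_eq.1 hi with h | h <;>
    rcases Nat.lt_succ_iff_lt_or_eq.1 hj with h' | h'
    · rw [hne i h, hne j h']; exact hE.comm i h j h'
    · rw [hne i h, h', heq]; exact hcomm i h
    · rw [hne j h', h, heq]; exact (hcomm j h').symm
    · rw [h, h', heq]
  · intro 𝒮 h𝒮 i hi hX'
    rcases Nat.lt_succ_iff_lt_or_eq.1 hi with h | h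
    · rw [hne i h]; exact hE.sub 𝒮 h𝒮 i h hX'
    · subst h
      rw [heq]
      apply h𝒮
      intro n
      refine ⟨Y ^ p ^ n, 𝒮.pow_mem ?_ _, hLk n⟩
      exact subring_avs_mem E (hX' i le_rfl) i
        (fun j hj => hE.sub 𝒮 h𝒮 j hj (fun l hl => hX' l (by omega)))
  · intro i hi n h1 h2
    rcases Nat.lt_succ_iff_lt_or_eq.1 hi with h | h
    · rw [hne i h]; exact hE.close i h n h1 h2
    · subst h
      rw [heq]
      have : L - X i = (L - Y) + (Y - X i) := by abel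
      rw [this]
      exact (F n).add_mem (hLn n (hYt n h1 h2)) (hYX n h2)

/-- Simultaneous toralisation of a sequence of almost commuting, almost toral elements. -/
theorem exists_commuting_toral (hF : CompleteFil F) (hp : p.Prime) (h0 : (p : 𝓡) = 0)
    {𝒟 : AddSubgroup 𝓡}
    (hD : DerLike p F 𝒟) (X : ℕ → 𝓡) (hX : ∀ k, X k ∈ F 0) (hXD : ∀ k, X k ∈ 𝒟)
    (hXt : ∀ k, X k ^ p - X k ∈ F 1) (hXc : ∀ i k, br (X i) (X k) ∈ F 1) :
    ∃ E : ℕ → 𝓡, (∀ i, E i ∈ F 0) ∧ (∀ i, E i ∈ 𝒟) ∧ (∀ i, E i ^ p = E i) ∧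
      (∀ i j, Commute (E i) (E j)) ∧
      (∀ 𝒮 : Subring 𝓡, ClosedSub F 𝒮 → ∀ i, (∀ j ≤ i, X j ∈ 𝒮) → E i ∈ 𝒮) ∧
      (∀ i, ∀ n, X i ^ p - X i ∈ F n → (∀ j < i, br (X j) (X i) ∈ F n) → E i - X i ∈ F n) := by
  have hstep : ∀ (k : ℕ) (E : ℕ → 𝓡), ∃ E' : ℕ → 𝓡,
      (Good p F 𝒟 X k E → (Good p F 𝒟 X (k + 1) E' ∧ ∀ i < k, E' i = E i)) := by
    intro k E
    by_cases h : Good p F 𝒟 X k E
    · obtain ⟨E', h'⟩ := h.step hF hp h0 hD X hX hXD hXt hXc
      exact ⟨E', fun _ => h'⟩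
    · exact ⟨E, fun h' => absurd h' h⟩
  choose next hnext using hstep
  let G : ℕ → (ℕ → 𝓡) := fun k => Nat.rec (fun _ => 0) (fun k E => next k E) k
  have hG0 : Good p F 𝒟 X 0 (G 0) :=
    ⟨fun i hi => absurd hi (by omega), fun i hi => absurd hi (by omega),
      fun i hi => absurd hi (by omega), fun i hi => absurd hi (by omega),
      fun _ _ i hi => absurd hi (by omega), fun i hi => absurd hi (by omega)⟩
  have hGs : ∀ k, G (k + 1) = next k (G k) := fun k => rfl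
  have hG : ∀ k, Good p F 𝒟 X k (G k) := by
    intro k
    induction k with
    | zero => exact hG0
    | succ k ih => rw [hGs]; exact (hnext k (G k) ih).1
  have hstab : ∀ k i, i < k → G k i = G (i + 1) i := by
    intro k
    induction k with
    | zero => intro i hi; omega
    | succ k ih =>
      intro i hi
      rcases Nat.lt_succ_iff_lt_or_eq.1 hi with h | h
      · rw [hGs, (hnext k (G k) (hG k)).2 i h, ih i h]
      · rw [h]
  refine ⟨fun i => G (i + 1) i, ?_, ?_, ?_, ?_, ?_, ?_⟩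
  · intro i; exact (hG (i + 1)).mem i (by omega)
  · intro i; exact (hG (i + 1)).memD i (by omega)
  · intro i; exact (hG (i + 1)).tor i (by omega)
  · intro i j
    show Commute (G (i + 1) i) (G (j + 1) j)
    rw [← hstab (max i j + 1) i (by omega), ← hstab (max i j + 1) j (by omega)]
    exact (hG (max i j + 1)).comm i (by omega) j (by omega)
  · intro 𝒮 h𝒮 i hi; exact (hG (i + 1)).sub 𝒮 h𝒮 i (by omega) hi
  · intro i n h1 h2; exact (hG (i + 1)).close i (by omega) n h1 h2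

end

end Pool.Agent.FrobDecomp
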