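import Pool.Agent.FrobDecomp.Presentation

namespace Pool.Agent.FrobDecomp

set_option linter.unusedSectionVars false
set_option linter.style.haveILetI false

section

variable {A : Type*} [CommRing A] (I : Ideal A) {n : ℕ}

/-- A subring which is dense modulo `I` and contains generators of `I` is dense. -/
theorem dense_of_mod (Q : Subring A) (h1 : ∀ a, ∃ q ∈ Q, a - q ∈ I) (x : Fin n → A)
    (hx : Ideal.span (Set.range x) = I) (hxQ : ∀ i, x i ∈ Q) (m : ℕ) (a : A) :
    ∃ q ∈ Q, a - q ∈ I ^ m := by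
  have hI : ∀ v ∈ I, ∃ q ∈ Q, q ∈ I ∧ v - q ∈ I ^ 2 := by
    intro v hv
    have hv' : v ∈ Ideal.span (Set.range x) := by rw [hx]; exact hv
    have : ∀ v ∈ Ideal.span (Set.range x), v ∈ I ∧ ∃ q ∈ Q, q ∈ I ∧ v - q ∈ I ^ 2 := by
      intro v hv
      refine Submodule.span_induction
        (p := fun v _ => v ∈ I ∧ ∃ q ∈ Q, q ∈ I ∧ v - q ∈ I ^ 2) ?_ ?_ ?_ ?_ hv
      · rintro _ ⟨i, rfl⟩
        have hi : x i ∈ I := by rw [← hx]; exact Ideal.subset_span ⟨i, rfl⟩
        exact ⟨hi, x i, hxQ i, hi, by simp⟩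
      · exact ⟨I.zero_mem, 0, Q.zero_mem, I.zero_mem, by simp⟩
      · rintro a b _ _ ⟨ha, q, hq, hqI, haq⟩ ⟨hb, q', hq', hqI', hbq⟩
        refine ⟨I.add_mem ha hb, q + q', Q.add_mem hq hq', I.add_mem hqI hqI', ?_⟩
        have : a + b - (q + q') = (a - q) + (b - q') := by ring
        rw [this]; exact (I ^ 2).add_mem haq hbq
      · rintro c a _ ⟨ha, q, hq, hqI, haq⟩
        obtain ⟨d, hd, hcd⟩ := h1 c
        refine ⟨I.mul_mem_left c ha, d * q, Q.mul_mem hd hq, I.mul_mem_left d hqI, ?_⟩
        have : c • a - d * q = (c - d) * a + d * (a - q) := by rw [smul_eq_mul]; ring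
        rw [this]
        refine (I ^ 2).add_mem ?_ ((I ^ 2).mul_mem_left _ haq)
        rw [pow_two]; exact Ideal.mul_mem_mul hcd ha
    exact (this v hv').2
  have hstep : ∀ m, ∀ v ∈ I ^ m, ∃ q ∈ Q, q ∈ I ^ m ∧ v - q ∈ I ^ (m + 1) := by
    intro m
    induction m with
    | zero =>
      intro v _
      obtain ⟨q, hq, hvq⟩ := h1 v
      exact ⟨q, hq, by simp, by simpa using hvq⟩
    | succ m ih =>
      intro v hv
      rw [pow_succ] at hv
      refine Submodule.mul_induction_on hv ?_ ?_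
      · intro a ha b hb
        obtain ⟨q, hq, hqI, haq⟩ := ih a ha
        obtain ⟨q', hq', hqI', hbq⟩ := hI b hb
        refine ⟨q * q', Q.mul_mem hq hq', ?_, ?_⟩
        · rw [pow_succ]; exact Ideal.mul_mem_mul hqI hqI'
        · have : a * b - q * q' = (a - q) * b + q * (b - q') := by ring
          rw [this]
          refine (I ^ (m + 1 + 1)).add_mem ?_ ?_
          · rw [pow_succ]; exact Ideal.mul_mem_mul haq hb
          · have : I ^ (m + 1 + 1) = I ^ m * I ^ 2 := by rw [← pow_add]
            rw [this]; exact Ideal.mul_mem_mul hqI hbq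
      · rintro a b ⟨q, hq, hqI, haq⟩ ⟨q', hq', hqI', hbq⟩
        refine ⟨q + q', Q.add_mem hq hq', (I ^ (m + 1)).add_mem hqI hqI', ?_⟩
        have : a + b - (q + q') = (a - q) + (b - q') := by ring
        rw [this]; exact (I ^ (m + 1 + 1)).add_mem haq hbq
  induction m with
  | zero => exact ⟨0, Q.zero_mem, by simp⟩
  | succ m ih =>
    obtain ⟨q, hq, haq⟩ := ih
    obtain ⟨q', hq', -, h⟩ := hstep m _ haq
    exact ⟨q + q', Q.add_mem hq hq', by rw [← sub_sub]; exact h⟩

theorem ders_one {X : AddMonoid.End A} (hX : X ∈ ders A) : X 1 = 0 := by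
  have := hX 1 1
  simp only [mul_one, one_mul] at this
  exact left_eq_add.mp this

theorem ders_pow {X : AddMonoid.End A} (hX : X ∈ ders A) (a : A) (m : ℕ) :
    X (a ^ m) = m * a ^ (m - 1) * X a := by
  induction m with
  | zero => simp [ders_one hX]
  | succ m ih =>
    rw [pow_succ, hX, ih]
    rcases Nat.eq_zero_or_pos m with h | h
    · subst h; simp
    · have : a ^ m = a ^ (m - 1) * a := by rw [← pow_succ]; congr 1; omega
      simp only [Nat.add_sub_cancel, Nat.cast_add, Nat.cast_one]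
      rw [this]; ring

theorem ders_pow_char {p : ℕ} (hpA : (p : A) = 0) {X : AddMonoid.End A} (hX : X ∈ ders A) (a : A) :
    X (a ^ p) = 0 := by
  rw [ders_pow hX, hpA]; ring

/-- A derivation whose values on a dense set of generators are in `I ^ m` has all its values
in `I ^ m`. -/
theorem ders_image_mem {p : ℕ} (hpA : (p : A) = 0) {X : AddMonoid.End A} (hX : X ∈ ders A)
    (hX0 : X ∈ opFil I 0) (G : Set A)
    (hG : ∀ m a, ∃ q ∈ Subring.closure (Set.range (fun a : A => a ^ p) ∪ G), a - q ∈ I ^ m)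
    {m : ℕ} (hXG : ∀ g ∈ G, X g ∈ I ^ m) (a : A) : X a ∈ I ^ m := by
  obtain ⟨q, hq, haq⟩ := hG m a
  have h1 : X (a - q) ∈ I ^ m := by simpa using hX0 m _ haq
  have h2 : X q ∈ I ^ m := by
    refine Subring.closure_induction (p := fun q _ => X q ∈ I ^ m) ?_ ?_ ?_ ?_ ?_ ?_ hq
    · rintro _ (⟨y, rfl⟩ | hg)
      · show X (y ^ p) ∈ I ^ m
        rw [ders_pow_char hpA hX]; exact (I ^ m).zero_mem
      · exact hXG _ hg
    · rw [map_zero]; exact (I ^ m).zero_mem
    · rw [ders_one hX]; exact (I ^ m).zero_mem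
    · intro u v _ _ hu hv; rw [map_add]; exact (I ^ m).add_mem hu hv
    · intro u _ hu; rw [map_neg]; exact (I ^ m).neg_mem hu
    · intro u v _ _ hu hv; rw [hX]
      exact (I ^ m).add_mem ((I ^ m).mul_mem_left _ hv) ((I ^ m).mul_mem_left _ hu)
  have : X a = X (a - q) + X q := by rw [← map_add]; congr 1; ring
  rw [this]
  exact (I ^ m).add_mem h1 h2

theorem ders_preserve {X : AddMonoid.End A} (hX : X ∈ ders A) (x : Fin n → A)
    (hx : Ideal.span (Set.range x) = I) (h : ∀ i, X (x i) ∈ I) : X ∈ opFil I 0 := by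
  apply ders_mem_opFil_zero I hX
  intro a ha
  have ha' : a ∈ Ideal.span (Set.range x) := by rw [hx]; exact ha
  have : ∀ a ∈ Ideal.span (Set.range x), a ∈ I ∧ X a ∈ I := by
    intro a ha
    refine Submodule.span_induction (p := fun a _ => a ∈ I ∧ X a ∈ I) ?_ ?_ ?_ ?_ ha
    · rintro _ ⟨i, rfl⟩
      exact ⟨by rw [← hx]; exact Ideal.subset_span ⟨i, rfl⟩, h i⟩
    · exact ⟨I.zero_mem, by rw [map_zero]; exact I.zero_mem⟩
    · rintro a b _ _ ⟨h1, h2⟩ ⟨h3, h4⟩
      exact ⟨I.add_mem h1 h3, by rw [map_add]; exact I.add_mem h2 h4⟩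
    · rintro c a _ ⟨h1, h2⟩
      exact ⟨I.mul_mem_left c h1, by
        rw [smul_eq_mul, hX]
        exact I.add_mem (I.mul_mem_left _ h2) (I.mul_mem_right _ h1)⟩
  exact (this a ha').2

/-- Operators having a fixed element as eigenvector with integer eigenvalue. -/
def eigSub (a : A) : Subring (AddMonoid.End A) where
  carrier := {Z | ∃ c : ℤ, Z a = c • a}
  mul_mem' := by
    rintro Z W ⟨c, hc⟩ ⟨d, hd⟩
    refine ⟨d * c, ?_⟩
    show Z (W a) = _
    rw [hd, map_zsmul, hc, smul_smul]
  one_mem' := ⟨1, by simp⟩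
  add_mem' := by
    rintro Z W ⟨c, hc⟩ ⟨d, hd⟩
    refine ⟨c + d, ?_⟩
    show Z a + W a = _
    rw [hc, hd, add_smul]
  zero_mem' := ⟨0, by show (0 : A) = _; simp⟩
  neg_mem' := by
    rintro Z ⟨c, hc⟩
    refine ⟨-c, ?_⟩
    show - Z a = _
    rw [hc, neg_smul]

theorem intCast_eq_zero_of_mem {p : ℕ} (hp : p.Prime) (hpA : (p : A) = 0) (hI : I ≠ ⊤) {a : A}
    (ha : IsUnit a) {c : ℤ} (hc : c • a ∈ I) : (c : A) = 0 := by
  have h1 : (c : A) ∈ I := by
    rw [zsmul_eq_mul] at hc
    exact (Ideal.unit_mul_mem_iff_mem I ha).1 (by rwa [mul_comm] at hc)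
  by_cases hdvd : (p : ℤ) ∣ c
  · obtain ⟨d, rfl⟩ := hdvd
    rw [Int.cast_mul, Int.cast_natCast, hpA, zero_mul]
  · exfalso
    apply hI
    have hcop : IsCoprime (p : ℤ) c := by
      rw [Int.isCoprime_iff_gcd_eq_one]
      have hp' := Nat.Prime.coprime_iff_not_dvd hp (n := c.natAbs)
      have : ¬ p ∣ c.natAbs := fun h => hdvd (Int.natCast_dvd.2 h)
      have := hp'.2 this
      simpa [Int.gcd] using this
    obtain ⟨u, v, huv⟩ := hcop
    rw [Ideal.eq_top_iff_one]
    have h2 : ((u * p + v * c : ℤ) : A) = 1 := by rw [huv]; simp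
    rw [← h2]
    push_cast
    rw [hpA, mul_zero, zero_add]
    exact I.mul_mem_left _ h1

theorem closedSub_eigSub [IsHausdorff I A] {p : ℕ} (hp : p.Prime) (hpA : (p : A) = 0)
    (hI : I ≠ ⊤) {a : A} (ha : IsUnit a) : ClosedSub (opFil I) (eigSub a) := by
  intro Z hZ
  have hZ' : ∀ k, ∃ c : ℤ, Z a - c • a ∈ I ^ k := by
    intro k
    obtain ⟨W, ⟨c, hc⟩, hZW⟩ := hZ k
    refine ⟨c, ?_⟩
    rw [← hc]
    have := hZW 0 a (by simp)
    rw [zero_add] at this
    exact this
  choose c hc using hZ'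
  have hconst : ∀ k, ((c (k + 1) - c 1 : ℤ) : A) = 0 := by
    intro k
    apply intCast_eq_zero_of_mem I hp hpA hI ha
    have h1 := hc (k + 1)
    have h2 := hc 1
    have h3 : Z a - c (k + 1) • a ∈ I := by
      have := Ideal.pow_le_pow_right (by omega : 1 ≤ k + 1) h1
      simpa using this
    have h4 : Z a - c 1 • a ∈ I := by simpa using h2
    have : (c (k + 1) - c 1) • a = (Z a - c 1 • a) - (Z a - c (k + 1) • a) := by
      rw [sub_smul]; ring
    rw [this]
    exact I.sub_mem h4 h3
  refine ⟨c 1, ?_⟩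
  rw [← sub_eq_zero]
  apply eq_zero_of_forall_mem I
  intro k
  have h1 : c 1 • a = c (k + 1) • a := by
    have := hconst k
    rw [zsmul_eq_mul, zsmul_eq_mul]
    congr 1
    rw [Int.cast_sub, sub_eq_zero] at this
    exact this.symm
  rw [h1]
  exact Ideal.pow_le_pow_right (by omega) (hc (k + 1))

end

section

universe u

variable {p : ℕ} [hp : Fact p.Prime] {κ : Type u} [Field κ] [CharP κ p] {A : Type u}
  [CommRing A] [IsNoetherianRing A] (I : Ideal A) [IsAdicComplete I A] {n : ℕ}

theorem IsPBasis.ne_zero {S : Set κ} (hS : IsPBasis p κ S) (s : S) : (s : κ) ≠ 0 := by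
  classical
  have hmem : Finsupp.single (s : κ) 1 ∈ Mon p S := by
    refine ⟨fun t ht => ?_, fun t => ?_⟩
    · have := Finsupp.support_single_subset ht
      rw [Finset.mem_singleton] at this
      rw [this]; exact s.2
    · rw [Finsupp.single_apply]
      split_ifs
      · exact hp.out.one_lt
      · exact hp.out.pos
  have := LinearIndepOn.ne_zero hS.indep hmem
  rwa [mon_single, pow_one] at this

theorem exists_torus (hI : I ≠ ⊤) (hpA : (p : A) = 0) {S : Set κ} (hS : IsPBasis p κ S)
    (σ : κ →+* A) (x : Fin n → A)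
    (hx : Ideal.span (Set.range x) = I) (hσ : ∀ a : A, ∃ c : κ, a - σ c ∈ I) :
    ∃ (T : Finset S) (E : {s : S // s ∉ T} → AddMonoid.End A),
      (∀ s, E s ∈ ders A) ∧ (∀ s, E s ∈ opFil I 0) ∧ (∀ s, E s ^ p = E s) ∧
      (∀ s s', Commute (E s) (E s')) ∧
      (∀ s, E s (σ s) = σ s) ∧ (∀ s s', s' ≠ s → E s (σ s') = 0) ∧
      (∀ s, ∀ l ∈ T, E s (σ l) ∈ I) ∧ (∀ s i, E s (x i) ∈ I ^ 2) ∧
      (∀ a m, {s | E s a ∉ I ^ m}.Finite) := by
  classical
  obtain ⟨T, D₀, hder₀, hself₀, hoff₀, hT₀, hx₀, hfin₀⟩ := exists_corrected I hS σ x hx hσ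
  have hF := completeFil_opFil I
  have hDL := derLike_ders I hp.out hpA
  have h0 := natCast_end_eq_zero (A := A) hpA
  let J := {s : S // s ∉ T}
  let D : J → AddMonoid.End A := fun s => D₀ s
  have hder : ∀ s, D s ∈ ders A := fun s => hder₀ s
  have hself : ∀ s : J, D s (σ s) = σ s := fun s => hself₀ s s.2
  have hoff : ∀ s s' : J, s' ≠ s → D s (σ s') = 0 := fun s s' h =>
    hoff₀ s s.2 s' s'.2 (fun h' => h (Subtype.ext h'))
  -- generators
  let G₁ : Set A := (fun l : S => σ l) '' (T : Set S) ∪ Set.range x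
  let G : Set A := G₁ ∪ Set.range (fun s : J => σ s)
  have hdense : ∀ m a, ∃ q ∈ Subring.closure (Set.range (fun a : A => a ^ p) ∪ G),
      a - q ∈ I ^ m := by
    apply dense_of_mod I _ _ x hx
    · intro i
      exact Subring.subset_closure (Or.inr (Or.inl (Or.inr ⟨i, rfl⟩)))
    · intro a
      obtain ⟨c, hc⟩ := hσ a
      refine ⟨σ c, ?_, hc⟩
      refine hS.induction (P := fun c => σ c ∈ Subring.closure
        (Set.range (fun a : A => a ^ p) ∪ G)) ?_ ?_ ?_ ?_ c
      · intro y
        rw [map_pow]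
        exact Subring.subset_closure (Or.inl ⟨σ y, rfl⟩)
      · intro s hs
        apply Subring.subset_closure
        by_cases h : (⟨s, hs⟩ : S) ∈ T
        · exact Or.inr (Or.inl (Or.inl ⟨⟨s, hs⟩, h, rfl⟩))
        · exact Or.inr (Or.inr ⟨⟨⟨s, hs⟩, h⟩, rfl⟩)
      · intro y z hy hz
        rw [map_add]; exact Subring.add_mem _ hy hz
      · intro y z hy hz
        rw [map_mul]; exact Subring.mul_mem _ hy hz
  have hD0 : ∀ s, D s ∈ opFil I 0 := fun s => by
    apply ders_preserve I (hder s) x hx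
    intro i
    have := hx₀ s s.2 i
    exact Ideal.pow_le_self (by norm_num) this
  -- smallness
  let small : ℕ → J → Prop := fun m s => ∀ g ∈ G₁, D s g ∈ I ^ m
  have hsmall2 : ∀ s, small 2 s := by
    rintro s _ (⟨l, hl, rfl⟩ | ⟨i, rfl⟩)
    · exact hT₀ s s.2 l hl
    · exact hx₀ s s.2 i
  have hsmallfin : ∀ m, {s : J | ¬ small m s}.Finite := by
    intro m
    have := (hfin₀ m).preimage (f := fun s : J => (s : S)) Subtype.val_injective.injOn
    refine this.subset ?_
    intro s hs
    refine ⟨s.2, fun hcon => hs ?_⟩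
    rintro _ (⟨l, hl, rfl⟩ | ⟨i, rfl⟩)
    · exact hcon.1 l hl
    · exact hcon.2 i
  have hG₁fin : G₁.Finite := by
    refine (T.finite_toSet.image _).union (Set.finite_range x)
  -- image principle
  have himg : ∀ X ∈ ders A, X ∈ opFil I 0 → ∀ m, (∀ g ∈ G₁, X g ∈ I ^ (m + 1)) →
      (∀ s : J, X (σ s) = 0) → X ∈ opFil I m := by
    intro X hX hX0 m h1 h2
    apply ders_mem_opFil I hX
    apply ders_image_mem I hpA hX hX0 G hdense
    rintro g (hg | ⟨s, rfl⟩)
    · exact h1 g hg
    · show X (σ s) ∈ _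
      rw [h2]; exact (I ^ (m + 1)).zero_mem
  -- pointwise convergence
  have hpt : ∀ a m, {s : J | D s a ∉ I ^ m}.Finite := by
    intro a m
    obtain ⟨q, hq, haq⟩ := hdense m a
    have hq' : {s : J | D s q ∉ I ^ m}.Finite := by
      refine Subring.closure_induction (p := fun q _ => {s : J | D s q ∉ I ^ m}.Finite)
        ?_ ?_ ?_ ?_ ?_ ?_ hq
      · rintro _ (⟨y, rfl⟩ | hg)
        · refine Set.finite_empty.subset ?_
          intro s hs
          apply hs
          show D s (y ^ p) ∈ _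
          rw [ders_pow_char hpA (hder s)]; exact (I ^ m).zero_mem
        · rcases hg with hg | ⟨s', rfl⟩
          · refine (hsmallfin m).subset ?_
            intro s hs hcon
            exact hs (hcon _ hg)
          · refine (Set.finite_singleton s').subset ?_
            intro s hs
            by_contra hne
            apply hs
            show D s (σ s') ∈ _
            rw [hoff s s' (fun h => hne h.symm)]; exact (I ^ m).zero_mem
      · refine Set.finite_empty.subset ?_
        intro s hs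
        apply hs
        rw [map_zero]; exact (I ^ m).zero_mem
      · refine Set.finite_empty.subset ?_
        intro s hs
        apply hs
        rw [ders_one (hder s)]; exact (I ^ m).zero_mem
      · intro u v _ _ hu hv
        refine (hu.union hv).subset ?_
        intro s hs
        by_contra hcon
        simp only [Set.mem_union, Set.mem_ofPred_eq, not_or, not_not] at hcon
        apply hs
        rw [map_add]; exact (I ^ m).add_mem hcon.1 hcon.2
      · intro u _ hu
        refine hu.subset ?_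
        intro s hs hcon
        apply hs
        rw [map_neg]; exact (I ^ m).neg_mem hcon
      · intro u v _ _ hu hv
        refine (hu.union hv).subset ?_
        intro s hs
        by_contra hcon
        simp only [Set.mem_union, Set.mem_ofPred_eq, not_or, not_not] at hcon
        apply hs
        rw [hder s]
        exact (I ^ m).add_mem ((I ^ m).mul_mem_left _ hcon.2) ((I ^ m).mul_mem_left _ hcon.1)
    refine hq'.subset ?_
    intro s hs hcon
    apply hs
    have e : D s a = D s (a - q) + D s q := by rw [← map_add]; congr 1; ring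
    rw [e]
    exact (I ^ m).add_mem (by simpa using hD0 s m _ haq) hcon
  -- toral up to small
  have htor : ∀ s m, small (m + 1) s → D s ^ p - D s ∈ opFil I m := by
    intro s m hs
    apply himg
    · exact (ders A).sub_mem (hDL.pow_mem (hder s)) (hder s)
    · exact (opFil I 0).sub_mem (hF.pow_mem_zero (hD0 s) p) (hD0 s)
    · intro g hg
      have h1 := hs g hg
      have h2 : (D s ^ p) g ∈ I ^ (m + 1) := by
        have : D s ^ p = D s ^ (p - 1) * D s := by
          rw [← pow_succ, Nat.sub_add_cancel hp.out.one_le]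
        rw [this]
        have := hF.pow_mem_zero (hD0 s) (p - 1) (m + 1) _ h1
        simpa using this
      exact (I ^ (m + 1)).sub_mem h2 h1
    · intro s'
      show (D s ^ p) (σ s') - D s (σ s') = 0
      have hpow : ∀ k, (D s ^ (k + 1)) (σ s') = D s (σ s') := by
        intro k
        induction k with
        | zero => simp
        | succ k ih =>
          rw [pow_succ']
          show D s ((D s ^ (k + 1)) (σ s')) = _
          rw [ih]
          by_cases h : s' = s
          · rw [h, hself, hself]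
          · rw [hoff s s' h, map_zero]
      have := hpow (p - 1)
      rw [Nat.sub_add_cancel hp.out.one_le] at this
      rw [this, sub_self]
  -- commutators
  have hbrσ : ∀ s s' s'' : J, br (D s) (D s') (σ s'') = 0 := by
    intro s s' s''
    show D s (D s' (σ s'')) - D s' (D s (σ s'')) = 0
    by_cases h1 : s'' = s
    · by_cases h2 : s'' = s'
      · subst h1; subst h2; exact sub_self _
      · subst h1
        rw [hoff s' _ h2, hself, hoff s' _ h2, map_zero, sub_self]
    · by_cases h2 : s'' = s'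
      · subst h2
        rw [hself, hoff s _ h1, map_zero, sub_self]
      · rw [hoff s _ h1, hoff s' _ h2, map_zero, map_zero, sub_self]
  have hbr : ∀ s s' m, small (m + 1) s → (∀ g ∈ G₁, D s (D s' g) ∈ I ^ (m + 1)) →
      br (D s') (D s) ∈ opFil I m := by
    intro s s' m h1 h2
    apply himg
    · exact hDL.br_mem (hder s') (hder s)
    · exact hF.br_mem (hD0 s') (hD0 s)
    · intro g hg
      show D s' (D s g) - D s (D s' g) ∈ _
      refine (I ^ (m + 1)).sub_mem ?_ (h2 g hg)
      simpa using hD0 s' (m + 1) _ (h1 g hg)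
    · intro s''; exact hbrσ _ _ _
  have hbr1 : ∀ s s', br (D s') (D s) ∈ opFil I 1 := by
    intro s s'
    apply hbr s s' 1 (hsmall2 s)
    intro g hg
    simpa using hD0 s 2 _ (hsmall2 s' g hg)
  -- the exceptional sets
  let K : ℕ → Set J := fun m => {s | ¬ (D s ^ p - D s ∈ opFil I m ∧
    ∀ s', br (D s') (D s) ∈ opFil I m)}
  have hKfin : ∀ m, (K m).Finite := by
    intro m
    have hfin : ({s : J | ¬ small (m + 1) s} ∪ ⋃ s' ∈ {s : J | ¬ small (m + 1) s},
        ⋃ g ∈ G₁, {s : J | D s (D s' g) ∉ I ^ (m + 1)}).Finite :=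
      (hsmallfin (m + 1)).union ((hsmallfin (m + 1)).biUnion fun s' _ =>
        hG₁fin.biUnion fun g _ => hpt _ _)
    refine hfin.subset ?_
    intro s hs
    by_contra hcon
    simp only [Set.mem_union, Set.mem_iUnion, Set.mem_ofPred_eq, not_or, not_not, not_exists] at hcon
    obtain ⟨h1, h2⟩ := hcon
    apply hs
    refine ⟨htor s m h1, fun s' => hbr s s' m h1 ?_⟩
    intro g hg
    by_cases h3 : small (m + 1) s'
    · simpa using hD0 s (m + 1) _ (h3 g hg)
    · exact h2 s' h3 g hg
  let K' : Set J := ⋃ m, K m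
  have hK' : K'.Countable := Set.countable_iUnion fun m => (hKfin m).countable
  have hnotK : ∀ s, s ∉ K' → D s ^ p = D s ∧ ∀ s', br (D s') (D s) = 0 := by
    intro s hs
    have h1 : ∀ m, D s ^ p - D s ∈ opFil I m ∧ ∀ s', br (D s') (D s) ∈ opFil I m := by
      intro m
      by_contra h
      exact hs (Set.mem_iUnion.2 ⟨m, h⟩)
    exact ⟨sub_eq_zero.1 (hF.sep _ fun m => (h1 m).1), fun s' => hF.sep _ fun m => (h1 m).2 s'⟩
  obtain ⟨enc, henc⟩ := hK'.exists_injective_nat
  let X : ℕ → AddMonoid.End A := fun k => if h : ∃ s : K', enc s = k then D h.choose else 0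
  have hXenc : ∀ s : K', X (enc s) = D s := by
    intro s
    have h : ∃ s' : K', enc s' = enc s := ⟨s, rfl⟩
    show (if h : ∃ s' : K', enc s' = enc s then D h.choose else 0) = D s
    rw [dif_pos h]
    congr 1
    rw [henc h.choose_spec]
  have hXcases : ∀ k, X k = 0 ∨ ∃ s : K', enc s = k ∧ X k = D s := by
    intro k
    by_cases h : ∃ s : K', enc s = k
    · obtain ⟨s, rfl⟩ := h
      exact Or.inr ⟨s, rfl, hXenc s⟩
    · left
      show (if h : ∃ s : K', enc s = k then D h.choose else 0) = 0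
      rw [dif_neg h]
  have hbr0 : ∀ Y : AddMonoid.End A, br 0 Y = 0 := fun Y => by simp [br]
  have hbr0' : ∀ Y : AddMonoid.End A, br Y 0 = 0 := fun Y => by simp [br]
  obtain ⟨E, hE0, hEd, hEt, hEc, hEsub, hEclose⟩ := exists_commuting_toral hF hp.out h0 hDL X
    (by
      intro k
      rcases hXcases k with h | ⟨s, -, h⟩
      · rw [h]; exact (opFil I 0).zero_mem
      · rw [h]; exact hD0 s)
    (by
      intro k
      rcases hXcases k with h | ⟨s, -, h⟩
      · rw [h]; exact (ders A).zero_mem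
      · rw [h]; exact hder s)
    (by
      intro k
      rcases hXcases k with h | ⟨s, -, h⟩
      · rw [h, zero_pow hp.out.ne_zero, sub_zero]; exact (opFil I 1).zero_mem
      · rw [h]; exact htor s 1 (hsmall2 s))
    (by
      intro i k
      rcases hXcases k with h | ⟨s, -, h⟩
      · rw [h, hbr0']; exact (opFil I 1).zero_mem
      · rcases hXcases i with h' | ⟨s', -, h'⟩
        · rw [h', hbr0]; exact (opFil I 1).zero_mem
        · rw [h, h']; exact hbr1 _ _)
  let Ê : J → AddMonoid.End A := fun s => if h : s ∈ K' then E (enc ⟨s, h⟩) else D s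
  have hÊ1 : ∀ s (h : s ∈ K'), Ê s = E (enc ⟨s, h⟩) := fun s h => by
    show (if h : s ∈ K' then E (enc ⟨s, h⟩) else D s) = _
    rw [dif_pos h]
  have hÊ2 : ∀ s, s ∉ K' → Ê s = D s := fun s h => by
    show (if h : s ∈ K' then E (enc ⟨s, h⟩) else D s) = _
    rw [dif_neg h]
  have hÊd : ∀ s, Ê s ∈ ders A := by
    intro s
    by_cases h : s ∈ K'
    · rw [hÊ1 s h]; exact hEd _
    · rw [hÊ2 s h]; exact hder s
  have hÊ0 : ∀ s, Ê s ∈ opFil I 0 := by
    intro s
    by_cases h : s ∈ K'
    · rw [hÊ1 s h]; exact hE0 _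
    · rw [hÊ2 s h]; exact hD0 s
  have hÊt : ∀ s, Ê s ^ p = Ê s := by
    intro s
    by_cases h : s ∈ K'
    · rw [hÊ1 s h]; exact hEt _
    · rw [hÊ2 s h]; exact (hnotK s h).1
  -- closeness
  have hclose : ∀ s m, s ∉ K m → Ê s - D s ∈ opFil I m := by
    intro s m hs
    have hs' : D s ^ p - D s ∈ opFil I m ∧ ∀ s', br (D s') (D s) ∈ opFil I m := by
      by_contra h; exact hs h
    by_cases h : s ∈ K'
    · rw [hÊ1 s h, ← hXenc ⟨s, h⟩]
      apply hEclose
      · rw [hXenc]; exact hs'.1
      · intro j _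
        rw [hXenc]
        rcases hXcases j with h' | ⟨s', -, h'⟩
        · rw [h', hbr0]; exact (opFil I m).zero_mem
        · rw [h']; exact hs'.2 s'
    · rw [hÊ2 s h, sub_self]; exact (opFil I m).zero_mem
  have hclose1 : ∀ s, Ê s - D s ∈ opFil I 1 := by
    intro s
    apply hclose
    intro h
    exact h ⟨htor s 1 (hsmall2 s), fun s' => hbr1 s s'⟩
  -- membership in closed subrings
  have hÊsub : ∀ 𝒮 : Subring (AddMonoid.End A), ClosedSub (opFil I) 𝒮 →
      (∀ s, D s ∈ 𝒮) → ∀ s, Ê s ∈ 𝒮 := by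
    intro 𝒮 h𝒮 h s
    by_cases hs : s ∈ K'
    · rw [hÊ1 s hs]
      apply hEsub 𝒮 h𝒮
      intro j _
      rcases hXcases j with h' | ⟨s', -, h'⟩
      · rw [h']; exact 𝒮.zero_mem
      · rw [h']; exact h s'
    · rw [hÊ2 s hs]; exact h s
  have hÊc : ∀ s s', Commute (Ê s) (Ê s') := by
    -- elements outside `K'` commute with everything
    have hout : ∀ s s', s' ∉ K' → Commute (Ê s) (Ê s') := by
      intro s s' hs'
      rw [hÊ2 s' hs', ← br_eq_zero_iff]
      apply hF.sep
      intro m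
      have := hÊsub (centSub hF m (D s') (hD0 s')) (closedSub_centSub hF m (D s') (hD0 s'))
        (fun t => ⟨hD0 t, by rw [(hnotK s' hs').2 t]; exact (opFil I m).zero_mem⟩) s
      exact this.2
    intro s s'
    by_cases h' : s' ∈ K'
    · by_cases h : s ∈ K'
      · rw [hÊ1 s h, hÊ1 s' h']; exact hEc _ _
      · exact (hout s' s h).symm
    · exact hout s s' h'
  have hunit : ∀ s : J, IsUnit (σ s) := fun s =>
    (IsUnit.mk0 (s : κ) (hS.ne_zero s)).map σ
  have hIntσ : ∀ s s' : J, ∃ c : ℤ, Ê s (σ s') = c • σ s' := by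
    intro s s'
    refine hÊsub (eigSub (σ s')) (closedSub_eigSub I hp.out hpA hI (hunit s')) ?_ s
    intro t
    by_cases h : s' = t
    · exact ⟨1, by rw [h, hself, one_smul]⟩
    · exact ⟨0, by rw [hoff t s' h, zero_smul]⟩
  have hmodI : ∀ s a, Ê s a - D s a ∈ I := by
    intro s a
    have := hclose1 s 0 a (by simp)
    rw [zero_add, pow_one] at this
    exact this
  refine ⟨T, Ê, hÊd, hÊ0, hÊt, hÊc, ?_, ?_, ?_, ?_, ?_⟩
  · intro s
    obtain ⟨c, hc⟩ := hIntσ s s
    have h1 := hmodI s (σ s)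
    rw [hc, hself] at h1
    have h2 : (c - 1) • σ (s : κ) ∈ I := by rw [sub_smul, one_smul]; exact h1
    have h3 := intCast_eq_zero_of_mem I hp.out hpA hI (hunit s) h2
    rw [hc, zsmul_eq_mul]
    have : (c : A) = 1 := by
      rw [Int.cast_sub, Int.cast_one, sub_eq_zero] at h3; exact h3
    rw [this, one_mul]
  · intro s s' hne
    obtain ⟨c, hc⟩ := hIntσ s s'
    have h1 := hmodI s (σ s')
    rw [hc, hoff s s' hne, sub_zero] at h1
    have h3 := intCast_eq_zero_of_mem I hp.out hpA hI (hunit s') h1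
    rw [hc, zsmul_eq_mul, h3, zero_mul]
  · intro s l hl
    have h1 := hmodI s (σ l)
    have h2 : D s (σ l) ∈ I := Ideal.pow_le_self (by norm_num)
      (hsmall2 s _ (Or.inl ⟨l, hl, rfl⟩))
    have : Ê s (σ l) = (Ê s (σ l) - D s (σ l)) + D s (σ l) := by ring
    rw [this]
    exact I.add_mem h1 h2
  · intro s i
    have hxi : x i ∈ I ^ 1 := by rw [pow_one, ← hx]; exact Ideal.subset_span ⟨i, rfl⟩
    have h1 := hclose1 s 1 (x i) hxi
    have h2 : D s (x i) ∈ I ^ 2 := hsmall2 s _ (Or.inr ⟨i, rfl⟩)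
    have : Ê s (x i) = (Ê s - D s) (x i) + D s (x i) := by
      show _ = (Ê s (x i) - D s (x i)) + D s (x i)
      ring
    rw [this]
    exact (I ^ 2).add_mem h1 h2
  · intro a m
    refine ((hKfin m).union (hpt a m)).subset ?_
    intro s hs
    by_contra hcon
    simp only [Set.mem_union, not_or] at hcon
    obtain ⟨h1, h2⟩ := hcon
    have h2' : D s a ∈ I ^ m := by by_contra h; exact h2 h
    have h3 := hclose s m h1 0 a (by simp)
    rw [zero_add] at h3
    apply hs
    have : Ê s a = (Ê s - D s) a + D s a := by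
      show _ = (Ê s a - D s a) + D s a
      ring
    rw [this]
    exact (I ^ m).add_mem h3 h2'

end

end Pool.Agent.FrobDecomp
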